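import Pool.Agent.Lib.MP_cb8a44_nt.F4.Spec

/-!
# CNA: two small squares, few `x` (case `√5 ∉ K`)
-/

set_option autoImplicit false

open NumberField Module Pool.Agent.Lib.MPcb8a44.RD

namespace Pool.Agent.Lib.MPcb8a44.F4

namespace CNAM

variable {K : Type} [Field K] [NumberField K]

/-- the set for fixed `a`, `b` -/
def S (a b : 𝓞 K) (T' : ℝ) : Set (𝓞 K) := {x | ∃ c : 𝓞 K, x ^ 2 + 3 = a ^ 2 + b ^ 2 + c ^ 2} ∩ BB K T'

/-- in the bad case the elements are not small -/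
theorem big (hSIB : SpecSIB) (hK : TR K) (h5 : ∀ y : K, y ^ 2 ≠ 5) (p : Ideal (𝓞 K))
    (hp : p.IsMaximal) (h2 : (2 : 𝓞 K) ∈ p) {a : 𝓞 K} (ha : a ^ 2 + a + 1 ∈ p) :
    31 / 20 ≤ ms a := by
  have hone : (1 : 𝓞 K) ∉ p := fun h => hp.ne_top ((Ideal.eq_top_iff_one p).2 h)
  have h5' : ∀ y : 𝓞 K, y ^ 2 ≠ 5 := by
    intro y hy
    apply h5 (y : K)
    have := congrArg (algebraMap (𝓞 K) K) hy
    rw [map_pow, map_ofNat] at this
    exact this
  refine hSIB K hK a ?_ ?_ ?_ ?_ ?_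
  · rintro rfl
    apply hone
    simpa using ha
  · rintro rfl
    apply hone
    have h := p.sub_mem ha h2
    have e : (1 : 𝓞 K) ^ 2 + 1 + 1 - 2 = 1 := by ring
    rwa [e] at h
  · rintro rfl
    apply hone
    have e : (-1 : 𝓞 K) ^ 2 + (-1) + 1 = 1 := by ring
    rwa [e] at ha
  · intro h
    apply h5' (2 * a - 1)
    linear_combination 4 * h
  · intro h
    apply h5' (2 * a + 1)
    linear_combination 4 * h

theorem main (hPAR : SpecPAR) (hMDA : SpecMDA) (hSIB : SpecSIB) (hN3S : SpecN3S) (hK : TR K)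
    (hU : U2 K) (h5 : ∀ y : K, y ^ 2 ≠ 5) {T T' : ℝ} (hT : 1 ≤ T) (hT' : T' ≤ T + 1 / 20)
    (a b : 𝓞 K) : (S a b T').ncard ≤ 2 * NN K T := by
  by_cases hw : ∃ w, 2 ∣ (a + b + 1) * w - 1
  · -- case 1
    obtain ⟨w, hw⟩ := hw
    have h1 := hPAR K hK T' (w * (a ^ 2 + a * b + b ^ 2) - 1)
    have h2 : S a b T' ⊆ {x : 𝓞 K | 2 ∣ x - (w * (a ^ 2 + a * b + b ^ 2) - 1)} ∩ BB K T' := by
      rintro x ⟨⟨c, hc⟩, hx⟩
      refine ⟨?_, hx⟩
      obtain ⟨u, hu⟩ := hw
      obtain ⟨v, hv⟩ := (hMDA K hU x a b c hc).2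
      refine ⟨w * v - (x + 1) * u, ?_⟩
      linear_combination w * hv - (x + 1) * hu
    have h3 := Set.ncard_le_ncard h2 ((BB_finite hK T').subset Set.inter_subset_right)
    have h4 := NN_mono hK (T := T' / 2) (T' := T) (by linarith)
    omega
  · -- case 2
    rcases (S a b T').eq_empty_or_nonempty with h0 | ⟨x₀, ⟨c₀, hc₀⟩, hx₀⟩
    · rw [h0, Set.ncard_empty]
      exact Nat.zero_le _
    have hne : Ideal.span {(2 : 𝓞 K), a + b + 1} ≠ ⊤ := by
      intro htop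
      apply hw
      have h1 : (1 : 𝓞 K) ∈ Ideal.span {(2 : 𝓞 K), a + b + 1} := by
        rw [htop]
        exact Submodule.mem_top
      rw [Ideal.mem_span_pair] at h1
      obtain ⟨u, w, h⟩ := h1
      refine ⟨w, -u, ?_⟩
      linear_combination h
    obtain ⟨p, hp, hle⟩ := Ideal.exists_le_maximal _ hne
    have h2p : (2 : 𝓞 K) ∈ p := hle (Ideal.subset_span (by simp))
    have htp : a + b + 1 ∈ p := hle (Ideal.subset_span (by simp))
    have hq : a ^ 2 + a * b + b ^ 2 ∈ p := by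
      obtain ⟨v, hv⟩ := (hMDA K hU x₀ a b c₀ hc₀).2
      have e : a ^ 2 + a * b + b ^ 2 = (x₀ + 1) * (a + b + 1) - v * 2 := by
        linear_combination -hv
      rw [e]
      exact p.sub_mem (p.mul_mem_left _ htp) (p.mul_mem_left _ h2p)
    have hap : a ^ 2 + a + 1 ∈ p := by
      have e : a ^ 2 + a + 1 = (a ^ 2 + a * b + b ^ 2) -
          (a - 2 * (a + 1) + (a + b + 1)) * (a + b + 1) := by ring
      rw [e]
      exact p.sub_mem hq (p.mul_mem_left _ htp)
    have hbp : b ^ 2 + b + 1 ∈ p := by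
      have e : b ^ 2 + b + 1 = (a ^ 2 + a * b + b ^ 2) -
          (b - 2 * (b + 1) + (a + b + 1)) * (a + b + 1) := by ring
      rw [e]
      exact p.sub_mem hq (p.mul_mem_left _ htp)
    have hma := big hSIB hK h5 p hp h2p hap
    have hmb := big hSIB hK h5 p hp h2p hbp
    have hD : a ^ 2 + b ^ 2 - 3 ≠ 0 := sub_ne_zero.2 (hN3S K hK hU h5 a b)
    -- the small factor
    have hch : ∀ x ∈ S a b T', ∃ c : 𝓞 K, x ^ 2 + 3 = a ^ 2 + b ^ 2 + c ^ 2 ∧
        ms (x - c) ≤ 2 * T := by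
      rintro x ⟨⟨c, hc⟩, hx⟩
      have hx' : ms x ≤ T' := hx
      have h1 := congrArg av hc
      rw [av_add, av_add, av_add, ← ms_eq_av hK, ← ms_eq_av hK, ← ms_eq_av hK, ← ms_eq_av hK,
        av_ofNat] at h1
      have h2 := ms_par x c
      have h3 : (OfNat.ofNat 3 : ℝ) = 3 := rfl
      rw [h3] at h1
      by_cases h4 : ms (x - c) ≤ 2 * T
      · exact ⟨c, hc, h4⟩
      · refine ⟨-c, by rw [hc]; ring, ?_⟩
        rw [sub_neg_eq_add]
        push Not at h4
        linarith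
    have hch2 : ∀ x : 𝓞 K, ∃ c : 𝓞 K, x ∈ S a b T' → x ^ 2 + 3 = a ^ 2 + b ^ 2 + c ^ 2 ∧
        ms (x - c) ≤ 2 * T := by
      intro x
      by_cases hx : x ∈ S a b T'
      · obtain ⟨c, hc⟩ := hch x hx
        exact ⟨c, fun _ => hc⟩
      · exact ⟨0, fun h => absurd h hx⟩
    choose f hf using hch2
    have hmaps : ∀ x ∈ S a b T', x - f x ∈
        {z : 𝓞 K | 2 ∣ z - (a + b - 1)} ∩ BB K (2 * T) := by
      intro x hx
      refine ⟨?_, (hf x hx).2⟩
      obtain ⟨u, hu⟩ := (hMDA K hU x a b (f x) (hf x hx).1).1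
      refine ⟨-u, ?_⟩
      linear_combination -hu
    have hinj : Set.InjOn (fun x => x - f x) (S a b T') := by
      intro x hx y hy h
      simp only at h
      have h1 : (x - f x) * (x + f x) = a ^ 2 + b ^ 2 - 3 := by
        linear_combination (hf x hx).1
      have h2 : (x - f x) * (y + f y) = a ^ 2 + b ^ 2 - 3 := by
        rw [h]
        linear_combination (hf y hy).1
      have h3 : x - f x ≠ 0 := by
        intro h0
        rw [h0, zero_mul] at h1
        exact hD h1.symm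
      have h4 : x + f x = y + f y := mul_left_cancel₀ h3 (h1.trans h2.symm)
      have h5 : (2 : 𝓞 K) * x = 2 * y := by linear_combination h + h4
      exact mul_left_cancel₀ two_ne_zero h5
    have h1 := Set.ncard_le_ncard_of_injOn (fun x => x - f x) hmaps hinj
      ((BB_finite hK (2 * T)).subset Set.inter_subset_right)
    have h2 := hPAR K hK (2 * T) (a + b - 1)
    have h3 : 2 * T / 2 = T := by ring
    rw [h3] at h2
    exact h1.trans h2

end CNAM

open CNAM in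
/-- CNA -/
theorem specCNA (hPAR : SpecPAR) (hMDA : SpecMDA) (hSIB : SpecSIB) (hN3S : SpecN3S) :
    SpecCNA := by
  classical
  intro K _ _ hK hU h5 T T' hT hT'
  set A : Finset (𝓞 K) := (BB_finite hK T).toFinset with hA
  have hAc : A.card = NN K T := by
    rw [hA, NN, Set.ncard_eq_toFinset_card _ (BB_finite hK T)]
  have hfin : ∀ a b : 𝓞 K, (S a b T').Finite := fun a b =>
    (BB_finite hK T').subset Set.inter_subset_right
  have hsub : ({x : 𝓞 K | ∃ a b c : 𝓞 K, ms a ≤ T ∧ ms b ≤ T ∧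
      x ^ 2 + 3 = a ^ 2 + b ^ 2 + c ^ 2} ∩ BB K T') ⊆
      (((A ×ˢ A).biUnion fun p => (hfin p.1 p.2).toFinset : Finset (𝓞 K)) : Set (𝓞 K)) := by
    rintro x ⟨⟨a, b, c, ha, hb, hc⟩, hx⟩
    rw [Finset.mem_coe, Finset.mem_biUnion]
    refine ⟨(a, b), ?_, ?_⟩
    · rw [Finset.mem_product]
      exact ⟨(Set.Finite.mem_toFinset _).2 ha, (Set.Finite.mem_toFinset _).2 hb⟩
    · rw [Set.Finite.mem_toFinset]
      exact ⟨⟨c, hc⟩, hx⟩
  have h1 := Set.ncard_le_ncard hsub (Finset.finite_toSet _)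
  rw [Set.ncard_coe_finset] at h1
  have h2 : ((A ×ˢ A).biUnion fun p => (hfin p.1 p.2).toFinset).card ≤
      (A ×ˢ A).card * (2 * NN K T) := by
    refine Finset.card_biUnion_le_card_mul _ _ _ fun p _ => ?_
    rw [← Set.ncard_eq_toFinset_card _ (hfin p.1 p.2)]
    exact main hPAR hMDA hSIB hN3S hK hU h5 hT hT' p.1 p.2
  rw [Finset.card_product, hAc] at h2
  calc _ ≤ _ := h1
    _ ≤ NN K T * NN K T * (2 * NN K T) := h2
    _ = 2 * NN K T ^ 3 := by ring

end Pool.Agent.Lib.MPcb8a44.F4
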