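import Pool.Agent.Lib.MP_cb8a44_nt.F4.Spec

section
/-!
# Module BDA: the uniform bound in the case `√5 ∉ K`
-/
set_option autoImplicit false

open NumberField Module Pool.Agent.Lib.MPcb8a44.RD

namespace Pool.Agent.Lib.MPcb8a44.F4

namespace BDAM

lemma log_one : Real.log (11 / 5) / 2 - 1 / 4 < (3 / 10 : ℝ) / 2 := by
  have h1 : Real.log (11 / 5) < 4 / 5 := by
    rw [Real.log_lt_iff_lt_exp (by norm_num)]
    have h2 : (61 / 50 : ℝ) ≤ Real.exp (1 / 5) := by
      have := Real.quadratic_le_exp_of_nonneg (show (0 : ℝ) ≤ 1 / 5 by norm_num)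
      linarith
    have h3 : Real.exp (4 / 5) = Real.exp (1 / 5) ^ 4 := by
      rw [← Real.exp_nat_mul]
      norm_num
    rw [h3]
    exact lt_of_lt_of_le (by norm_num) (pow_le_pow_left₀ (by norm_num) h2 4)
  linarith

lemma log_two : Real.log (3001 / 1000) / 2 - 1 / 4 < (3 / 10 : ℝ) := by
  have h1 : Real.log (3001 / 1000) < 11 / 10 := by
    rw [Real.log_lt_iff_lt_exp (by norm_num)]
    have h2 : (221 / 200 : ℝ) ≤ Real.exp (1 / 10) := by
      have := Real.quadratic_le_exp_of_nonneg (show (0 : ℝ) ≤ 1 / 10 by norm_num)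
      linarith
    have h3 : Real.exp (11 / 10) = Real.exp 1 * Real.exp (1 / 10) := by
      rw [← Real.exp_add]
      norm_num
    have h4 := Real.exp_one_gt_d9
    rw [h3]
    refine lt_of_lt_of_le ?_ (mul_le_mul h4.le h2 (by norm_num) (Real.exp_pos 1).le)
    norm_num
  linarith

end BDAM

open BDAM in
/-- Module BDA. -/
theorem specBDA (hSTT : SpecSTT) (hEST : SpecEST) (hSGA : SpecSGA) (hITR : SpecITR) :
    SpecBDA := by
  intro Q T
  obtain ⟨F, hF⟩ := hSTT (3 / 10) (11 / 5) (by norm_num) log_one Q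
  obtain ⟨M, hM⟩ := hEST (3 / 10) (3001 / 1000) (by norm_num) log_two Q
  obtain ⟨G, hG⟩ := hITR (11 / 5) (1 / 2000) F (2 + M) (by norm_num) T
  refine ⟨G, fun K _ _ hK hU hP h5 hS => hG K hK (hF K hK hS) fun T' hT' => ?_⟩
  exact hSGA K hK hU hP h5 M (hM K hK hS 1 1) T' hT'

end Pool.Agent.Lib.MPcb8a44.F4
end

section
/-!
# BDB: the uniform bound in the case `√5 ∈ K`
-/
set_option autoImplicit false

open NumberField Module Pool.Agent.Lib.MPcb8a44.RD

namespace Pool.Agent.Lib.MPcb8a44.F4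

namespace BDBM

lemma log_a : Real.log (23 / 10 : ℝ) < 22 / 25 := by
  rw [Real.log_lt_iff_lt_exp (by norm_num)]
  refine lt_of_lt_of_le ?_ (Real.sum_le_exp_of_nonneg (x := 22 / 25) (by norm_num) 4)
  norm_num [Finset.sum_range_succ, Nat.factorial]

lemma log_b : Real.log (3501 / 1000 : ℝ) < 63 / 50 := by
  rw [Real.log_lt_iff_lt_exp (by norm_num)]
  refine lt_of_lt_of_le ?_ (Real.sum_le_exp_of_nonneg (x := 63 / 50) (by norm_num) 6)
  norm_num [Finset.sum_range_succ, Nat.factorial]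

lemma exists_phi {K : Type} [Field K] [NumberField K] (y : K) (hy : y ^ 2 = 5) :
    ∃ f : 𝓞 K, f ^ 2 = f + 1 := by
  have h1 : ((1 + y) / 2) ^ 2 = (1 + y) / 2 + 1 := by
    linear_combination hy / 4
  have h2 : IsIntegral ℤ ((1 + y) / 2) := by
    refine ⟨Polynomial.X ^ 2 - Polynomial.X - 1, ?_, ?_⟩
    · monicity!
    · simp only [Polynomial.eval₂_sub, Polynomial.eval₂_pow, Polynomial.eval₂_X,
        Polynomial.eval₂_one]
      linear_combination h1
  refine ⟨⟨_, h2⟩, RingOfIntegers.ext ?_⟩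
  exact h1

end BDBM

theorem specBDB (hLOC : SpecLOC) (hSTT : SpecSTT) (hEST : SpecEST) (hSGB : SpecSGB)
    (hITR : SpecITR) : SpecBDB := by
  intro Q T
  obtain ⟨F, hF⟩ := hSTT (19 / 50) (23 / 10) (by norm_num) (by linarith [BDBM.log_a]) Q
  obtain ⟨M, hM⟩ := hEST (19 / 50) (3501 / 1000) (by norm_num) (by linarith [BDBM.log_b]) Q
  obtain ⟨G, hG⟩ := hITR (23 / 10) (1 / 2000) F (2 + 2 * M) (by norm_num) T
  refine ⟨G, fun K _ _ hK hU hP h5 hq hHS => ?_⟩
  obtain ⟨y, hy⟩ := h5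
  obtain ⟨f, hf⟩ := BDBM.exists_phi y hy
  refine hG K hK (hF K hK hHS) fun T' hT' => ?_
  exact hSGB K hK hU hP f hf (fun q hq1 hq2 a => hLOC K q hq1 hq2 (hq q hq1 hq2) f a hf) M
    (fun s τ => hM K hK hHS s τ) T' hT'

end Pool.Agent.Lib.MPcb8a44.F4
end

section
/-!
# CLS: classes modulo powers of a maximal ideal
-/
set_option autoImplicit false

open NumberField Module Pool.Agent.Lib.MPcb8a44.RD

namespace Pool.Agent.Lib.MPcb8a44.F4

namespace CLS_

/-- fibres of a surjective homomorphism of finite groups -/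
theorem preimage_ncard {A B : Type} [AddCommGroup A] [AddCommGroup B] [Finite A] (f : A →+ B)
    (hf : Function.Surjective f) (n : ℕ) (hn : Nat.card A = n * Nat.card B) (Y : Set B) :
    (f ⁻¹' Y).ncard = n * Y.ncard := by
  classical
  have : Finite B := Finite.of_surjective f hf
  have hB : 0 < Nat.card B := Nat.card_pos
  have hfib : ∀ b : B, (f ⁻¹' {b}).ncard = Nat.card f.ker := by
    intro b
    obtain ⟨a, rfl⟩ := hf b
    have h1 : f ⁻¹' {f a} = (fun x => a + x) '' (f.ker : Set A) := by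
      ext y
      simp only [Set.mem_preimage, Set.mem_singleton_iff, Set.mem_image, SetLike.mem_coe,
        AddMonoidHom.mem_ker]
      constructor
      · intro h
        exact ⟨y - a, by rw [map_sub, h, sub_self], by abel⟩
      · rintro ⟨x, hx, rfl⟩
        rw [map_add, hx, add_zero]
    rw [h1, Set.ncard_image_of_injective _ (add_right_injective a)]
    rfl
  have hker : Nat.card f.ker = n := by
    have h1 : Nat.card A = Nat.card (A ⧸ f.ker) * Nat.card f.ker :=
      AddSubgroup.card_eq_card_quotient_mul_card_addSubgroup f.ker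
    have h2 : Nat.card (A ⧸ f.ker) = Nat.card B :=
      Nat.card_congr (QuotientAddGroup.quotientKerEquivOfSurjective f hf).toEquiv
    rw [h2, hn, mul_comm] at h1
    exact (Nat.eq_of_mul_eq_mul_left hB h1).symm
  have key : ∀ s : Finset B, (f ⁻¹' (s : Set B)).ncard = n * s.card := by
    intro s
    induction s using Finset.induction_on with
    | empty => simp
    | insert b s hb ih =>
      rw [Finset.coe_insert, Set.insert_eq, Set.preimage_union, Set.ncard_union_eq, hfib, hker, ih,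
        Finset.card_insert_of_notMem hb]
      · ring
      · rw [Set.disjoint_left]
        intro x h1 h2
        rw [Set.mem_preimage, Set.mem_singleton_iff] at h1
        rw [Set.mem_preimage, h1] at h2
        exact hb h2
  have hY := key (Set.toFinite Y).toFinset
  rw [Set.Finite.coe_toFinset] at hY
  rw [hY, Set.ncard_eq_toFinset_card Y (Set.toFinite Y)]

end CLS_

open CLS_ in
/-- CLS. -/
theorem specCLS : SpecCLS := by
  intro K _ _ q hq hb X c k hc
  have hqk : q ^ (k + 1) ≠ ⊥ := pow_ne_zero _ hb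
  have : Finite (𝓞 K ⧸ q ^ (k + 1)) := Ideal.finiteQuotientOfFreeOfNeBot _ hqk
  have : Finite (𝓞 K ⧸ q) := Ideal.finiteQuotientOfFreeOfNeBot _ hb
  have hle : q ^ (k + 1) ≤ q := Ideal.pow_le_self (Nat.succ_ne_zero k)
  let f : 𝓞 K ⧸ q ^ (k + 1) →+* 𝓞 K ⧸ q := Ideal.Quotient.factor hle
  have hf : Function.Surjective f := Ideal.Quotient.factor_surjective hle
  have hfm : ∀ x, f (Ideal.Quotient.mk (q ^ (k + 1)) x) = Ideal.Quotient.mk q x := fun x =>
    Ideal.Quotient.factor_mk hle x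
  have hn : Nat.card (𝓞 K ⧸ q ^ (k + 1)) = Ideal.absNorm q ^ k * Nat.card (𝓞 K ⧸ q) := by
    have h1 : Ideal.absNorm (q ^ (k + 1)) = Ideal.absNorm q ^ k * Ideal.absNorm q := by
      rw [map_pow, pow_succ]
    rw [Ideal.absNorm_apply, Submodule.cardQuot_apply] at h1
    rw [h1]
    congr 1
  have h2 := preimage_ncard (f : 𝓞 K ⧸ q ^ (k + 1) →+ 𝓞 K ⧸ q) hf _ hn
    ((Ideal.Quotient.mk q) '' X)
  have h3 : (Ideal.Quotient.mk (q ^ (k + 1))) '' X ⊆
      (f : 𝓞 K ⧸ q ^ (k + 1) →+ 𝓞 K ⧸ q) ⁻¹' ((Ideal.Quotient.mk q) '' X) := by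
    rintro _ ⟨x, hx, rfl⟩
    exact ⟨x, hx, (hfm x).symm⟩
  refine (Set.ncard_le_ncard h3 (Set.toFinite _)).trans ?_
  rw [h2, mul_comm c]
  exact Nat.mul_le_mul_left _ hc

end Pool.Agent.Lib.MPcb8a44.F4
end

section
/-! # CNB (helper57) -/
set_option autoImplicit false

open NumberField Module Pool.Agent.Lib.MPcb8a44.RD

namespace Pool.Agent.Lib.MPcb8a44.F4

namespace CNBM

variable {K : Type} [Field K] [NumberField K]

/-- the fibre over the pair `(a, b)` -/
def fib (f a b : 𝓞 K) (T' : ℝ) : Set (𝓞 K) :=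
  {x | ∃ c, x ^ 2 + 3 + f = a ^ 2 + b ^ 2 + c ^ 2} ∩ BB K T'

lemma inv_mod (hMDB : SpecMDB) (hU : U2 K) (f : 𝓞 K) (hf : f ^ 2 = f + 1)
    (hq : ∀ q : Ideal (𝓞 K), q.IsMaximal → (2 : 𝓞 K) ∈ q → ∀ a : 𝓞 K, a ^ 2 + f * a + 1 ∉ q)
    {x a b c : 𝓞 K} (hx : x ^ 2 + 3 + f = a ^ 2 + b ^ 2 + c ^ 2) :
    ∃ w, 2 ∣ (a + b + f) * w - 1 := by
  obtain ⟨-, h2⟩ := hMDB K hU f x a b c hf hx
  by_contra hcon
  have hI : Ideal.span {(2 : 𝓞 K), a + b + f} ≠ ⊤ := by
    intro htop
    apply hcon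
    rw [Ideal.eq_top_iff_one, Ideal.mem_span_pair] at htop
    obtain ⟨s, t, hst⟩ := htop
    refine ⟨t, -s, ?_⟩
    linear_combination hst
  obtain ⟨q, hqm, hle⟩ := Ideal.exists_le_maximal _ hI
  have m2 : (2 : 𝓞 K) ∈ q := hle (Ideal.subset_span (by simp))
  have m3 : a + b + f ∈ q := hle (Ideal.subset_span (by simp))
  apply hq q hqm m2 a
  obtain ⟨t, ht⟩ := h2
  have e : a ^ 2 + f * a + 1 = (a + b + f) * (x - b) - 2 * t := by
    linear_combination -ht
  rw [e]
  exact q.sub_mem (q.mul_mem_right _ m3) (q.mul_mem_right _ m2)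

lemma fib_le (hMDB : SpecMDB) (hPAR : SpecPAR) (hK : TR K) (hU : U2 K) (f : 𝓞 K)
    (hf : f ^ 2 = f + 1)
    (hq : ∀ q : Ideal (𝓞 K), q.IsMaximal → (2 : 𝓞 K) ∈ q → ∀ a : 𝓞 K, a ^ 2 + f * a + 1 ∉ q)
    (a b : 𝓞 K) {T T' : ℝ} (hT : T' ≤ 2 * T) : (fib f a b T').ncard ≤ 2 * NN K T := by
  by_cases hne : (fib f a b T').Nonempty
  · obtain ⟨x₀, ⟨c₀, h₀⟩, -⟩ := hne
    obtain ⟨w, hw⟩ := inv_mod hMDB hU f hf hq h₀
    obtain ⟨-, d₀⟩ := hMDB K hU f x₀ a b c₀ hf h₀
    have hsub : fib f a b T' ⊆ {x : 𝓞 K | 2 ∣ x - x₀} ∩ BB K T' := by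
      rintro x ⟨⟨c, h⟩, hx⟩
      refine ⟨?_, hx⟩
      obtain ⟨-, d⟩ := hMDB K hU f x a b c hf h
      obtain ⟨t, ht⟩ := hw
      obtain ⟨t₀, ht₀⟩ := d₀
      obtain ⟨t₁, ht₁⟩ := d
      refine ⟨w * (t₁ - t₀) - t * (x - x₀), ?_⟩
      linear_combination w * (ht₁ - ht₀) - (x - x₀) * ht
    calc (fib f a b T').ncard ≤ ({x : 𝓞 K | 2 ∣ x - x₀} ∩ BB K T').ncard :=
          Set.ncard_le_ncard hsub ((BB_finite hK T').subset Set.inter_subset_right)
      _ ≤ 2 * NN K (T' / 2) := hPAR K hK T' x₀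
      _ ≤ 2 * NN K T := Nat.mul_le_mul_left _ (NN_mono hK (by linarith))
  · rw [Set.not_nonempty_iff_eq_empty] at hne
    rw [hne, Set.ncard_empty]
    exact Nat.zero_le _

end CNBM

open CNBM

theorem specCNB (hMDB : SpecMDB) (hPAR : SpecPAR) : SpecCNB := by
  intro K _ _ hK hU f hf hq T T' hT hT'
  set F := (BB_finite hK T).toFinset with hF
  have hFc : F.card = NN K T := by
    rw [hF, NN, Set.ncard_eq_toFinset_card _ (BB_finite hK T)]
  have hsub : ({x : 𝓞 K | ∃ a b c : 𝓞 K, ms a ≤ T ∧ ms b ≤ T ∧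
      x ^ 2 + 3 + f = a ^ 2 + b ^ 2 + c ^ 2} ∩ BB K T') ⊆ ⋃ p ∈ F ×ˢ F, fib f p.1 p.2 T' := by
    rintro x ⟨⟨a, b, c, ha, hb, h⟩, hx⟩
    rw [Set.mem_iUnion₂]
    refine ⟨(a, b), ?_, ⟨c, h⟩, hx⟩
    rw [Finset.mem_product, hF, Set.Finite.mem_toFinset, Set.Finite.mem_toFinset]
    exact ⟨ha, hb⟩
  have hfin : (⋃ p ∈ F ×ˢ F, fib f p.1 p.2 T').Finite := by
    apply (BB_finite hK T').subset
    intro x hx
    rw [Set.mem_iUnion₂] at hx
    obtain ⟨_, _, _, hx⟩ := hx
    exact hx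
  calc _ ≤ (⋃ p ∈ F ×ˢ F, fib f p.1 p.2 T').ncard := Set.ncard_le_ncard hsub hfin
    _ ≤ ∑ p ∈ F ×ˢ F, (fib f p.1 p.2 T').ncard := Finset.set_ncard_biUnion_le _ _
    _ ≤ ∑ p ∈ F ×ˢ F, 2 * NN K T := Finset.sum_le_sum fun p _ =>
        fib_le hMDB hPAR hK hU f hf hq p.1 p.2 hT'
    _ = 2 * NN K T ^ 3 := by
        rw [Finset.sum_const, Finset.card_product, hFc, smul_eq_mul]
        ring

end Pool.Agent.Lib.MPcb8a44.F4
end

section
/-!
# COL: many collisions make the product of the norms large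
-/
set_option autoImplicit false

open NumberField Module Pool.Agent.Lib.MPcb8a44.RD

namespace Pool.Agent.Lib.MPcb8a44.F4

open Classical in
theorem specCOL (hPGH : SpecPGH) (hCLS : SpecCLS) (hVAL : SpecVAL) : SpecCOL := by
  intro K _ _ S hS c hc k₀ m x hx hcl
  have hpos : ∀ q ∈ S, 1 ≤ Ideal.absNorm q := by
    intro q hq
    have : Ideal.absNorm q ≠ 0 := by
      rw [Ne, Ideal.absNorm_eq_zero_iff]
      exact (hS q hq).2
    exact Nat.pos_of_ne_zero this
  -- the collisions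
  have h1 : ∀ q ∈ S, ∀ k, (m : ℝ) ^ 2 / (2 * (c q * (Ideal.absNorm q : ℝ) ^ k)) - m / 2 ≤
      ∑ i, (((Finset.Ioi i).filter fun j => x j - x i ∈ q ^ (k + 1)).card : ℝ) := by
    intro q hq k
    have h2 := hPGH (𝓞 K ⧸ q ^ (k + 1)) m (c q * Ideal.absNorm q ^ k)
      (fun i => Ideal.Quotient.mk (q ^ (k + 1)) (x i))
      (Nat.mul_pos (hc q hq) (pow_pos (hpos q hq) k)) (by
        have h3 := hCLS K q (hS q hq).1 (hS q hq).2 (Set.range x) (c q) k (hcl q hq)
        rw [← Set.range_comp] at h3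
        exact h3)
    push_cast at h2
    refine h2.trans (le_of_eq ?_)
    refine Finset.sum_congr rfl fun i _ => ?_
    congr 2
    refine Finset.filter_congr fun j _ => ?_
    rw [Ideal.Quotient.mk_eq_mk_iff_sub_mem]
  have h3 : ∑ q ∈ S, Real.log (Ideal.absNorm q) *
      ∑ k ∈ Finset.range k₀, ((m : ℝ) ^ 2 / (2 * (c q * (Ideal.absNorm q : ℝ) ^ k)) - m / 2) ≤
      ∑ q ∈ S, Real.log (Ideal.absNorm q) * ∑ k ∈ Finset.range k₀,
        ∑ i, (((Finset.Ioi i).filter fun j => x j - x i ∈ q ^ (k + 1)).card : ℝ) := by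
    refine Finset.sum_le_sum fun q hq => ?_
    refine mul_le_mul_of_nonneg_left (Finset.sum_le_sum fun k _ => h1 q hq k) ?_
    exact Real.log_natCast_nonneg _
  refine h3.trans ?_
  have h4 : ∀ q : Ideal (𝓞 K), ∑ k ∈ Finset.range k₀,
      ∑ i, (((Finset.Ioi i).filter fun j => x j - x i ∈ q ^ (k + 1)).card : ℝ) =
      ∑ i, ∑ j ∈ Finset.Ioi i,
        (((Finset.range k₀).filter fun k => x j - x i ∈ q ^ (k + 1)).card : ℝ) := by
    intro q
    rw [Finset.sum_comm]
    refine Finset.sum_congr rfl fun i _ => ?_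
    simp only [Finset.card_filter, Nat.cast_sum, Nat.cast_ite, Nat.cast_one, Nat.cast_zero]
    rw [Finset.sum_comm]
  have h5 : ∑ q ∈ S, Real.log (Ideal.absNorm q) * ∑ k ∈ Finset.range k₀,
        ∑ i, (((Finset.Ioi i).filter fun j => x j - x i ∈ q ^ (k + 1)).card : ℝ) =
      ∑ i, ∑ j ∈ Finset.Ioi i, ∑ q ∈ S, Real.log (Ideal.absNorm q) *
        (((Finset.range k₀).filter fun k => x j - x i ∈ q ^ (k + 1)).card : ℝ) := by
    simp only [h4, Finset.mul_sum]
    rw [Finset.sum_comm]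
    refine Finset.sum_congr rfl fun i _ => ?_
    rw [Finset.sum_comm]
  rw [h5]
  refine Finset.sum_le_sum fun i _ => Finset.sum_le_sum fun j hj => ?_
  refine hVAL K S hS k₀ (x j - x i) ?_
  intro h0
  have := hx (sub_eq_zero.1 h0)
  rw [this] at hj
  exact lt_irrefl _ (Finset.mem_Ioi.1 hj)

end Pool.Agent.Lib.MPcb8a44.F4
end

section
/-!
# EGY: the energy bound for finite sets with few classes modulo small primes
-/
set_option autoImplicit false

open NumberField Module Pool.Agent.Lib.MPcb8a44.RD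

namespace Pool.Agent.Lib.MPcb8a44.F4

namespace EGY_

/-- the final step: `m δ ≤ 2 K₀ log (m + 1) + L` bounds `m` -/
theorem bound {δ K₀ L : ℝ} (hδ : 0 < δ) (hK : 0 ≤ K₀) (m : ℕ)
    (h : (m : ℝ) * δ ≤ 2 * K₀ * Real.log (m + 1) + L) :
    (m : ℝ) ≤ 1 + 2 / δ * (2 * K₀ * Real.log (4 * K₀ / δ + 1) + L) := by
  have ha : 0 < 4 * K₀ / δ + 1 := by
    have : 0 ≤ 4 * K₀ / δ := div_nonneg (by linarith) hδ.le
    linarith
  have hm : (0 : ℝ) < (m : ℝ) + 1 := by positivity
  have h1 : Real.log (m + 1) ≤ (m + 1) / (4 * K₀ / δ + 1) - 1 + Real.log (4 * K₀ / δ + 1) := by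
    have h2 := Real.log_le_sub_one_of_pos (div_pos hm ha)
    rw [Real.log_div hm.ne' ha.ne'] at h2
    linarith
  have h3 : 2 * K₀ * ((m + 1) / (4 * K₀ / δ + 1)) ≤ δ / 2 * (m + 1) := by
    rw [← mul_div_assoc, div_le_iff₀ ha]
    have h4 : δ / 2 * ((m : ℝ) + 1) * (4 * K₀ / δ + 1) = 2 * K₀ * (m + 1) + δ / 2 * (m + 1) := by
      field_simp
      ring
    rw [h4]
    have h5 : 0 ≤ δ / 2 * ((m : ℝ) + 1) := by positivity
    linarith
  have h6 : (m : ℝ) * δ ≤ δ / 2 * (m + 1) + (2 * K₀ * Real.log (4 * K₀ / δ + 1) + L) := by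
    have h7 := mul_le_mul_of_nonneg_left h1 (show (0 : ℝ) ≤ 2 * K₀ by linarith)
    have h8 : 2 * K₀ * ((m + 1) / (4 * K₀ / δ + 1) - 1 + Real.log (4 * K₀ / δ + 1)) =
        2 * K₀ * ((m + 1) / (4 * K₀ / δ + 1)) - 2 * K₀ + 2 * K₀ * Real.log (4 * K₀ / δ + 1) := by ring
    rw [h8] at h7
    linarith
  have h9 : (m : ℝ) * δ / 2 ≤ δ / 2 + (2 * K₀ * Real.log (4 * K₀ / δ + 1) + L) := by linarith
  have h10 : (m : ℝ) * (δ / 2) ≤ (1 + 2 / δ * (2 * K₀ * Real.log (4 * K₀ / δ + 1) + L)) * (δ / 2) := by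
    have h11 : (1 + 2 / δ * (2 * K₀ * Real.log (4 * K₀ / δ + 1) + L)) * (δ / 2) =
        δ / 2 + (2 * K₀ * Real.log (4 * K₀ / δ + 1) + L) := by
      field_simp
    rw [h11]
    linarith
  exact le_of_mul_le_mul_right h10 (by linarith)

end EGY_

/-- EGY. -/
theorem specEGY (hNRM : SpecNRM) (hCOL : SpecCOL) (hSLG : SpecSLG) : SpecEGY := by
  classical
  intro T δ hT hδ Q k₀
  obtain ⟨K₀, hK₀, hN⟩ := hNRM
  refine ⟨⌈1 + 2 / δ * (2 * K₀ * Real.log (4 * K₀ / δ + 1) + k₀ * Real.log (Q.factorial : ℝ))⌉₊, ?_⟩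
  intro K _ _ hK S hS c hc hsum X hX hXc
  rcases Nat.eq_zero_or_pos X.card with h0 | hm
  · rw [h0]
    exact Nat.zero_le _
  have hd : (0 : ℝ) < finrank ℚ K := fpos
  obtain ⟨m, hmdef⟩ : ∃ m, m = X.card := ⟨_, rfl⟩
  rw [← hmdef] at hm ⊢
  let e : X ≃ Fin m := hmdef ▸ X.equivFin
  let x : Fin m → 𝓞 K := fun i => (e.symm i : 𝓞 K)
  have hxi : Function.Injective x := fun i j h => e.symm.injective (Subtype.ext h)
  have hxr : Set.range x = (X : Set (𝓞 K)) := by
    ext y
    constructor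
    · rintro ⟨i, rfl⟩
      exact (e.symm i).2
    · intro hy
      exact ⟨e ⟨y, hy⟩, by
        show ((e.symm (e ⟨y, hy⟩) : X) : 𝓞 K) = y
        rw [Equiv.symm_apply_apply]⟩
  have hxT : ∀ i, ms (x i) ≤ T := fun i => hX _ (e.symm i).2
  have h1 := hN K hK m hm T hT x hxi hxT
  have h2 := hCOL K S (fun q hq => ⟨(hS q hq).1, (hS q hq).2.1⟩) c hc k₀ m x hxi (by
    intro q hq
    rw [hxr]
    exact hXc q hq)
  have h3 := hSLG K Q S hS
  have hm0 : (0 : ℝ) < m := by exact_mod_cast hm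
  have h4 : ∑ q ∈ S, Real.log (Ideal.absNorm q) *
      ∑ k ∈ Finset.range k₀, ((m : ℝ) ^ 2 / (2 * (c q * (Ideal.absNorm q : ℝ) ^ k)) - m / 2) =
      (m : ℝ) ^ 2 / 2 * (∑ q ∈ S, Real.log (Ideal.absNorm q) *
        ∑ k ∈ Finset.range k₀, 1 / (c q * (Ideal.absNorm q : ℝ) ^ k)) -
      m / 2 * k₀ * ∑ q ∈ S, Real.log (Ideal.absNorm q) := by
    rw [Finset.mul_sum, Finset.mul_sum, ← Finset.sum_sub_distrib]
    refine Finset.sum_congr rfl fun q _ => ?_
    rw [Finset.sum_sub_distrib, Finset.sum_const, Finset.card_range, nsmul_eq_mul]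
    have h5 : ∑ k ∈ Finset.range k₀, (m : ℝ) ^ 2 / (2 * (c q * (Ideal.absNorm q : ℝ) ^ k)) =
        (m : ℝ) ^ 2 / 2 * ∑ k ∈ Finset.range k₀, 1 / (c q * (Ideal.absNorm q : ℝ) ^ k) := by
      rw [Finset.mul_sum]
      refine Finset.sum_congr rfl fun k _ => ?_
      rw [div_mul_div_comm, mul_one]
    rw [h5]
    ring
  rw [h4] at h2
  have h5 : (m : ℝ) ^ 2 / 2 * (finrank ℚ K * (Real.log T / 2 - 1 / 4 + δ)) -
      m / 2 * k₀ * (finrank ℚ K * Real.log (Q.factorial : ℝ)) ≤
      finrank ℚ K * ((m : ℝ) ^ 2 * (Real.log T / 4 - 1 / 8) + K₀ * m * Real.log (m + 1)) := by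
    have h6 := mul_le_mul_of_nonneg_left hsum (show (0 : ℝ) ≤ (m : ℝ) ^ 2 / 2 by positivity)
    have h7 := mul_le_mul_of_nonneg_left h3 (show (0 : ℝ) ≤ (m : ℝ) / 2 * k₀ by positivity)
    linarith
  have h6 : (finrank ℚ K : ℝ) * (m / 2) * (m * δ) ≤
      (finrank ℚ K : ℝ) * (m / 2) * (2 * K₀ * Real.log (m + 1) + k₀ * Real.log (Q.factorial : ℝ)) := by
    have h7 : (finrank ℚ K : ℝ) * (m / 2) * (m * δ) =
        (m : ℝ) ^ 2 / 2 * (finrank ℚ K * (Real.log T / 2 - 1 / 4 + δ)) -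
        finrank ℚ K * ((m : ℝ) ^ 2 * (Real.log T / 4 - 1 / 8)) := by ring
    have h8 : (finrank ℚ K : ℝ) * (m / 2) * (2 * K₀ * Real.log (m + 1) + k₀ * Real.log (Q.factorial : ℝ)) =
        m / 2 * k₀ * (finrank ℚ K * Real.log (Q.factorial : ℝ)) +
        finrank ℚ K * (K₀ * m * Real.log (m + 1)) := by ring
    rw [h7, h8]
    linarith
  have h7 := le_of_mul_le_mul_left h6 (by positivity)
  have h8 := EGY_.bound hδ hK₀ m h7
  exact_mod_cast h8.trans (Nat.le_ceil _)

end Pool.Agent.Lib.MPcb8a44.F4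
end

section
/-!
# Module EMA: `x² + 3 = b² + c²` puts `x` into the exceptional set
-/
set_option autoImplicit false

open NumberField Module Pool.Agent.Lib.MPcb8a44.RD

namespace Pool.Agent.Lib.MPcb8a44.F4

theorem specEMA (hMDA : SpecMDA) : SpecEMA := by
  intro K _ _ hU x b c h
  obtain ⟨⟨s, hs⟩, ⟨t, ht⟩⟩ := hMDA K hU x 0 b c (by linear_combination h)
  refine ⟨b + 1, c + 1, ?_, ?_⟩
  · refine ⟨t + s * (b + 1), ?_⟩
    linear_combination ht + (b + 1) * hs
  · exact ⟨-2 - s, by linear_combination -hs⟩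

end Pool.Agent.Lib.MPcb8a44.F4
end

section
/-!
# EMB: the cases `a = 0` and `a = 1` of MDB
-/
set_option autoImplicit false

open NumberField Module Pool.Agent.Lib.MPcb8a44.RD

namespace Pool.Agent.Lib.MPcb8a44.F4

theorem specEMB (hMDB : SpecMDB) : SpecEMB := by
  intro K _ _ hU f x b c hf
  constructor
  · intro hx
    obtain ⟨⟨t, ht⟩, ⟨s, hs⟩⟩ := hMDB K hU f x 0 b c hf (by linear_combination hx)
    have hc : c = x + f + 2 * t - b := by linear_combination ht
    refine ⟨b + f, c + f, ⟨f * b + 1 + s + f + t * (b + f), ?_⟩, ⟨-(2 * f) - t, ?_⟩⟩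
    · subst hc
      linear_combination hs + 2 * hf
    · subst hc
      ring
  · intro hx
    obtain ⟨⟨t, ht⟩, ⟨s, hs⟩⟩ := hMDB K hU f x 1 b c hf (by linear_combination hx)
    have hc : c = x + f + 2 * t - b - 1 := by linear_combination ht
    refine ⟨f * b + 1, f * c + 1,
      ⟨-((1 + f) * x) + 2 * f + 2 + (f + 1) * (f * b + s) + t * ((f + 1) * b + f), ?_⟩,
      ⟨-(f * x) - 2 * f - 2 - t * (2 * f + 1), ?_⟩⟩
    · subst hc
      linear_combination (f + 1) * hs + (b * (x + f + 2 * t - b - 1) - x + 2) * hf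
    · subst hc
      linear_combination (-(x + f + 2 * t - 1) - 2) * hf
end Pool.Agent.Lib.MPcb8a44.F4
end

section
/-!
# ENG: the energy inequality at one place
-/
set_option autoImplicit false

namespace Pool.Agent.Lib.MPcb8a44.F4

namespace ENGM

/-- the sum in STR -/
noncomputable def AA (m : ℕ) : ℝ :=
  ∑ j ∈ Finset.range m, (j.factorial : ℝ) * (Real.exp 1 / j) ^ j

theorem AA_pos (m : ℕ) (hm : 1 ≤ m) : 0 < AA m := by
  unfold AA
  have h0 : (0 : ℕ) ∈ Finset.range m := Finset.mem_range.2 hm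
  refine Finset.sum_pos' (fun j _ => ?_) ⟨0, h0, by simp⟩
  exact mul_nonneg (Nat.cast_nonneg _)
    (pow_nonneg (div_nonneg (Real.exp_pos 1).le (Nat.cast_nonneg _)) _)

/-- one term -/
theorem term (h : SpecHRB) (j : ℕ) (y : ℝ) :
    (Polynomial.aeval y (Polynomial.hermite j)) ^ 2 / (j.factorial : ℝ) ≤
      (j.factorial : ℝ) * (Real.exp 1 / j) ^ j * Real.exp (y ^ 2 / 2) := by
  have hf : (0 : ℝ) < (j.factorial : ℝ) := by exact_mod_cast Nat.factorial_pos j
  rcases Nat.eq_zero_or_pos j with rfl | hj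
  · have h1 : (1 : ℝ) ≤ Real.exp (y ^ 2 / 2) := Real.one_le_exp (by positivity)
    simpa using h1
  have hj' : (0 : ℝ) < (j : ℝ) := by exact_mod_cast hj
  have h1 := h j y (Real.sqrt j) (Real.sqrt_pos.2 hj')
  rw [Real.sq_sqrt hj'.le] at h1
  have h2 : (Polynomial.aeval y (Polynomial.hermite j)) ^ 2 ≤
      (j.factorial * (Real.sqrt j ^ j)⁻¹ * Real.exp (y ^ 2 / 4 + j / 2)) ^ 2 := by
    rw [← sq_abs]
    exact pow_le_pow_left₀ (abs_nonneg _) h1 2
  have h3 : ((j.factorial : ℝ) * (Real.sqrt j ^ j)⁻¹ * Real.exp (y ^ 2 / 4 + j / 2)) ^ 2 =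
      (j.factorial : ℝ) ^ 2 * ((j : ℝ) ^ j)⁻¹ * (Real.exp 1 ^ j * Real.exp (y ^ 2 / 2)) := by
    have e1 : (Real.sqrt j ^ j) ^ 2 = (j : ℝ) ^ j := by
      rw [← pow_mul, mul_comm j 2, pow_mul, Real.sq_sqrt hj'.le]
    have e2 : Real.exp (y ^ 2 / 4 + j / 2) ^ 2 = Real.exp 1 ^ j * Real.exp (y ^ 2 / 2) := by
      rw [← Real.exp_nat_mul, ← Real.exp_nat_mul, ← Real.exp_add]
      congr 1
      push_cast
      ring
    rw [mul_pow, mul_pow, inv_pow, e1, e2]
  rw [h3] at h2
  rw [div_le_iff₀ hf]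
  refine h2.trans (le_of_eq ?_)
  rw [div_pow]
  field_simp

theorem rowsum (h : SpecHRB) (m : ℕ) (y : ℝ) :
    ∑ j : Fin m, (Polynomial.aeval y (Polynomial.hermite (j : ℕ))) ^ 2 / ((j : ℕ).factorial : ℝ) ≤
      AA m * Real.exp (y ^ 2 / 2) := by
  unfold AA
  rw [Finset.sum_mul, Finset.sum_range]
  exact Finset.sum_le_sum fun j _ => term h j y

theorem rowpos (m : ℕ) (hm : 1 ≤ m) (y : ℝ) :
    0 < ∑ j : Fin m, (Polynomial.aeval y (Polynomial.hermite (j : ℕ))) ^ 2 /
      ((j : ℕ).factorial : ℝ) := by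
  refine Finset.sum_pos' (fun j _ => by positivity) ⟨⟨0, hm⟩, Finset.mem_univ _, ?_⟩
  simp

theorem pairs (m : ℕ) :
    ∑ i : Fin m, ((Finset.Ioi i).card : ℝ) = (m : ℝ) * ((m : ℝ) - 1) / 2 := by
  induction m with
  | zero => simp
  | succ n ih =>
    rw [Fin.sum_univ_succ]
    have h1 : ∀ i : Fin n, ((Finset.Ioi i.succ).card : ℝ) = ((Finset.Ioi i).card : ℝ) := by
      intro i
      rw [Fin.card_Ioi, Fin.card_Ioi, Fin.val_succ]
      congr 1
      omega
    rw [Finset.sum_congr rfl fun i _ => h1 i, ih, Fin.card_Ioi]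
    simp only [Fin.val_zero, add_tsub_cancel_right, tsub_zero]
    push_cast
    ring

end ENGM

open ENGM in
/-- ENG -/
theorem specENG (hHRB : SpecHRB) (hHAD : SpecHAD) (hSTR : SpecSTR) : SpecENG := by
  obtain ⟨K₁, hK, hstr⟩ := hSTR
  refine ⟨K₁ + 1 / 4, by linarith, ?_⟩
  intro m hm T hT w hw
  obtain ⟨hs1, hs2⟩ := hstr m hm
  have hm' : (0 : ℝ) < m := by exact_mod_cast hm
  have hT0 : 0 < T := by linarith
  set l : ℝ := Real.sqrt (m / T) with hl
  have hl0 : 0 < l := Real.sqrt_pos.2 (div_pos hm' hT0)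
  have hl2 : l ^ 2 = m / T := Real.sq_sqrt (div_pos hm' hT0).le
  have hlog : Real.log l = (Real.log m - Real.log T) / 2 := by
    rw [hl, Real.log_sqrt (div_pos hm' hT0).le, Real.log_div hm'.ne' hT0.ne']
  have h1 := hHAD m (fun i => l * w i)
  have hpos : ∀ i : Fin m, ∀ j ∈ Finset.Ioi i, 0 < |l * w j - l * w i| := by
    intro i j hj
    rw [← mul_sub, abs_pos]
    refine mul_ne_zero hl0.ne' (sub_ne_zero.2 fun h => ?_)
    have := hw h
    rw [this] at hj
    simp at hj
  have hL : 0 < ∏ i, ∏ j ∈ Finset.Ioi i, |l * w j - l * w i| :=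
    Finset.prod_pos fun i _ => Finset.prod_pos (hpos i)
  have h2 := Real.log_le_log hL h1
  rw [Real.log_prod fun i _ => (Finset.prod_pos (hpos i)).ne'] at h2
  have h3 : ∑ i : Fin m, Real.log (∏ j ∈ Finset.Ioi i, |l * w j - l * w i|) =
      Real.log l * ((m : ℝ) * ((m : ℝ) - 1) / 2) +
        ∑ i, ∑ j ∈ Finset.Ioi i, Real.log |w j - w i| := by
    rw [← pairs m, Finset.mul_sum, ← Finset.sum_add_distrib]
    refine Finset.sum_congr rfl fun i _ => ?_
    rw [Real.log_prod fun j hj => (hpos i j hj).ne']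
    have : ∀ j ∈ Finset.Ioi i, Real.log |l * w j - l * w i| =
        Real.log l + Real.log |w j - w i| := by
      intro j hj
      have h4 := hpos i j hj
      rw [← mul_sub, abs_mul] at h4 ⊢
      rw [abs_of_pos hl0] at h4 ⊢
      rw [Real.log_mul hl0.ne' (pos_of_mul_pos_right h4 hl0.le).ne']
    rw [Finset.sum_congr rfl this, Finset.sum_add_distrib, Finset.sum_const, nsmul_eq_mul]
    ring
  rw [h3] at h2
  have hr : ∀ i : Fin m, 0 < Real.sqrt (∑ j : Fin m,
      (Polynomial.aeval (l * w i) (Polynomial.hermite (j : ℕ))) ^ 2 / ((j : ℕ).factorial : ℝ)) :=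
    fun i => Real.sqrt_pos.2 (rowpos m hm _)
  have hf : ∀ j : Fin m, 0 < Real.sqrt ((j : ℕ).factorial : ℝ) := fun j =>
    Real.sqrt_pos.2 (by exact_mod_cast Nat.factorial_pos _)
  rw [Real.log_mul (Finset.prod_pos fun i _ => hr i).ne' (Finset.prod_pos fun j _ => hf j).ne',
    Real.log_prod fun i _ => (hr i).ne', Real.log_prod fun j _ => (hf j).ne'] at h2
  have h5 : ∑ j : Fin m, Real.log (Real.sqrt ((j : ℕ).factorial : ℝ)) =
      (∑ j ∈ Finset.range m, Real.log (j.factorial : ℝ)) / 2 := by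
    rw [Finset.sum_range, Finset.sum_div]
    refine Finset.sum_congr rfl fun j _ => ?_
    rw [Real.log_sqrt (by positivity)]
  have h6 : ∑ i : Fin m, Real.log (Real.sqrt (∑ j : Fin m,
      (Polynomial.aeval (l * w i) (Polynomial.hermite (j : ℕ))) ^ 2 / ((j : ℕ).factorial : ℝ))) ≤
      m * Real.log (AA m) / 2 + m / (4 * T) * ∑ i, w i ^ 2 := by
    have h7 : ∀ i : Fin m, Real.log (Real.sqrt (∑ j : Fin m,
        (Polynomial.aeval (l * w i) (Polynomial.hermite (j : ℕ))) ^ 2 /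
          ((j : ℕ).factorial : ℝ))) ≤ Real.log (AA m) / 2 + m / (4 * T) * w i ^ 2 := by
      intro i
      rw [Real.log_sqrt (rowpos m hm _).le]
      have h8 := Real.log_le_log (rowpos m hm (l * w i)) (rowsum hHRB m (l * w i))
      rw [Real.log_mul (AA_pos m hm).ne' (Real.exp_pos _).ne', Real.log_exp, mul_pow, hl2] at h8
      have h9 : m / (4 * T) * w i ^ 2 = m / T * w i ^ 2 / 2 / 2 := by
        field_simp
        ring
      rw [h9]
      linarith
    refine (Finset.sum_le_sum fun i _ => h7 i).trans (le_of_eq ?_)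
    rw [Finset.sum_add_distrib, ← Finset.mul_sum, Finset.sum_const, Finset.card_univ,
      Fintype.card_fin, nsmul_eq_mul]
    ring
  rw [h5, hlog] at h2
  have hT1 : 0 ≤ Real.log T := Real.log_nonneg hT
  have hm1 : Real.log m ≤ Real.log (m + 1) := Real.log_le_log hm' (by linarith)
  have hs3 : Real.log (AA m) ≤ K₁ * Real.log (m + 1) := hs2
  have g1 : (m : ℝ) * Real.log (AA m) ≤ m * (K₁ * Real.log (m + 1)) :=
    mul_le_mul_of_nonneg_left hs3 hm'.le
  have g2 : (m : ℝ) * Real.log m ≤ m * Real.log (m + 1) := mul_le_mul_of_nonneg_left hm1 hm'.le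
  have g3 : 0 ≤ (m : ℝ) * Real.log T := mul_nonneg hm'.le hT1
  have e1 : (Real.log m - Real.log T) / 2 * ((m : ℝ) * ((m : ℝ) - 1) / 2) =
      (m : ℝ) ^ 2 * Real.log m / 4 - (m : ℝ) ^ 2 * Real.log T / 4 - (m : ℝ) * Real.log m / 4 +
        (m : ℝ) * Real.log T / 4 := by
    ring
  rw [e1] at h2
  have e2 : (m : ℝ) ^ 2 * (Real.log T / 4 - 3 / 8) + (K₁ + 1 / 4) * m * Real.log (m + 1) =
      (m : ℝ) ^ 2 * Real.log T / 4 - 3 / 8 * (m : ℝ) ^ 2 + m * (K₁ * Real.log (m + 1)) +
        (m : ℝ) * Real.log (m + 1) / 4 := by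
    ring
  have e3 : (m : ℝ) ^ 2 / 2 * Real.log m = 2 * ((m : ℝ) ^ 2 * Real.log m / 4) := by ring
  have e4 : K₁ * m * Real.log (m + 1) = m * (K₁ * Real.log (m + 1)) := by ring
  rw [e3, e4] at hs1
  rw [add_assoc, e2]
  linarith

end Pool.Agent.Lib.MPcb8a44.F4
end

section
/-!
# EQC: at most half of the classes
-/
set_option autoImplicit false

open NumberField Module Pool.Agent.Lib.MPcb8a44.RD

namespace Pool.Agent.Lib.MPcb8a44.F4

namespace EQCM

/-- the values of `u + u⁻¹` in a finite field of characteristic two -/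
theorem card_img {F : Type*} [Field F] [Fintype F] [DecidableEq F] (h2 : (2 : F) = 0) :
    2 * ((Finset.univ.filter fun u : F => u ≠ 0).image fun u => u + u⁻¹).card ≤ Fintype.card F := by
  set S : Finset F := Finset.univ.filter fun u : F => u ≠ 0 ∧ u ≠ 1 with hS
  set t : Finset F := S.image fun u => u + u⁻¹ with ht
  have h1 : 2 * t.card ≤ S.card := by
    refine Finset.mul_card_image_le_card S 2 fun b hb => ?_
    obtain ⟨u, hu, rfl⟩ := Finset.mem_image.1 hb
    rw [hS, Finset.mem_filter] at hu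
    obtain ⟨-, hu0, hu1⟩ := hu
    have hne : u ≠ u⁻¹ := by
      intro h
      have h3 : u * u = 1 := by
        nth_rw 2 [h]
        exact mul_inv_cancel₀ hu0
      have h4 : (u - 1) * (u - 1) = 0 := by
        have : (u - 1) * (u - 1) = u * u + 1 - 2 * u := by ring
        rw [this, h3, h2, zero_mul, sub_zero]
        rw [← h2]; norm_num
      have h5 : u - 1 = 0 := by
        rcases mul_eq_zero.1 h4 with h | h <;> exact h
      exact hu1 (sub_eq_zero.1 h5)
    have h6 : ({u, u⁻¹} : Finset F) ⊆ S.filter fun a => a + a⁻¹ = u + u⁻¹ := by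
      intro v hv
      rw [Finset.mem_insert, Finset.mem_singleton] at hv
      rw [Finset.mem_filter, hS, Finset.mem_filter]
      rcases hv with rfl | rfl
      · exact ⟨⟨Finset.mem_univ _, hu0, hu1⟩, rfl⟩
      · refine ⟨⟨Finset.mem_univ _, inv_ne_zero hu0, fun h => hu1 (inv_eq_one.1 h)⟩, ?_⟩
        rw [inv_inv, add_comm]
    have h7 := Finset.card_le_card h6
    rwa [Finset.card_pair hne] at h7
  have h3 : S.card + 2 ≤ Fintype.card F := by
    have h4 : S = Finset.univ \ {0, 1} := by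
      ext u
      simp [hS]
    have h5 : ({0, 1} : Finset F).card = 2 := Finset.card_pair zero_ne_one
    have h6 : ({0, 1} : Finset F) ⊆ Finset.univ := Finset.subset_univ _
    have h7 := Finset.card_sdiff_add_card_eq_card h6
    rw [h5, ← h4, Finset.card_univ] at h7
    exact h7.le
  have h4 : ((Finset.univ.filter fun u : F => u ≠ 0).image fun u => u + u⁻¹) ⊆ insert 0 t := by
    intro a ha
    obtain ⟨u, hu, rfl⟩ := Finset.mem_image.1 ha
    rw [Finset.mem_filter] at hu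
    rw [Finset.mem_insert]
    by_cases h5 : u = 1
    · left
      show u + u⁻¹ = 0
      rw [h5, inv_one, ← h2]
      norm_num
    · right
      refine Finset.mem_image.2 ⟨u, ?_, rfl⟩
      rw [hS, Finset.mem_filter]
      exact ⟨Finset.mem_univ _, hu.2, h5⟩
  have h5 := Finset.card_le_card h4
  have h6 := Finset.card_insert_le 0 t
  omega

end EQCM

open EQCM in
theorem specEQC : SpecEQC := by
  intro K _ _ q hq h2 s τ
  classical
  have hq0 : q ≠ ⊥ := by
    rintro rfl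
    rw [Ideal.mem_bot] at h2
    exact two_ne_zero h2
  have : Finite (𝓞 K ⧸ q) := Ideal.finiteQuotientOfFreeOfNeBot q hq0
  let _ : Field (𝓞 K ⧸ q) := Ideal.Quotient.field q
  let _ : Fintype (𝓞 K ⧸ q) := Fintype.ofFinite _
  have h2' : (2 : 𝓞 K ⧸ q) = 0 := by
    have : (2 : 𝓞 K ⧸ q) = Ideal.Quotient.mk q 2 := (map_ofNat _ 2).symm
    rw [this]
    exact Ideal.Quotient.eq_zero_iff_mem.2 h2
  have h3 := card_img h2'
  have h4 : Ideal.absNorm q = Fintype.card (𝓞 K ⧸ q) := by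
    rw [Ideal.absNorm_apply, Submodule.cardQuot_apply, Nat.card_eq_fintype_card]
  have hdvd : ∀ x : 𝓞 K, 2 ∣ x → Ideal.Quotient.mk q x = 0 := by
    rintro x ⟨y, rfl⟩
    rw [Ideal.Quotient.eq_zero_iff_mem]
    exact q.mul_mem_right _ h2
  set A := (Finset.univ.filter fun u : 𝓞 K ⧸ q => u ≠ 0).image fun u => u + u⁻¹ with hA
  have h5 : (Ideal.Quotient.mk q) '' (ES s τ) ⊆
      ((A.image fun a => Ideal.Quotient.mk q s + Ideal.Quotient.mk q τ * a : Finset (𝓞 K ⧸ q)) :
        Set (𝓞 K ⧸ q)) := by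
    rintro _ ⟨x, ⟨B, B', hB, hx⟩, rfl⟩
    have h6 := hdvd _ hB
    have h7 := hdvd _ hx
    rw [map_sub, map_mul, map_one, sub_eq_zero] at h6
    rw [map_sub, map_sub, map_mul, map_add] at h7
    have hB0 : Ideal.Quotient.mk q B ≠ 0 := by
      intro h
      rw [h, zero_mul] at h6
      exact zero_ne_one h6
    have h8 : Ideal.Quotient.mk q B' = (Ideal.Quotient.mk q B)⁻¹ := eq_inv_of_mul_eq_one_right h6
    rw [Finset.mem_coe, Finset.mem_image]
    refine ⟨Ideal.Quotient.mk q B + (Ideal.Quotient.mk q B)⁻¹, ?_, ?_⟩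
    · rw [hA]
      exact Finset.mem_image.2 ⟨_, Finset.mem_filter.2 ⟨Finset.mem_univ _, hB0⟩, rfl⟩
    · rw [← h8]
      rw [sub_sub, sub_eq_zero] at h7
      exact h7.symm
  have h6 := Set.ncard_le_ncard h5 (Finset.finite_toSet _)
  rw [Set.ncard_coe_finset] at h6
  have h7 := Finset.card_image_le (s := A)
    (f := fun a => Ideal.Quotient.mk q s + Ideal.Quotient.mk q τ * a)
  rw [h4]
  omega

end Pool.Agent.Lib.MPcb8a44.F4
end

section
/-!
# EST: the energy bound for the sets `ES s τ`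
-/
set_option autoImplicit false

open NumberField Module Pool.Agent.Lib.MPcb8a44.RD

namespace Pool.Agent.Lib.MPcb8a44.F4

namespace EST_

variable {K : Type} [Field K] [NumberField K]

theorem ne_bot (q : Ideal (𝓞 K)) (hq : q.IsMaximal) : q ≠ ⊥ :=
  Ring.ne_bot_of_isMaximal_of_not_isField hq (RingOfIntegers.not_isField K)

theorem two_le (q : Ideal (𝓞 K)) (hq : q.IsMaximal) : 2 ≤ Ideal.absNorm q := by
  have h0 : Ideal.absNorm q ≠ 0 := by
    rw [Ne, Ideal.absNorm_eq_zero_iff]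
    exact ne_bot q hq
  have h1 : Ideal.absNorm q ≠ 1 := by
    rw [Ne, Ideal.absNorm_eq_one_iff]
    exact hq.ne_top
  omega

theorem finite_quot (q : Ideal (𝓞 K)) (hq : q.IsMaximal) : Finite (𝓞 K ⧸ q) :=
  Ideal.finiteQuotientOfFreeOfNeBot q (ne_bot q hq)

/-- the geometric sum -/
theorem geo {N c w : ℝ} {k₀ : ℕ} (hN : 2 ≤ N) (hc : 0 < c) (hw : 0 ≤ w) (hcN : w * c ≤ N) :
    (1 - (1 / 2) ^ k₀) * (w / (N - 1)) ≤ ∑ k ∈ Finset.range k₀, 1 / (c * N ^ k) := by
  have hN0 : 0 < N := by linarith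
  have hN1 : 0 < N - 1 := by linarith
  have h1 : ∀ k ∈ Finset.range k₀, w / N * (N⁻¹) ^ k ≤ 1 / (c * N ^ k) := by
    intro k _
    have hk : 0 < N ^ k := pow_pos hN0 k
    rw [inv_pow, ← div_eq_mul_inv, div_div, div_le_div_iff₀ (mul_pos hN0 hk) (mul_pos hc hk), one_mul]
    calc w * (c * N ^ k) = (w * c) * N ^ k := by ring
      _ ≤ N * N ^ k := mul_le_mul_of_nonneg_right hcN hk.le
  refine le_trans ?_ (Finset.sum_le_sum h1)
  rw [← Finset.mul_sum]
  have hne : N⁻¹ ≠ 1 := by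
    intro h
    rw [inv_eq_one] at h
    linarith
  rw [geom_sum_eq hne]
  have h2 : w / N * (((N⁻¹) ^ k₀ - 1) / (N⁻¹ - 1)) = (1 - (N⁻¹) ^ k₀) * (w / (N - 1)) := by
    have h3 : N⁻¹ - 1 = -((N - 1) / N) := by
      field_simp
      ring
    rw [h3]
    field_simp
    ring
  rw [h2]
  refine mul_le_mul_of_nonneg_right ?_ (div_nonneg hw hN1.le)
  have h4 : (N⁻¹) ^ k₀ ≤ (1 / 2) ^ k₀ := by
    refine pow_le_pow_left₀ (inv_nonneg.2 hN0.le) ?_ k₀
    rw [inv_eq_one_div]
    exact div_le_div_of_nonneg_left one_pos.le two_pos hN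
  linarith

/-- the choice of the constants -/
theorem consts {θ γ : ℝ} (h : γ < θ) : ∃ (k₀ : ℕ) (δ : ℝ), 0 < δ ∧
    γ + δ ≤ (1 - (1 / 2) ^ k₀) * θ := by
  obtain ⟨k₀, hk⟩ := exists_pow_lt_of_lt_one
    (show (0 : ℝ) < (θ - γ) / 2 / (|θ| + 1) by
      have := abs_nonneg θ
      exact div_pos (by linarith) (by linarith)) (show (1 / 2 : ℝ) < 1 by norm_num)
  refine ⟨k₀, (θ - γ) / 2, by linarith, ?_⟩
  have h1 : (0 : ℝ) < |θ| + 1 := by have := abs_nonneg θ; linarith
  rw [lt_div_iff₀ h1] at hk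
  have h2 : (1 / 2 : ℝ) ^ k₀ * θ ≤ (1 / 2 : ℝ) ^ k₀ * (|θ| + 1) := by
    refine mul_le_mul_of_nonneg_left ?_ (by positivity)
    have := le_abs_self θ
    linarith
  nlinarith

end EST_

open EST_ in
/-- EST. -/
theorem specEST (hEGY : SpecEGY) (hEQC : SpecEQC) : SpecEST := by
  classical
  intro θ T hT hθ Q
  obtain ⟨k₀, δ, hδ, hk⟩ := consts hθ
  obtain ⟨M, hM⟩ := hEGY T δ hT hδ Q k₀
  refine ⟨M, ?_⟩
  intro K _ _ hK hHS s τ
  obtain ⟨S, hS, hsum⟩ := hHS
  have hfin : (ES s τ ∩ BB K T).Finite := (BB_finite hK T).subset Set.inter_subset_right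
  rw [Set.ncard_eq_toFinset_card _ hfin]
  refine hM K hK S (fun q hq => ⟨(hS q hq).1, ne_bot q (hS q hq).1, (hS q hq).2⟩)
    (fun q => if (2 : 𝓞 K) ∈ q then Ideal.absNorm q / 2 else Ideal.absNorm q) ?_ ?_ hfin.toFinset
    ?_ ?_
  · intro q hq
    have h2 := two_le q (hS q hq).1
    show 1 ≤ if (2 : 𝓞 K) ∈ q then Ideal.absNorm q / 2 else Ideal.absNorm q
    split_ifs
    · omega
    · omega
  · have hd : (0 : ℝ) < finrank ℚ K := fpos
    have h1 : (finrank ℚ K : ℝ) * (Real.log T / 2 - 1 / 4 + δ) ≤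
        (1 - (1 / 2) ^ k₀) * (θ * finrank ℚ K) := by
      have := mul_le_mul_of_nonneg_left hk hd.le
      linarith
    have h2 : (0 : ℝ) ≤ 1 - (1 / 2) ^ k₀ := by
      have : (1 / 2 : ℝ) ^ k₀ ≤ 1 := pow_le_one₀ (by norm_num) (by norm_num)
      linarith
    refine h1.trans ((mul_le_mul_of_nonneg_left hsum h2).trans ?_)
    rw [Finset.mul_sum]
    refine Finset.sum_le_sum fun q hq => ?_
    have hN := two_le q (hS q hq).1
    have hN' : (2 : ℝ) ≤ (Ideal.absNorm q : ℝ) := by exact_mod_cast hN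
    have hlog : 0 ≤ Real.log (Ideal.absNorm q) := Real.log_nonneg (by linarith)
    by_cases h2q : (2 : 𝓞 K) ∈ q
    · have hg := geo (N := (Ideal.absNorm q : ℝ)) (c := ((Ideal.absNorm q / 2 : ℕ) : ℝ)) (w := 2)
        (k₀ := k₀) hN' (by
          have : 0 < Ideal.absNorm q / 2 := by omega
          exact_mod_cast this) two_pos.le (by
          have : 2 * (Ideal.absNorm q / 2) ≤ Ideal.absNorm q := by omega
          exact_mod_cast this)
      have := mul_le_mul_of_nonneg_left hg hlog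
      simp only [if_pos h2q]
      refine le_trans (le_of_eq ?_) this
      ring
    · have hg := geo (N := (Ideal.absNorm q : ℝ)) (c := (Ideal.absNorm q : ℝ)) (w := 1)
        (k₀ := k₀) hN' (by linarith) one_pos.le (by linarith)
      have := mul_le_mul_of_nonneg_left hg hlog
      simp only [if_neg h2q]
      refine le_trans (le_of_eq ?_) this
      ring
  · intro x hx
    rw [Set.Finite.mem_toFinset] at hx
    exact hx.2
  · intro q hq
    have := finite_quot q (hS q hq).1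
    rw [Set.Finite.coe_toFinset]
    show ((Ideal.Quotient.mk q) '' (ES s τ ∩ BB K T)).ncard ≤
      if (2 : 𝓞 K) ∈ q then Ideal.absNorm q / 2 else Ideal.absNorm q
    split_ifs with h2q
    · have h1 := hEQC K q (hS q hq).1 h2q s τ
      have h2 : ((Ideal.Quotient.mk q) '' (ES s τ ∩ BB K T)).ncard ≤
          ((Ideal.Quotient.mk q) '' (ES s τ)).ncard :=
        Set.ncard_le_ncard (Set.image_mono Set.inter_subset_left) (Set.toFinite _)
      omega
    · have h2 : ((Ideal.Quotient.mk q) '' (ES s τ ∩ BB K T)).ncard ≤ Nat.card (𝓞 K ⧸ q) := by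
        rw [← Set.ncard_univ]
        exact Set.ncard_le_ncard (Set.subset_univ _) (Set.toFinite _)
      rwa [Ideal.absNorm_apply, Submodule.cardQuot_apply]

end Pool.Agent.Lib.MPcb8a44.F4
end

section
/-!
# FIA: the first auxiliary function
-/
set_option autoImplicit false

namespace Pool.Agent.Lib.MPcb8a44.F4

namespace FIAM

theorem lb (n p : ℕ) (x : ℝ) (hx : 0 < x) (h : (2.7182818286 : ℝ) ^ p ≤ x ^ n) :
    (p : ℝ) ≤ n * Real.log x := by
  rw [← Real.log_pow, Real.le_log_iff_exp_le (by positivity)]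
  calc Real.exp p = (Real.exp 1) ^ p := by rw [← Real.exp_nat_mul, mul_one]
    _ ≤ 2.7182818286 ^ p := pow_le_pow_left₀ (Real.exp_pos 1).le Real.exp_one_lt_d9.le p
    _ ≤ x ^ n := h

theorem ub (n p : ℕ) (x : ℝ) (hx : 0 < x) (h : x ^ n ≤ (2.7182818283 : ℝ) ^ p) :
    n * Real.log x ≤ (p : ℝ) := by
  rw [← Real.log_pow, Real.log_le_iff_le_exp (by positivity)]
  calc x ^ n ≤ 2.7182818283 ^ p := h
    _ ≤ (Real.exp 1) ^ p :=
        pow_le_pow_left₀ (by norm_num) Real.exp_one_gt_d9.le p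
    _ = Real.exp p := by rw [← Real.exp_nat_mul, mul_one]

/-- tangent lines -/
theorem tangent (t c : ℝ) (ht : 0 < t) (hc : 0 < c) :
    Real.log t ≤ Real.log c + (t / c - 1) := by
  have h := Real.log_le_sub_one_of_pos (div_pos ht hc)
  rw [Real.log_div ht.ne' hc.ne'] at h
  linarith

end FIAM

open FIAM in
/-- FIA -/
theorem specFIA : SpecFIA := by
  intro u hu hu1
  rcases lt_or_gt_of_ne hu1 with h | h
  · have h1 : 0 < 1 - u := by linarith
    have h2 : |u - 1| = 1 - u := by rw [abs_sub_comm, abs_of_pos h1]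
    rw [h2]
    have t1 := tangent u (6 / 11) hu (by norm_num)
    have t2 := tangent (1 - u) (5 / 11) h1 (by norm_num)
    have b2 := lb 5 3 (11 / 6) (by norm_num) (by norm_num)
    have b3 := lb 4 3 (11 / 5) (by norm_num) (by norm_num)
    have e1 : Real.log (6 / 11) = -Real.log (11 / 6) := by
      rw [← Real.log_inv]; norm_num
    have e2 : Real.log (5 / 11) = -Real.log (11 / 5) := by
      rw [← Real.log_inv]; norm_num
    rw [e1] at t1
    rw [e2] at t2
    push_cast at b2 b3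
    linarith
  · have h1 : 0 < u - 1 := by linarith
    rw [abs_of_pos h1]
    have t1 := tangent u (5 / 3) hu (by norm_num)
    have t2 := tangent (u - 1) (2 / 3) h1 (by norm_num)
    have b2 := ub 25 13 (5 / 3) (by norm_num) (by norm_num)
    have b3 := lb 5 2 (3 / 2) (by norm_num) (by norm_num)
    have e2 : Real.log (2 / 3) = -Real.log (3 / 2) := by
      rw [← Real.log_inv]; norm_num
    rw [e2] at t2
    push_cast at b2 b3
    linarith

end Pool.Agent.Lib.MPcb8a44.F4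
end

section
/-!
# FIB: the second auxiliary function
-/
set_option autoImplicit false

namespace Pool.Agent.Lib.MPcb8a44.F4

namespace FIBM

theorem ub (n p : ℕ) (a b c d : ℝ) (ha : 0 < a) (hb : 0 < b) (hc : 0 < c) (hd : 0 < d)
    (h : (a ^ 2 * b ^ 3 * c * d) ^ n ≤ (2.7182818283 : ℝ) ^ p) :
    n * (2 * Real.log a + 3 * Real.log b + Real.log c + Real.log d) ≤ (p : ℝ) := by
  have e : 2 * Real.log a + 3 * Real.log b + Real.log c + Real.log d =
      Real.log (a ^ 2 * b ^ 3 * c * d) := by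
    rw [Real.log_mul (by positivity) hd.ne', Real.log_mul (by positivity) hc.ne',
      Real.log_mul (by positivity) (by positivity), Real.log_pow, Real.log_pow]
    push_cast
    ring
  rw [e, ← Real.log_pow, Real.log_le_iff_le_exp (by positivity)]
  calc (a ^ 2 * b ^ 3 * c * d) ^ n ≤ 2.7182818283 ^ p := h
    _ ≤ (Real.exp 1) ^ p :=
        pow_le_pow_left₀ (by norm_num) Real.exp_one_gt_d9.le p
    _ = Real.exp p := by rw [← Real.exp_nat_mul, mul_one]

theorem lb (n p : ℕ) (a b c d : ℝ) (ha : 0 < a) (hb : 0 < b) (hc : 0 < c) (hd : 0 < d)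
    (h : (a ^ 2 * b ^ 3 * c * d) ^ n * (2.7182818286 : ℝ) ^ p ≤ 1) :
    n * (2 * Real.log a + 3 * Real.log b + Real.log c + Real.log d) ≤ -(p : ℝ) := by
  have e : 2 * Real.log a + 3 * Real.log b + Real.log c + Real.log d =
      Real.log (a ^ 2 * b ^ 3 * c * d) := by
    rw [Real.log_mul (by positivity) hd.ne', Real.log_mul (by positivity) hc.ne',
      Real.log_mul (by positivity) (by positivity), Real.log_pow, Real.log_pow]
    push_cast
    ring
  rw [e, ← Real.log_pow, Real.log_le_iff_le_exp (by positivity), Real.exp_neg]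
  have h1 : Real.exp p ≤ 2.7182818286 ^ p := by
    calc Real.exp p = (Real.exp 1) ^ p := by rw [← Real.exp_nat_mul, mul_one]
      _ ≤ 2.7182818286 ^ p := pow_le_pow_left₀ (Real.exp_pos 1).le Real.exp_one_lt_d9.le p
  have h2 : (a ^ 2 * b ^ 3 * c * d) ^ n * Real.exp p ≤ 1 :=
    le_trans (mul_le_mul_of_nonneg_left h1 (by positivity)) h
  rw [← one_div, le_div_iff₀ (Real.exp_pos _)]
  exact h2

/-- tangent lines -/
theorem tangent (t c : ℝ) (ht : 0 < t) (hc : 0 < c) :
    Real.log t ≤ Real.log c + (t / c - 1) := by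
  have h := Real.log_le_sub_one_of_pos (div_pos ht hc)
  rw [Real.log_div ht.ne' hc.ne'] at h
  linarith

/-- the factorization -/
theorem fact (u s : ℝ) (hs : s ^ 2 = 5) (h : u ^ 2 - 3 * u + 1 ≠ 0) :
    Real.log |u ^ 2 - 3 * u + 1| = Real.log |u - (3 - s) / 2| + Real.log |u - (3 + s) / 2| := by
  have e : u ^ 2 - 3 * u + 1 = (u - (3 - s) / 2) * (u - (3 + s) / 2) := by
    linear_combination (1 / 4) * hs
  rw [e] at h ⊢
  obtain ⟨h1, h2⟩ := mul_ne_zero_iff.1 h
  rw [abs_mul, Real.log_mul (abs_ne_zero.2 h1) (abs_ne_zero.2 h2)]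

end FIBM

open FIBM in
/-- FIB -/
theorem specFIB : SpecFIB := by
  intro u hu hu1 hq
  obtain ⟨s, hs0, hs⟩ : ∃ s : ℝ, 0 ≤ s ∧ s ^ 2 = 5 :=
    ⟨Real.sqrt 5, Real.sqrt_nonneg _, Real.sq_sqrt (by norm_num)⟩
  have s1 : 2.236 < s := by nlinarith
  have s2 : s < 2.2361 := by nlinarith
  have hf := fact u s hs hq
  have hn1 : u ≠ (3 - s) / 2 := by
    rintro rfl
    apply hq
    linear_combination (1 / 4) * hs
  have hn2 : u ≠ (3 + s) / 2 := by
    rintro rfl
    apply hq
    linear_combination (1 / 4) * hs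
  rw [hf]
  rcases lt_or_gt_of_ne hu1 with h | h
  · have h1 : 0 < 1 - u := by linarith
    have h2 : 0 < (3 + s) / 2 - u := by linarith
    have e1 : |u - 1| = 1 - u := by rw [abs_sub_comm, abs_of_pos h1]
    have e2 : |u - (3 + s) / 2| = (3 + s) / 2 - u := by rw [abs_sub_comm, abs_of_pos h2]
    rw [e1, e2]
    rcases lt_or_gt_of_ne hn1 with h3 | h3
    · have h4 : 0 < (3 - s) / 2 - u := by linarith
      rw [abs_sub_comm u ((3 - s) / 2), abs_of_pos h4]
      have t1 := tangent u (1 / 6) hu (by norm_num)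
      have t2 := tangent (1 - u) (5 / 6) h1 (by norm_num)
      have t3 := tangent ((3 - s) / 2 - u) (3 / 14) h4 (by norm_num)
      have t4 := tangent ((3 + s) / 2 - u) (5 / 2) h2 (by norm_num)
      have b := lb 5 23 (1 / 6) (5 / 6) (3 / 14) (5 / 2) (by norm_num) (by norm_num) (by norm_num)
        (by norm_num) (by norm_num)
      push_cast at b
      linarith
    · have h4 : 0 < u - (3 - s) / 2 := by linarith
      rw [abs_of_pos h4]
      have t1 := tangent u (1 / 2) hu (by norm_num)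
      have t2 := tangent (1 - u) (1 / 2) h1 (by norm_num)
      have t3 := tangent (u - (3 - s) / 2) (6 / 35) h4 (by norm_num)
      have t4 := tangent ((3 + s) / 2 - u) 2 h2 (by norm_num)
      have b := lb 1 4 (1 / 2) (1 / 2) (6 / 35) 2 (by norm_num) (by norm_num) (by norm_num)
        (by norm_num) (by norm_num)
      push_cast at b
      linarith
  · have h1 : 0 < u - 1 := by linarith
    have h4 : 0 < u - (3 - s) / 2 := by linarith
    rw [abs_of_pos h1, abs_of_pos h4]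
    rcases lt_or_gt_of_ne hn2 with h3 | h3
    · have h2 : 0 < (3 + s) / 2 - u := by linarith
      rw [abs_sub_comm u ((3 + s) / 2), abs_of_pos h2]
      have t1 := tangent u 2 hu (by norm_num)
      have t2 := tangent (u - 1) (15 / 16) h1 (by norm_num)
      have t3 := tangent (u - (3 - s) / 2) (30 / 19) h4 (by norm_num)
      have t4 := tangent ((3 + s) / 2 - u) (2 / 3) h2 (by norm_num)
      have b := ub 10 13 2 (15 / 16) (30 / 19) (2 / 3) (by norm_num) (by norm_num) (by norm_num)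
        (by norm_num) (by norm_num)
      push_cast at b
      linarith
    · have h2 : 0 < u - (3 + s) / 2 := by linarith
      rw [abs_of_pos h2]
      have t1 := tangent u (7 / 2) hu (by norm_num)
      have t2 := tangent (u - 1) (12 / 5) h1 (by norm_num)
      have t3 := tangent (u - (3 - s) / 2) (28 / 9) h4 (by norm_num)
      have t4 := tangent (u - (3 + s) / 2) (21 / 25) h2 (by norm_num)
      have b := ub 4 25 (7 / 2) (12 / 5) (28 / 9) (21 / 25) (by norm_num) (by norm_num)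
        (by norm_num) (by norm_num) (by norm_num)
      push_cast at b
      linarith

end Pool.Agent.Lib.MPcb8a44.F4
end

section
/-!
# Module HAD: Vandermonde determinant with Hermite polynomials, and Hadamard's inequality
-/
set_option autoImplicit false

open NumberField Module Pool.Agent.Lib.MPcb8a44.RD

namespace Pool.Agent.Lib.MPcb8a44.F4

namespace HADM

/-- Hadamard's inequality. -/
theorem hadamard (m : ℕ) (B : Matrix (Fin m) (Fin m) ℝ) :
    |B.det| ≤ ∏ i, Real.sqrt (∑ j, B i j ^ 2) := by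
  have hfin : Fact (finrank ℝ (EuclideanSpace ℝ (Fin m)) = m) := ⟨by simp⟩
  let b := EuclideanSpace.basisFun (Fin m) ℝ
  let o := b.toBasis.orientation
  let v : Fin m → EuclideanSpace ℝ (Fin m) := fun i => WithLp.toLp 2 (B i)
  have h1 := o.abs_volumeForm_apply_le v
  have h2 : o.volumeForm = b.toBasis.det := o.volumeForm_robust b rfl
  rw [h2, Module.Basis.det_apply] at h1
  have h3 : b.toBasis.toMatrix v = B.transpose := by
    ext i j
    simp [b, v, Module.Basis.toMatrix_apply]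
  rw [h3, Matrix.det_transpose] at h1
  refine h1.trans (le_of_eq (Finset.prod_congr rfl fun i _ => ?_))
  rw [EuclideanSpace.norm_eq]
  simp [v]

end HADM

theorem specHAD : SpecHAD := by
  intro m w
  let p : Fin m → Polynomial ℝ := fun j => (Polynomial.hermite (j : ℕ)).map (Int.castRingHom ℝ)
  have hp : ∀ (j : Fin m) (x : ℝ), (p j).eval x = Polynomial.aeval x (Polynomial.hermite (j : ℕ)) := by
    intro j x
    rw [Polynomial.eval_map, Polynomial.aeval_def]
    rfl
  have h1 : ∏ i, ∏ j ∈ Finset.Ioi i, |w j - w i| = |(Matrix.vandermonde w).det| := by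
    rw [Matrix.det_vandermonde, Finset.abs_prod]
    exact Finset.prod_congr rfl fun i _ => (Finset.abs_prod _ _).symm
  have hmon : ∀ j, (p j).Monic := fun j => (Polynomial.hermite_monic (j : ℕ)).map _
  have hdeg : ∀ j, (p j).natDegree = (j : ℕ) := fun j => by
    rw [(Polynomial.hermite_monic (j : ℕ)).natDegree_map, Polynomial.natDegree_hermite]
  have h2 : (Matrix.vandermonde w).det = (Matrix.of fun i j => (p j).eval (w i)).det :=
    Matrix.det_eval_matrixOfPolynomials_eq_det_vandermonde w p hdeg hmon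
  let B : Matrix (Fin m) (Fin m) ℝ := fun i j =>
    (p j).eval (w i) / Real.sqrt ((j : ℕ).factorial : ℝ)
  have h3 : (Matrix.of fun i j => (p j).eval (w i)) =
      Matrix.of fun (i j : Fin m) => Real.sqrt ((j : ℕ).factorial : ℝ) * B i j := by
    ext i j
    simp only [Matrix.of_apply, B]
    have hne : Real.sqrt ((j : ℕ).factorial : ℝ) ≠ 0 :=
      Real.sqrt_ne_zero'.mpr (by exact_mod_cast Nat.factorial_pos _)
    rw [mul_div_cancel₀ _ hne]
  rw [h1, h2, h3, Matrix.det_mul_row, abs_mul, mul_comm]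
  refine mul_le_mul ?_ ?_ (abs_nonneg _) (Finset.prod_nonneg fun i _ => Real.sqrt_nonneg _)
  · refine (HADM.hadamard m B).trans (le_of_eq (Finset.prod_congr rfl fun i _ => ?_))
    congr 1
    refine Finset.sum_congr rfl fun j _ => ?_
    simp only [B]
    rw [div_pow, hp, Real.sq_sqrt (Nat.cast_nonneg _)]
  · rw [abs_of_nonneg (Finset.prod_nonneg fun i _ => Real.sqrt_nonneg _)]

end Pool.Agent.Lib.MPcb8a44.F4
end

section
/-!
# HRB: bound for the Hermite polynomials (MP_cb8a44_nt, F4)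
-/
set_option autoImplicit false

namespace Pool.Agent.Lib.MPcb8a44.F4

namespace HRBM

open Polynomial

/-- the Gaussian -/
noncomputable def g (z : ℂ) : ℂ := Complex.exp (-(z ^ 2 / 2))

theorem hasDerivAt_g (z : ℂ) : HasDerivAt g (-z * g z) z := by
  have h1 : HasDerivAt (fun z : ℂ => -(z ^ 2 / 2)) (-z) z := by
    have h2 := ((hasDerivAt_pow 2 z).div_const 2).fun_neg
    have h3 : -(((2 : ℕ) : ℂ) * z ^ (2 - 1) / 2) = -z := by
      norm_num
    rw [h3] at h2
    exact h2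
  have h3 := h1.cexp
  have h4 : Complex.exp (-(z ^ 2 / 2)) * (-z) = -z * g z := by
    unfold g
    exact mul_comm _ _
  rw [h4] at h3
  exact h3

theorem differentiable_g : Differentiable ℂ g := fun z => (hasDerivAt_g z).differentiableAt

theorem iter (n : ℕ) : iteratedDeriv n g = fun z => (-1) ^ n * aeval z (hermite n) * g z := by
  induction n with
  | zero =>
    funext z
    simp
  | succ n ih =>
    rw [iteratedDeriv_succ, ih]
    funext z
    have h1 : HasDerivAt (fun z : ℂ => aeval z (hermite n)) (aeval z (derivative (hermite n))) z :=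
      Polynomial.hasDerivAt_aeval (hermite n) z
    have h2 : HasDerivAt (fun z : ℂ => (-1) ^ n * aeval z (hermite n) * g z)
        ((-1 : ℂ) ^ n * aeval z (derivative (hermite n)) * g z +
          (-1) ^ n * aeval z (hermite n) * (-z * g z)) z :=
      (h1.const_mul ((-1 : ℂ) ^ n)).mul (hasDerivAt_g z)
    rw [h2.deriv, hermite_succ, map_sub, map_mul, aeval_X]
    ring

theorem norm_g (x r : ℝ) (z : ℂ) (hz : z ∈ Metric.sphere (x : ℂ) r) :
    ‖g z‖ ≤ Real.exp (-(x ^ 2 / 4) + r ^ 2 / 2) := by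
  unfold g
  rw [Complex.norm_exp]
  apply Real.exp_le_exp.2
  rw [mem_sphere_iff_norm] at hz
  have h1 : (z.re - x) ^ 2 + z.im ^ 2 = r ^ 2 := by
    rw [← hz, ← Complex.normSq_eq_norm_sq, Complex.normSq_apply]
    simp
    ring
  have h2 : (-(z ^ 2 / 2)).re = -(z.re ^ 2 - z.im ^ 2) / 2 := by
    have h3 : (z ^ 2).re = z.re ^ 2 - z.im ^ 2 := by
      rw [pow_two, Complex.mul_re]; ring
    rw [Complex.neg_re]
    have h4 : (z ^ 2 / 2).re = (z ^ 2).re / 2 := by
      simp
    rw [h4, h3]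
    ring
  rw [h2]
  nlinarith [sq_nonneg (z.re - x / 2)]

end HRBM

open HRBM Polynomial in
theorem specHRB : SpecHRB := by
  intro n x r hr
  have h1 := Complex.norm_iteratedDeriv_le_of_forall_mem_sphere_norm_le (c := (x : ℂ)) (R := r)
    (C := Real.exp (-(x ^ 2 / 4) + r ^ 2 / 2)) (f := g) n hr
    differentiable_g.diffContOnCl (norm_g x r)
  rw [iter n] at h1
  have h2 : aeval (x : ℂ) (hermite n) = ((aeval x (hermite n) : ℝ) : ℂ) :=
    Polynomial.aeval_algebraMap_apply ℂ x (hermite n)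
  have h3 : ‖g (x : ℂ)‖ = Real.exp (-(x ^ 2 / 2)) := by
    unfold g
    rw [← Complex.ofReal_pow]
    have h4 : (-((x ^ 2 : ℝ) : ℂ) / 2) = ((-(x ^ 2 / 2) : ℝ) : ℂ) := by push_cast; ring
    rw [← neg_div, h4, ← Complex.ofReal_exp, Complex.norm_real, Real.norm_eq_abs,
      abs_of_pos (Real.exp_pos _)]
  simp only [norm_mul, norm_pow, norm_neg, norm_one, one_pow, one_mul] at h1
  rw [h2, h3, Complex.norm_real, Real.norm_eq_abs] at h1
  have h5 : Real.exp (x ^ 2 / 4 + r ^ 2 / 2) =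
      Real.exp (-(x ^ 2 / 4) + r ^ 2 / 2) * Real.exp (x ^ 2 / 2) := by
    rw [← Real.exp_add]
    congr 1
    ring
  have h6 : |aeval x (hermite n)| = |aeval x (hermite n)| * Real.exp (-(x ^ 2 / 2)) *
      Real.exp (x ^ 2 / 2) := by
    rw [mul_assoc, ← Real.exp_add]
    simp
  rw [h6, h5]
  have h7 := mul_le_mul_of_nonneg_right h1 (Real.exp_pos (x ^ 2 / 2)).le
  refine h7.trans (le_of_eq ?_)
  rw [div_eq_mul_inv]
  ring

end Pool.Agent.Lib.MPcb8a44.F4
end

section
/-!
# ITR: iteration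
-/
set_option autoImplicit false

open NumberField Module Pool.Agent.Lib.MPcb8a44.RD

namespace Pool.Agent.Lib.MPcb8a44.F4

namespace ITRM

/-- the bounds -/
def Fs (F M : ℕ) : ℕ → ℕ
  | 0 => F
  | k + 1 => M * Fs F M k ^ 3

end ITRM

open ITRM in
/-- ITR -/
theorem specITR : SpecITR := by
  intro T₀ ε F M hε T
  obtain ⟨k, hk⟩ := exists_nat_ge ((T - T₀) / ε)
  refine ⟨Fs F M k, fun K _ _ hK h0 hstep => ?_⟩
  have key : ∀ n : ℕ, NN K (T₀ + n * ε) ≤ Fs F M n := by
    intro n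
    induction n with
    | zero =>
      rw [Nat.cast_zero, zero_mul, add_zero]
      exact h0
    | succ n ih =>
      have h3 : (0 : ℝ) ≤ n * ε := mul_nonneg n.cast_nonneg hε.le
      have h1 := hstep (T₀ + n * ε) (by linarith)
      have h2 : T₀ + ((n + 1 : ℕ) : ℝ) * ε = T₀ + n * ε + ε := by push_cast; ring
      rw [h2]
      exact h1.trans (Nat.mul_le_mul_left M (Nat.pow_le_pow_left ih 3))
  refine (NN_mono hK ?_).trans (key k)
  rw [div_le_iff₀ hε] at hk
  linarith

end Pool.Agent.Lib.MPcb8a44.F4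
end

section
/-! # LOC (helper57) -/
set_option autoImplicit false

open NumberField Module Pool.Agent.Lib.MPcb8a44.RD

namespace Pool.Agent.Lib.MPcb8a44.F4

namespace LOCM

lemma core {k : Type} [Field k] [Finite k] [CharP k 2] (hc : Nat.card k % 5 = 4) (f a : k)
    (hf : f ^ 2 = f + 1) (h : a ^ 2 + f * a + 1 = 0) : False := by
  have h2 : (2 : k) = 0 := by
    have := CharP.cast_eq_zero k 2
    exact_mod_cast this
  have hf3 : f ^ 3 = 1 := by linear_combination (f + 1) * hf + f * h2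
  have hf4 : f ^ 4 = f := by linear_combination f * hf3
  have ha4 : a ^ 4 = a + f := by
    linear_combination (a ^ 2 - f * a + f) * h + (a ^ 2 - a) * hf - (a + f) * h2
  have hadd : ∀ x y : k, (x + y) ^ 4 = x ^ 4 + y ^ 4 := by
    intro x y
    linear_combination (2 * x ^ 3 * y + 3 * x ^ 2 * y ^ 2 + 2 * x * y ^ 3) * h2
  have haf4 : (a + f) ^ 4 = a := by
    rw [hadd, ha4, hf4]
    linear_combination f * h2
  have hodd : ∀ m : ℕ, a ^ (4 ^ (2 * m + 1)) = a + f := by
    intro m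
    induction m with
    | zero => simpa using ha4
    | succ m ih =>
      have e : 4 ^ (2 * (m + 1) + 1) = 4 ^ (2 * m + 1) * 4 * 4 := by ring
      rw [e, pow_mul, pow_mul, ih, haf4, ha4]
  have := Fintype.ofFinite k
  obtain ⟨n, hp, hn⟩ := FiniteField.card k 2
  rw [Nat.card_eq_fintype_card, hn] at hc
  have hmod : (n : ℕ) % 4 = 2 := by
    obtain ⟨t, r, hr, ht⟩ : ∃ t r : ℕ, r < 4 ∧ (n : ℕ) = 4 * t + r :=
      ⟨(n : ℕ) / 4, (n : ℕ) % 4, Nat.mod_lt _ (by norm_num), (Nat.div_add_mod _ _).symm⟩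
    rw [ht, pow_add, pow_mul, Nat.mul_mod, Nat.pow_mod] at hc
    have e : (2 ^ 4 % 5) ^ t % 5 = 1 := by norm_num
    rw [e] at hc
    rw [ht]
    interval_cases r <;> simp at hc ⊢
  have hcard : Fintype.card k = 4 ^ (2 * ((n : ℕ) / 4) + 1) := by
    rw [hn]
    have e : (n : ℕ) = 2 * (2 * ((n : ℕ) / 4) + 1) := by omega
    conv_lhs => rw [e, pow_mul]
    norm_num
  have h5 := FiniteField.pow_card a
  rw [hcard, hodd] at h5
  have hf0 : f = 0 := by linear_combination h5
  rw [hf0] at hf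
  norm_num at hf

end LOCM

theorem specLOC : SpecLOC := by
  intro K _ _ q hq h2 hN f a hf ha
  have hN0 : Ideal.absNorm q ≠ 0 := by
    intro h0
    rw [h0] at hN
    norm_num at hN
  let _ : Field (𝓞 K ⧸ q) := Ideal.Quotient.field q
  have hcard : Nat.card (𝓞 K ⧸ q) = Ideal.absNorm q := rfl
  have : Finite (𝓞 K ⧸ q) := Nat.finite_of_card_ne_zero (by rw [hcard]; exact hN0)
  have hm2 : Ideal.Quotient.mk q 2 = 0 := Ideal.Quotient.eq_zero_iff_mem.2 h2
  have : CharP (𝓞 K ⧸ q) 2 := by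
    apply CharTwo.of_one_ne_zero_of_two_eq_zero
    · exact one_ne_zero
    · exact hm2
  refine LOCM.core (k := 𝓞 K ⧸ q) (by rw [hcard]; exact hN) (Ideal.Quotient.mk q f)
    (Ideal.Quotient.mk q a) ?_ ?_
  · rw [← map_pow, hf, map_add, map_one]
  · rw [← map_pow, ← map_mul, ← map_add, ← map_one (Ideal.Quotient.mk q), ← map_add]
    exact Ideal.Quotient.eq_zero_iff_mem.2 ha

end Pool.Agent.Lib.MPcb8a44.F4
end

section
/-!
# Module MDA: the congruences modulo `2` of `x² + 3 = a² + b² + c²`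
-/
set_option autoImplicit false

open NumberField Module Pool.Agent.Lib.MPcb8a44.RD

namespace Pool.Agent.Lib.MPcb8a44.F4

theorem specMDA : SpecMDA := by
  intro K _ _ hU x a b c h
  have h1 : (2 : 𝓞 K) ∣ a + b + c - x - 1 := by
    refine hU _ ⟨x ^ 2 + x + 2 + (a * b + a * c + b * c) - (a + b + c) * (x + 1), ?_⟩
    linear_combination -h
  refine ⟨h1, ?_⟩
  obtain ⟨t, ht⟩ := h1
  have h2 : (2 : 𝓞 K) ≠ 0 := two_ne_zero
  refine ⟨x + ((x + 1 - a - b) * t + t ^ 2), ?_⟩
  apply mul_left_cancel₀ h2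
  have hc : c = x + 1 - a - b + 2 * t := by linear_combination ht
  rw [hc] at h
  linear_combination h

end Pool.Agent.Lib.MPcb8a44.F4
end

section
/-!
# MDB: congruences modulo `2`, the equation `x² + 3 + φ = a² + b² + c²`
-/
set_option autoImplicit false

open NumberField Module Pool.Agent.Lib.MPcb8a44.RD

namespace Pool.Agent.Lib.MPcb8a44.F4

theorem specMDB : SpecMDB := by
  intro K _ _ hU f x a b c hf hx
  have h1 : (2 : 𝓞 K) ∣ a + b + c - x - f := by
    refine hU _ ⟨x ^ 2 + 2 + f + x * f + (a * b + a * c + b * c) - (a + b + c) * (x + f), ?_⟩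
    linear_combination hf - hx
  refine ⟨h1, ?_⟩
  obtain ⟨t, ht⟩ := h1
  refine ⟨(a + b) * x + t * (a + b) - t * (x + f) - t ^ 2 - a ^ 2 - b ^ 2 - a * b, ?_⟩
  have h2 : (2 : 𝓞 K) ≠ 0 := two_ne_zero
  apply mul_left_cancel₀ h2
  have hc : c = x + f + 2 * t - a - b := by linear_combination ht
  subst hc
  first | linear_combination hx - hf | linear_combination hf - hx | linear_combination -hf - hx

end Pool.Agent.Lib.MPcb8a44.F4
end

section
/-!
# MNK: many integers of bounded mean square if the root discriminant is bounded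
-/
set_option autoImplicit false

open NumberField Module NumberField.InfinitePlace NumberField.mixedEmbedding MeasureTheory
open Pool.Agent.Lib.MPcb8a44.RD
open scoped NNReal ENNReal Pointwise

namespace Pool.Agent.Lib.MPcb8a44.F4

namespace MNKM

/-- Blichfeldt's theorem: some translate of the lattice has many points in a set of large volume. -/
theorem blich {E L : Type} [MeasurableSpace E] {μ : Measure E} {s S : Set E} [AddGroup L]
    [Countable L] [AddAction L E] [MeasurableSpace L] [MeasurableVAdd L E]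
    [VAddInvariantMeasure L E μ] (fund : IsAddFundamentalDomain L s μ) (hS : MeasurableSet S)
    (F : ℕ) (hF : ∀ (x : E) (A : Finset L), (∀ g ∈ A, x ∈ g +ᵥ S) → A.card ≤ F) :
    μ S ≤ F * μ s := by
  classical
  have hm : ∀ g : L, MeasurableSet (g +ᵥ S) := fun g => hS.const_vadd g
  rw [fund.measure_eq_tsum S]
  have h1 : ∀ g : L, μ ((g +ᵥ S) ∩ s) = ∫⁻ x in s, (g +ᵥ S).indicator 1 x ∂μ := by
    intro g
    rw [lintegral_indicator_one (hm g), Measure.restrict_apply (hm g)]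
  simp_rw [h1]
  rw [← lintegral_tsum (fun g => (measurable_one.indicator (hm g)).aemeasurable)]
  refine (lintegral_mono (g := fun _ => (F : ℝ≥0∞)) fun x => ?_).trans_eq ?_
  · simp only
    rw [ENNReal.tsum_eq_iSup_sum]
    refine iSup_le fun A => ?_
    have h2 : ∑ g ∈ A, (g +ᵥ S).indicator (1 : E → ℝ≥0∞) x =
        ((A.filter fun g => x ∈ g +ᵥ S).card : ℝ≥0∞) := by
      rw [Finset.card_filter]
      push_cast
      refine Finset.sum_congr rfl fun g _ => ?_
      simp [Set.indicator_apply]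
    rw [h2]
    exact_mod_cast hF x _ fun g hg => (Finset.mem_filter.1 hg).2
  · rw [lintegral_const, Measure.restrict_apply_univ]

variable {K : Type} [Field K] [NumberField K]

theorem ms_le {z : 𝓞 K} {R : ℝ} (h : ∀ w : InfinitePlace K, w (z : K) < R) :
    ms z ≤ R ^ 2 := by
  unfold ms
  rw [div_le_iff₀ fpos]
  have h1 : ∀ φ : K →+* ℂ, (φ (z : K)).re ^ 2 ≤ R ^ 2 := by
    intro φ
    have h2 : ‖φ (z : K)‖ < R := by
      have := h (InfinitePlace.mk φ)
      rwa [InfinitePlace.apply] at this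
    have h3 : |(φ (z : K)).re| ≤ R := (Complex.abs_re_le_norm _).trans h2.le
    rw [← sq_abs]
    exact pow_le_pow_left₀ (abs_nonneg _) h3 2
  refine (Finset.sum_le_sum fun φ _ => h1 φ).trans ?_
  rw [Finset.sum_const, Finset.card_univ, Embeddings.card K ℂ, nsmul_eq_mul, mul_comm]

theorem count (hK : TR K) (r : ℝ≥0) (F : ℕ) (hF : NN K ((2 * (r : ℝ)) ^ 2) ≤ F) :
    (r : ℝ) ^ finrank ℚ K ≤ F * Real.sqrt |(discr K : ℝ)| := by
  classical
  have : Countable (Submodule.span ℤ (Set.range (latticeBasis K))).toAddSubgroup := by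
    change Countable (Submodule.span ℤ (Set.range (latticeBasis K)))
    infer_instance
  have hS : MeasurableSet (convexBodyLT K fun _ => r) :=
    (MeasurableSet.univ_pi fun _ => measurableSet_ball).prod
      (MeasurableSet.univ_pi fun _ => measurableSet_ball)
  have hb := blich (ZSpan.isAddFundamentalDomain' (latticeBasis K) volume) hS F (by
    intro x A hA
    rcases A.eq_empty_or_nonempty with rfl | ⟨g₀, hg₀⟩
    · simp
    have hz : ∀ g : (Submodule.span ℤ (Set.range (latticeBasis K))).toAddSubgroup,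
        ∃ z : 𝓞 K, mixedEmbedding K (z : K) = (g : mixedSpace K) := by
      intro g
      have h1 : (g : mixedSpace K) ∈ Submodule.span ℤ (Set.range (latticeBasis K)) := g.2
      rw [mem_span_latticeBasis] at h1
      obtain ⟨z, hz⟩ := h1
      exact ⟨z, hz⟩
    choose z hz using hz
    have hinj : Set.InjOn (fun g => z g - z g₀) (A : Set _) := by
      intro g _ g' _ h
      have h1 : z g = z g' := by simpa using h
      apply Subtype.ext
      rw [← hz g, ← hz g', h1]
    have hmaps : ∀ g ∈ A, z g - z g₀ ∈ BB K ((2 * (r : ℝ)) ^ 2) := by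
      intro g hg
      apply ms_le
      have h1 : mixedEmbedding K ((z g - z g₀ : 𝓞 K) : K) ∈
          convexBodyLT K (fun _ => 2 * r) := by
        obtain ⟨v, hv, hv2⟩ := hA g hg
        obtain ⟨v₀, hv₀, hv₀2⟩ := hA g₀ hg₀
        have e : mixedEmbedding K ((z g - z g₀ : 𝓞 K) : K) = v₀ - v := by
          have e0 : ((z g - z g₀ : 𝓞 K) : K) = (z g : K) - (z g₀ : K) := rfl
          rw [e0, map_sub, hz, hz]
          have e1 : (g : mixedSpace K) + v = x := hv2
          have e2 : (g₀ : mixedSpace K) + v₀ = x := hv₀2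
          rw [sub_eq_sub_iff_add_eq_add, e1, add_comm v₀, e2]
        rw [e]
        refine ⟨fun w hw => ?_, fun w hw => ?_⟩
        · have h2 := hv.1 w hw
          have h3 := hv₀.1 w hw
          rw [mem_ball_zero_iff] at h2 h3 ⊢
          rw [Prod.fst_sub, Pi.sub_apply]
          refine (norm_sub_le _ _).trans_lt ?_
          push_cast
          linarith
        · have h2 := hv.2 w hw
          have h3 := hv₀.2 w hw
          rw [mem_ball_zero_iff] at h2 h3 ⊢
          rw [Prod.snd_sub, Pi.sub_apply]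
          refine (norm_sub_le _ _).trans_lt ?_
          push_cast
          linarith
      rw [convexBodyLT_mem] at h1
      intro w
      have := h1 w
      push_cast at this
      exact this
    refine le_trans ?_ hF
    have h1 : (A : Set _).ncard ≤ (BB K ((2 * (r : ℝ)) ^ 2)).ncard :=
      Set.ncard_le_ncard_of_injOn (fun g => z g - z g₀) hmaps hinj (BB_finite hK _)
    rwa [Set.ncard_coe_finset] at h1)
  rw [volume_fundamentalDomain_latticeBasis, convexBodyLT_volume] at hb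
  have h1 : ((r ^ finrank ℚ K : ℝ≥0) : ℝ≥0∞) ≤ (F * NNReal.sqrt ‖discr K‖₊ : ℝ≥0) := by
    have h2 : ((r ^ finrank ℚ K : ℝ≥0) : ℝ≥0∞) ≤
        (convexBodyLTFactor K : ℝ≥0∞) * ((∏ w : InfinitePlace K, r ^ mult w : ℝ≥0) : ℝ≥0∞) := by
      rw [Finset.prod_pow_eq_pow_sum, InfinitePlace.sum_mult_eq]
      calc ((r ^ finrank ℚ K : ℝ≥0) : ℝ≥0∞) = 1 * ((r ^ finrank ℚ K : ℝ≥0) : ℝ≥0∞) := by
            rw [one_mul]
        _ ≤ _ := mul_le_mul' (by exact_mod_cast one_le_convexBodyLTFactor K) le_rfl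
    refine h2.trans (hb.trans ?_)
    rw [ENNReal.coe_mul, ENNReal.coe_natCast]
    refine mul_le_mul' le_rfl ?_
    refine (mul_le_mul' (pow_le_one₀ (by positivity) (by simp)) le_rfl).trans (one_mul _).le
  have h3 : (r ^ finrank ℚ K : ℝ≥0) ≤ (F * NNReal.sqrt ‖discr K‖₊ : ℝ≥0) := by
    exact_mod_cast h1
  have h4 : ((r ^ finrank ℚ K : ℝ≥0) : ℝ) ≤ ((F * NNReal.sqrt ‖discr K‖₊ : ℝ≥0) : ℝ) := h3
  push_cast at h4
  have h5 : Real.sqrt ‖discr K‖ = Real.sqrt |(discr K : ℝ)| := by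
    rw [Int.norm_eq_abs]
  rw [h5] at h4
  exact h4

end MNKM

open MNKM in
/-- MNK -/
theorem specMNK : SpecMNK := by
  intro C
  refine ⟨16 * ((C : ℝ) + 1), fun F => ⟨F, fun K _ _ hK hdisc hd => ?_⟩⟩
  by_contra hcon
  rw [not_lt] at hcon
  set c : ℝ := (C : ℝ) + 1 with hc
  have hc0 : 0 < c := by positivity
  set r : ℝ≥0 := ⟨2 * Real.sqrt c, by positivity⟩ with hr
  have hr' : (r : ℝ) = 2 * Real.sqrt c := rfl
  have h1 := count hK r F (by
    have : (2 * (r : ℝ)) ^ 2 = 16 * c := by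
      rw [hr', mul_pow, mul_pow, Real.sq_sqrt hc0.le]
      ring
    rw [this]
    exact hcon)
  set δ := Real.sqrt |(discr K : ℝ)| with hδ
  have hδ0 : 0 < δ := by
    rw [hδ]
    apply Real.sqrt_pos.2
    exact abs_pos.2 (by exact_mod_cast discr_ne_zero K)
  have h2 : δ ≤ Real.sqrt c ^ finrank ℚ K := by
    rw [hδ]
    have h3 : |(discr K : ℝ)| ≤ c ^ finrank ℚ K := by
      have h4 : ((|discr K| : ℤ) : ℝ) ≤ ((C : ℤ) ^ finrank ℚ K : ℤ) := by exact_mod_cast hdisc
      push_cast at h4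
      refine h4.trans (pow_le_pow_left₀ (by positivity) (by rw [hc]; linarith) _)
    refine Real.sqrt_le_iff.2 ⟨by positivity, ?_⟩
    rw [← pow_mul, mul_comm, pow_mul, Real.sq_sqrt hc0.le]
    exact h3
  rw [hr', mul_pow] at h1
  have h3 : (2 : ℝ) ^ finrank ℚ K * δ ≤ F * δ :=
    (mul_le_mul_of_nonneg_left h2 (by positivity)).trans h1
  have h4 := le_of_mul_le_mul_right h3 hδ0
  have h5 : 2 ^ finrank ℚ K ≤ F := by exact_mod_cast h4
  have h6 : finrank ℚ K < 2 ^ finrank ℚ K := Nat.lt_two_pow_self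
  omega

end Pool.Agent.Lib.MPcb8a44.F4
end

section
/-!
# N3S: `3` is not a sum of two squares of integers (`2` unramified, `√5 ∉ K`)
-/
set_option autoImplicit false

open NumberField Module Pool.Agent.Lib.MPcb8a44.RD

namespace Pool.Agent.Lib.MPcb8a44.F4

namespace N3SM

variable {K : Type} [Field K] [NumberField K]

lemma not_two_dvd_one (hK : TR K) : ¬ (2 : 𝓞 K) ∣ 1 := by
  rintro ⟨y, hy⟩
  have hy0 : y ≠ 0 := by
    rintro rfl
    simp at hy
  have h1 := one_le_ms hK hy0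
  have h2 := ms_two_mul y
  rw [← hy, ms_one] at h2
  linarith

lemma half (hSIB : SpecSIB) (hK : TR K) (hU : U2 K) (h5 : ∀ y : K, y ^ 2 ≠ 5) (a b : 𝓞 K)
    (h : a ^ 2 + b ^ 2 = 3) : 31 / 20 ≤ ms a := by
  have h1 : (2 : 𝓞 K) ∣ a + b + 1 := by
    refine hU _ ⟨2 + a * b + a + b, ?_⟩
    linear_combination h
  obtain ⟨t, ht⟩ := h1
  have h2 : a ^ 2 + a - 1 = 2 * (t * (1 + a) - t ^ 2) := by
    have hb : b = 2 * t - 1 - a := by linear_combination ht
    have h4 : (2 : 𝓞 K) * (a ^ 2 + a - 1 - 2 * (t * (1 + a) - t ^ 2)) = 0 := by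
      rw [hb] at h
      linear_combination h
    have h5' := (mul_eq_zero.1 h4).resolve_left two_ne_zero
    exact sub_eq_zero.1 h5'
  have hn := not_two_dvd_one hK
  have h55 : ∀ z : 𝓞 K, z ^ 2 ≠ 5 := by
    intro z hz
    apply h5 (algebraMap (𝓞 K) K z)
    rw [← map_pow, hz, map_ofNat]
  refine hSIB K hK a ?_ ?_ ?_ ?_ ?_
  · rintro rfl
    refine hn ⟨-(t * (1 + 0) - t ^ 2), ?_⟩
    linear_combination -h2
  · rintro rfl
    refine hn ⟨t * (1 + 1) - t ^ 2, ?_⟩
    linear_combination h2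
  · rintro rfl
    refine hn ⟨-(t * (1 + -1) - t ^ 2), ?_⟩
    linear_combination -h2
  · intro h3
    apply h55 (2 * a - 1)
    linear_combination 4 * h3
  · intro h3
    apply h55 (2 * a + 1)
    linear_combination 4 * h3

end N3SM

theorem specN3S (hSIB : SpecSIB) : SpecN3S := by
  intro K _ _ hK hU h5 a b h
  have h1 := N3SM.half hSIB hK hU h5 a b h
  have h2 := N3SM.half hSIB hK hU h5 b a (by rw [add_comm]; exact h)
  rw [ms_eq_av hK] at h1 h2
  have h3 : av (a ^ 2 + b ^ 2) = 3 := by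
    rw [h]
    exact av_ofNat 3
  rw [av_add] at h3
  linarith

end Pool.Agent.Lib.MPcb8a44.F4
end

section
/-!
# NRM: the energy inequality, summed over the embeddings (helper62)
-/
set_option autoImplicit false

open NumberField Module Pool.Agent.Lib.MPcb8a44.RD

namespace Pool.Agent.Lib.MPcb8a44.F4

theorem specNRM (hENG : SpecENG) : SpecNRM := by
  obtain ⟨K₀, hK₀, hE⟩ := hENG
  refine ⟨K₀, hK₀, ?_⟩
  intro K _ _ hTR m hm T hT x hx hms
  have hd : (0 : ℝ) < finrank ℚ K := fpos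
  have hcard : (Fintype.card (K →+* ℂ) : ℝ) = finrank ℚ K := by
    rw [Embeddings.card K ℂ]
  have hT0 : (0 : ℝ) < T := lt_of_lt_of_le one_pos hT
  -- the left side as a sum over the embeddings
  have hL : ∑ i, ∑ j ∈ Finset.Ioi i, lN (x j - x i) =
      ∑ φ : K →+* ℂ, ∑ i, ∑ j ∈ Finset.Ioi i,
        Real.log |(φ (x j : K)).re - (φ (x i : K)).re| := by
    rw [Finset.sum_comm]
    refine Finset.sum_congr rfl fun i _ => ?_
    rw [Finset.sum_comm]
    refine Finset.sum_congr rfl fun j hj => ?_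
    have hne : x j - x i ≠ 0 := by
      rw [sub_ne_zero]
      intro h
      have h1 := hx h
      rw [Finset.mem_Ioi] at hj
      exact hj.ne h1.symm
    rw [lN_eq hTR hne]
    refine Finset.sum_congr rfl fun φ _ => ?_
    congr 2
    simp
  rw [hL]
  have h1 : ∀ φ : K →+* ℂ, ∑ i, ∑ j ∈ Finset.Ioi i,
      Real.log |(φ (x j : K)).re - (φ (x i : K)).re| ≤
      m / (4 * T) * ∑ i, (φ (x i : K)).re ^ 2 + ((m : ℝ) ^ 2 * (Real.log T / 4 - 3 / 8) +
        K₀ * m * Real.log (m + 1)) := by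
    intro φ
    have h2 := hE m hm T hT (fun i => (φ (x i : K)).re) (fun i j h => hx (re_inj hTR φ h))
    linarith
  refine (Finset.sum_le_sum fun φ _ => h1 φ).trans ?_
  rw [Finset.sum_add_distrib, Finset.sum_const, Finset.card_univ, nsmul_eq_mul, hcard,
    ← Finset.mul_sum, Finset.sum_comm]
  have h3 : ∑ i, ∑ φ : K →+* ℂ, (φ (x i : K)).re ^ 2 ≤ m * (T * finrank ℚ K) := by
    have h4 : ∀ i ∈ (Finset.univ : Finset (Fin m)), ∑ φ : K →+* ℂ, (φ (x i : K)).re ^ 2 ≤
        T * finrank ℚ K := by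
      intro i _
      have h5 := hms i
      unfold ms at h5
      rwa [div_le_iff₀ hd] at h5
    have h6 := Finset.sum_le_card_nsmul _ _ _ h4
    rwa [Finset.card_univ, Fintype.card_fin, nsmul_eq_mul] at h6
  have h7 : (m : ℝ) / (4 * T) * ∑ i, ∑ φ : K →+* ℂ, (φ (x i : K)).re ^ 2 ≤
      m / (4 * T) * (m * (T * finrank ℚ K)) :=
    mul_le_mul_of_nonneg_left h3 (by positivity)
  have h8 : (m : ℝ) / (4 * T) * (m * (T * finrank ℚ K)) = finrank ℚ K * ((m : ℝ) ^ 2 / 4) := by
    field_simp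
  rw [h8] at h7
  refine (add_le_add_left h7 _).trans (le_of_eq ?_)
  ring

end Pool.Agent.Lib.MPcb8a44.F4
end

section
/-!
# PAR: a class modulo `2` contains few small elements
-/
set_option autoImplicit false

open NumberField Module Pool.Agent.Lib.MPcb8a44.RD

namespace Pool.Agent.Lib.MPcb8a44.F4

/-- PAR -/
theorem specPAR : SpecPAR := by
  intro K _ _ hK T α
  rcases Set.eq_empty_or_nonempty ({x : 𝓞 K | 2 ∣ x - α} ∩ BB K T) with h | ⟨u₀, h0, h1⟩
  · rw [h, Set.ncard_empty]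
    exact Nat.zero_le _
  · have hfin := BB_finite hK (T / 2)
    have hsub : {x : 𝓞 K | 2 ∣ x - α} ∩ BB K T ⊆
        (fun y : 𝓞 K => 2 * y - u₀) '' BB K (T / 2) ∪
          (fun y : 𝓞 K => 2 * y + u₀) '' BB K (T / 2) := by
      rintro u ⟨hu, hu1⟩
      obtain ⟨s, hs⟩ : (2 : 𝓞 K) ∣ u - α := hu
      obtain ⟨t, ht⟩ : (2 : 𝓞 K) ∣ u₀ - α := h0
      have hz : 2 * (s - t) = u - u₀ := by linear_combination ht - hs
      have hy : 2 * (s - t + u₀) = u + u₀ := by linear_combination hz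
      have h2 := ms_par u u₀
      rw [← hy, ← hz, ms_two_mul, ms_two_mul] at h2
      have h3 : ms u ≤ T := hu1
      have h4 : ms u₀ ≤ T := h1
      by_cases h5 : ms (s - t) ≤ T / 2
      · right
        exact ⟨s - t, h5, by simp only; rw [hz]; ring⟩
      · left
        rw [not_le] at h5
        refine ⟨s - t + u₀, ?_, by simp only; rw [hy]; ring⟩
        change ms (s - t + u₀) ≤ T / 2
        linarith
    calc ({x : 𝓞 K | 2 ∣ x - α} ∩ BB K T).ncard
        ≤ ((fun y : 𝓞 K => 2 * y - u₀) '' BB K (T / 2) ∪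
          (fun y : 𝓞 K => 2 * y + u₀) '' BB K (T / 2)).ncard :=
          Set.ncard_le_ncard hsub ((hfin.image _).union (hfin.image _))
      _ ≤ ((fun y : 𝓞 K => 2 * y - u₀) '' BB K (T / 2)).ncard +
          ((fun y : 𝓞 K => 2 * y + u₀) '' BB K (T / 2)).ncard := Set.ncard_union_le _ _
      _ ≤ NN K (T / 2) + NN K (T / 2) :=
          Nat.add_le_add (Set.ncard_image_le hfin) (Set.ncard_image_le hfin)
      _ = 2 * NN K (T / 2) := by ring

end Pool.Agent.Lib.MPcb8a44.F4
end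

section
/-!
# PGH: pigeonhole for pairs (helper62)
-/
set_option autoImplicit false

open NumberField Module Pool.Agent.Lib.MPcb8a44.RD

namespace Pool.Agent.Lib.MPcb8a44.F4

open Classical in
theorem specPGH : SpecPGH := by
  intro ι m k f hk hcard
  set g : Fin m → Fin m → ℝ := fun i j => if f j = f i then 1 else 0 with hg
  set X : ℝ := ∑ i, ∑ j ∈ Finset.Ioi i, g i j with hX
  have hX' : ∑ i, (((Finset.Ioi i).filter fun j => f j = f i).card : ℝ) = X := by
    rw [hX]
    refine Finset.sum_congr rfl fun i _ => ?_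
    rw [hg, Finset.sum_boole]
  have hgoal : ∑ i, (((Finset.Ioi i).filter fun j => f j = f i).card : ℝ) =
      ∑ i, (((Finset.Ioi i).filter fun j => f j = f i).card : ℝ) := rfl
  -- the sum over all pairs
  have h1 : ∑ i, ∑ j, g i j = m + 2 * X := by
    have h2 : ∀ i : Fin m, ∑ j, g i j =
        ∑ j ∈ Finset.Iio i, g i j + (1 + ∑ j ∈ Finset.Ioi i, g i j) := by
      intro i
      have h3 : (Finset.univ : Finset (Fin m)) = Finset.Iio i ∪ insert i (Finset.Ioi i) := by
        ext j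
        simp only [Finset.mem_univ, Finset.mem_union, Finset.mem_Iio, Finset.mem_insert,
          Finset.mem_Ioi, true_iff]
        rcases lt_trichotomy j i with h | h | h
        · exact Or.inl h
        · exact Or.inr (Or.inl h)
        · exact Or.inr (Or.inr h)
      have h4 : Disjoint (Finset.Iio i) (insert i (Finset.Ioi i)) := by
        rw [Finset.disjoint_left]
        intro j hj hj'
        rw [Finset.mem_Iio] at hj
        rw [Finset.mem_insert, Finset.mem_Ioi] at hj'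
        rcases hj' with h | h
        · exact hj.ne h
        · exact lt_asymm hj h
      rw [h3, Finset.sum_union h4, Finset.sum_insert (by simp)]
      congr 2
      rw [hg]
      simp
    have h5 : ∑ i, ∑ j ∈ Finset.Iio i, g i j = X := by
      rw [hX, Finset.sum_comm' (s := Finset.univ) (t := fun i => Finset.Iio i)
        (t' := Finset.univ) (s' := fun j => Finset.Ioi j) (by
          intro i j
          simp)]
      refine Finset.sum_congr rfl fun i _ => Finset.sum_congr rfl fun j _ => ?_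
      rw [hg]
      simp only [eq_comm]
    rw [Finset.sum_congr rfl fun i _ => h2 i, Finset.sum_add_distrib, h5,
      Finset.sum_add_distrib]
    simp only [Finset.sum_const, Finset.card_univ, Fintype.card_fin, nsmul_eq_mul, mul_one]
    rw [← hX]
    ring
  set s : Finset ι := Finset.univ.image f with hs
  have hsk : (s.card : ℝ) ≤ k := by
    have h2 : s.card = (Set.range f).ncard := by
      rw [← Set.ncard_coe_finset, hs, Finset.coe_image, Finset.coe_univ, Set.image_univ]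
    rw [h2]
    exact_mod_cast hcard
  set n : ι → ℝ := fun a => ∑ i, if f i = a then (1 : ℝ) else 0 with hn
  have hsum : ∑ a ∈ s, n a = m := by
    rw [hn, Finset.sum_comm]
    have h2 : ∀ i : Fin m, ∑ a ∈ s, (if f i = a then (1 : ℝ) else 0) = 1 := by
      intro i
      rw [Finset.sum_ite_eq, if_pos (Finset.mem_image_of_mem f (Finset.mem_univ i))]
    rw [Finset.sum_congr rfl fun i _ => h2 i]
    simp
  have hsq : ∑ a ∈ s, n a ^ 2 = ∑ i, ∑ j, g i j := by
    have h2 : ∀ a, n a ^ 2 = ∑ i, ∑ j, (if f i = a then (1 : ℝ) else 0) *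
        (if f j = a then (1 : ℝ) else 0) := by
      intro a
      rw [pow_two, hn, Finset.sum_mul_sum]
    rw [Finset.sum_congr rfl fun a _ => h2 a, Finset.sum_comm]
    refine Finset.sum_congr rfl fun i _ => ?_
    rw [Finset.sum_comm]
    refine Finset.sum_congr rfl fun j _ => ?_
    have h3 : ∀ a ∈ s, (if f i = a then (1 : ℝ) else 0) * (if f j = a then (1 : ℝ) else 0) =
        if f i = a then (if f j = f i then (1 : ℝ) else 0) else 0 := by
      intro a _
      by_cases h : f i = a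
      · subst h
        simp
      · simp [h]
    rw [Finset.sum_congr rfl h3, Finset.sum_ite_eq,
      if_pos (Finset.mem_image_of_mem f (Finset.mem_univ i))]
  have hCS : (∑ a ∈ s, n a) ^ 2 ≤ s.card * ∑ a ∈ s, n a ^ 2 := sq_sum_le_card_mul_sum_sq
  rw [hsum, hsq, h1] at hCS
  have hk0 : (0 : ℝ) < k := by exact_mod_cast hk
  have hX0 : 0 ≤ X := by
    rw [hX]
    refine Finset.sum_nonneg fun i _ => Finset.sum_nonneg fun j _ => ?_
    rw [hg]
    simp only
    split_ifs <;> norm_num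
  have h9 : (m : ℝ) ^ 2 ≤ k * (m + 2 * X) :=
    hCS.trans (mul_le_mul_of_nonneg_right hsk (by positivity))
  have h10 : (m : ℝ) ^ 2 / (2 * k) - m / 2 ≤ X := by
    have h11 : (m : ℝ) ^ 2 / (2 * k) ≤ (m + 2 * X) / 2 := by
      rw [div_le_div_iff₀ (by positivity) (by norm_num)]
      nlinarith
    linarith
  rw [← hX'] at h10
  exact h10

end Pool.Agent.Lib.MPcb8a44.F4
end

section
/-!
# SGA: the step in the case of fields without a square root of five
-/
set_option autoImplicit false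

open NumberField Module Pool.Agent.Lib.MPcb8a44.RD

namespace Pool.Agent.Lib.MPcb8a44.F4

namespace SGAM

variable {K : Type} [Field K] [NumberField K]

/-- two of the three squares are large -/
lemma large (hEMA : SpecEMA) (hK : TR K) (hU : U2 K) {T : ℝ} (hT : 11 / 5 ≤ T) {x a b c : 𝓞 K}
    (hx : ms x ≤ T + 1 / 2000) (hs : ms a + ms b + ms c = ms x + 3)
    (he : x ^ 2 + 3 = a ^ 2 + b ^ 2 + c ^ 2) (hb : T < ms b) (hc : T < ms c) :
    x ∈ ES (1 : 𝓞 K) 1 ∩ BB K (3001 / 1000) := by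
  have ha0 := ms_nonneg a
  have hxB : x ∈ BB K (3001 / 1000) := by
    show ms x ≤ 3001 / 1000
    linarith
  have h0 : a = 0 := by
    by_contra h
    have h1 := one_le_ms hK h
    linarith
  refine ⟨hEMA K hU x b c ?_, hxB⟩
  rw [he, h0]
  ring

end SGAM

open SGAM

/-- SGA -/
theorem specSGA (hEMA : SpecEMA) (hCNA : SpecCNA) : SpecSGA := by
  intro K _ _ hK hU hP h5 M hM T hT
  set S1 : Set (𝓞 K) := {x : 𝓞 K | ∃ a b c : 𝓞 K, ms a ≤ T ∧ ms b ≤ T ∧
    x ^ 2 + 3 = a ^ 2 + b ^ 2 + c ^ 2} ∩ BB K (T + 1 / 2000) with hS1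
  have hc1 : S1.ncard ≤ 2 * NN K T ^ 3 :=
    hCNA K hK hU h5 T (T + 1 / 2000) (by linarith) (by linarith)
  have hsub : BB K (T + 1 / 2000) ⊆ S1 ∪ (ES (1 : 𝓞 K) 1 ∩ BB K (3001 / 1000)) := by
    intro x hx
    have hx' : ms x ≤ T + 1 / 2000 := hx
    obtain ⟨g, hg⟩ := hP (x ^ 2 + 3) ⟨4, ![x, 1, 1, 1], by
      simp only [Fin.sum_univ_four, Matrix.cons_val_zero, Matrix.cons_val_one, Matrix.cons_val]
      ring⟩
    rw [Fin.sum_univ_three] at hg
    have hs : ms (g 0) + ms (g 1) + ms (g 2) = ms x + 3 := by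
      rw [ms_eq_av hK, ms_eq_av hK, ms_eq_av hK, ms_eq_av hK x, ← av_add, ← av_add, ← hg, av_add,
        av_ofNat]
    by_cases h0 : ms (g 0) ≤ T <;> by_cases h1 : ms (g 1) ≤ T <;> by_cases h2 : ms (g 2) ≤ T
    · exact Or.inl ⟨⟨g 0, g 1, g 2, h0, h1, hg⟩, hx⟩
    · exact Or.inl ⟨⟨g 0, g 1, g 2, h0, h1, hg⟩, hx⟩
    · exact Or.inl ⟨⟨g 0, g 2, g 1, h0, h2, by rw [hg]; ring⟩, hx⟩
    · exact Or.inr (large hEMA hK hU hT hx' hs hg (not_le.1 h1) (not_le.1 h2))
    · exact Or.inl ⟨⟨g 1, g 2, g 0, h1, h2, by rw [hg]; ring⟩, hx⟩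
    · exact Or.inr (large hEMA hK hU hT hx' (a := g 1) (b := g 0) (c := g 2)
        (by linarith) (by rw [hg]; ring) (not_le.1 h0) (not_le.1 h2))
    · exact Or.inr (large hEMA hK hU hT hx' (a := g 2) (b := g 0) (c := g 1)
        (by linarith) (by rw [hg]; ring) (not_le.1 h0) (not_le.1 h1))
    · exact Or.inr (large hEMA hK hU hT hx' hs hg (not_le.1 h1) (not_le.1 h2))
  have hfin : (S1 ∪ (ES (1 : 𝓞 K) 1 ∩ BB K (3001 / 1000))).Finite :=
    ((BB_finite hK _).subset Set.inter_subset_right).union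
      ((BB_finite hK _).subset Set.inter_subset_right)
  have h1 := Set.ncard_le_ncard hsub hfin
  have h2 := Set.ncard_union_le S1 (ES (1 : 𝓞 K) 1 ∩ BB K (3001 / 1000))
  have h6 : 1 ≤ NN K T ^ 3 := Nat.one_le_pow _ _ (one_le_NN hK (by linarith))
  have h7 : NN K (T + 1 / 2000) = (BB K (T + 1 / 2000)).ncard := rfl
  rw [h7]
  calc (BB K (T + 1 / 2000)).ncard ≤ 2 * NN K T ^ 3 + M * 1 := by omega
    _ ≤ 2 * NN K T ^ 3 + M * NN K T ^ 3 := by gcongr
    _ = (2 + M) * NN K T ^ 3 := by ring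

end Pool.Agent.Lib.MPcb8a44.F4
end

section
/-!
# SGB: the step in the case of fields containing the square root of five
-/
set_option autoImplicit false

open NumberField Module Pool.Agent.Lib.MPcb8a44.RD

namespace Pool.Agent.Lib.MPcb8a44.F4

namespace SGBM

variable {K : Type} [Field K] [NumberField K]

/-- two of the three squares are large -/
lemma large (hSIA : SpecSIA) (hEMB : SpecEMB) (hK : TR K) (hU : U2 K) {f : 𝓞 K}
    (hf : f ^ 2 = f + 1) {T : ℝ} (hT : 23 / 10 ≤ T) {x a b c : 𝓞 K} (hx : ms x ≤ T + 1 / 2000)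
    (hs : ms a + ms b + ms c = ms x + 7 / 2) (he : x ^ 2 + 3 + f = a ^ 2 + b ^ 2 + c ^ 2)
    (hb : T < ms b) (hc : T < ms c) :
    x ∈ (ES f 1 ∩ BB K (3501 / 1000)) ∪ (ES (f + 1) (f + 1) ∩ BB K (3501 / 1000)) := by
  have ha0 := ms_nonneg a
  have hxB : x ∈ BB K (3501 / 1000) := by
    show ms x ≤ 3501 / 1000
    linarith
  have ha : ms a < 13 / 10 := by linarith
  have h := hEMB K hU f x b c hf
  by_cases h0 : a = 0
  · left
    refine ⟨h.1 ?_, hxB⟩
    rw [he, h0]
    ring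
  by_cases h1 : a = 1
  · right
    refine ⟨h.2 ?_, hxB⟩
    rw [he, h1]
  by_cases h2 : a = -1
  · right
    refine ⟨h.2 ?_, hxB⟩
    rw [he, h2]
    ring
  · exact absurd (hSIA K hK a h0 h1 h2) (not_le.2 ha)

end SGBM

open SGBM

/-- SGB -/
theorem specSGB (hTRP : SpecTRP) (hSIA : SpecSIA) (hEMB : SpecEMB) (hCNB : SpecCNB) : SpecSGB := by
  intro K _ _ hK hU hP f hf hq M hM T hT
  set S1 : Set (𝓞 K) := {x : 𝓞 K | ∃ a b c : 𝓞 K, ms a ≤ T ∧ ms b ≤ T ∧
    x ^ 2 + 3 + f = a ^ 2 + b ^ 2 + c ^ 2} ∩ BB K (T + 1 / 2000) with hS1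
  have hc1 : S1.ncard ≤ 2 * NN K T ^ 3 :=
    hCNB K hK hU f hf hq T (T + 1 / 2000) (by linarith) (by linarith)
  have hsub : BB K (T + 1 / 2000) ⊆
      S1 ∪ ((ES f 1 ∩ BB K (3501 / 1000)) ∪ (ES (f + 1) (f + 1) ∩ BB K (3501 / 1000))) := by
    intro x hx
    have hx' : ms x ≤ T + 1 / 2000 := hx
    obtain ⟨g, hg⟩ := hP (x ^ 2 + 3 + f) ⟨4, ![x, 1, 1, f], by
      simp only [Fin.sum_univ_four, Matrix.cons_val_zero, Matrix.cons_val_one, Matrix.cons_val]
      rw [hf]
      ring⟩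
    rw [Fin.sum_univ_three] at hg
    have hs : ms (g 0) + ms (g 1) + ms (g 2) = ms x + 7 / 2 := by
      rw [ms_eq_av hK, ms_eq_av hK, ms_eq_av hK, ms_eq_av hK x, ← av_add, ← av_add, ← hg, av_add,
        av_add, hTRP K hK f hf, av_ofNat]
      norm_num
      ring
    by_cases h0 : ms (g 0) ≤ T <;> by_cases h1 : ms (g 1) ≤ T <;> by_cases h2 : ms (g 2) ≤ T
    · exact Or.inl ⟨⟨g 0, g 1, g 2, h0, h1, hg⟩, hx⟩
    · exact Or.inl ⟨⟨g 0, g 1, g 2, h0, h1, hg⟩, hx⟩
    · exact Or.inl ⟨⟨g 0, g 2, g 1, h0, h2, by rw [hg]; ring⟩, hx⟩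
    · exact Or.inr (large hSIA hEMB hK hU hf hT hx' hs hg (not_le.1 h1) (not_le.1 h2))
    · exact Or.inl ⟨⟨g 1, g 2, g 0, h1, h2, by rw [hg]; ring⟩, hx⟩
    · exact Or.inr (large hSIA hEMB hK hU hf hT hx' (a := g 1) (b := g 0) (c := g 2)
        (by linarith) (by rw [hg]; ring) (not_le.1 h0) (not_le.1 h2))
    · exact Or.inr (large hSIA hEMB hK hU hf hT hx' (a := g 2) (b := g 0) (c := g 1)
        (by linarith) (by rw [hg]; ring) (not_le.1 h0) (not_le.1 h1))
    · exact Or.inr (large hSIA hEMB hK hU hf hT hx' hs hg (not_le.1 h1) (not_le.1 h2))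
  have hfin : (S1 ∪ ((ES f 1 ∩ BB K (3501 / 1000)) ∪
      (ES (f + 1) (f + 1) ∩ BB K (3501 / 1000)))).Finite :=
    ((BB_finite hK _).subset Set.inter_subset_right).union
      (((BB_finite hK _).subset Set.inter_subset_right).union
        ((BB_finite hK _).subset Set.inter_subset_right))
  have h1 := Set.ncard_le_ncard hsub hfin
  have h2 := Set.ncard_union_le S1 ((ES f 1 ∩ BB K (3501 / 1000)) ∪
      (ES (f + 1) (f + 1) ∩ BB K (3501 / 1000)))
  have h3 := Set.ncard_union_le (ES f 1 ∩ BB K (3501 / 1000))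
      (ES (f + 1) (f + 1) ∩ BB K (3501 / 1000))
  have h4 := hM f 1
  have h5 := hM (f + 1) (f + 1)
  have h6 : 1 ≤ NN K T ^ 3 := Nat.one_le_pow _ _ (one_le_NN hK (by linarith))
  have h7 : NN K (T + 1 / 2000) = (BB K (T + 1 / 2000)).ncard := rfl
  rw [h7]
  calc (BB K (T + 1 / 2000)).ncard ≤ 2 * NN K T ^ 3 + 2 * M * 1 := by omega
    _ ≤ 2 * NN K T ^ 3 + 2 * M * NN K T ^ 3 := by gcongr
    _ = (2 + 2 * M) * NN K T ^ 3 := by ring

end Pool.Agent.Lib.MPcb8a44.F4
end

section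
/-!
# SIA: integers different from `0, 1, -1` have mean square at least `13/10`
-/
set_option autoImplicit false

open NumberField Module Pool.Agent.Lib.MPcb8a44.RD

namespace Pool.Agent.Lib.MPcb8a44.F4

theorem specSIA (hFIA : SpecFIA) : SpecSIA := by
  intro K _ _ hK a h0 h1 h2
  have hsq : ∀ φ : K →+* ℂ, (φ ((a ^ 2 : 𝓞 K) : K)).re = (φ (a : K)).re ^ 2 := by
    intro φ
    have h := hK φ (a : K)
    simp only [map_pow, pow_two, map_mul, Complex.mul_re, h, mul_zero, sub_zero]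
  have hne : a ^ 2 ≠ 0 := pow_ne_zero 2 h0
  have hne1 : a ^ 2 - 1 ≠ 0 := by
    intro h
    have : (a - 1) * (a + 1) = 0 := by linear_combination h
    rcases mul_eq_zero.1 this with h3 | h3
    · exact h1 (sub_eq_zero.1 h3)
    · exact h2 (eq_neg_of_add_eq_zero_left h3)
  have hsq1 : ∀ φ : K →+* ℂ, (φ ((a ^ 2 - 1 : 𝓞 K) : K)).re = (φ (a : K)).re ^ 2 - 1 := by
    intro φ
    rw [← hsq φ]
    simp
  have hu : ∀ φ : K →+* ℂ, 13 / 10 ≤ (φ (a : K)).re ^ 2 -
      9 / 10 * Real.log |(φ ((a ^ 2 : 𝓞 K) : K)).re| -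
      3 / 10 * Real.log |(φ ((a ^ 2 - 1 : 𝓞 K) : K)).re| := by
    intro φ
    have h3 := re_ne_zero hK φ h0
    have h4 : 0 < (φ (a : K)).re ^ 2 := by positivity
    have h5 : (φ (a : K)).re ^ 2 ≠ 1 := by
      intro h
      have h6 := re_ne_zero hK φ hne1
      rw [hsq1, h, sub_self] at h6
      exact h6 rfl
    have h7 := hFIA _ h4 h5
    rw [hsq, hsq1, abs_of_pos h4]
    exact h7
  have hsum := Finset.sum_le_sum fun φ (_ : φ ∈ (Finset.univ : Finset (K →+* ℂ))) => hu φ
  rw [Finset.sum_sub_distrib, Finset.sum_sub_distrib, ← Finset.mul_sum, ← Finset.mul_sum,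
    ← lN_eq hK hne, ← lN_eq hK hne1] at hsum
  simp only [Finset.sum_const, Finset.card_univ, nsmul_eq_mul] at hsum
  rw [Embeddings.card K ℂ] at hsum
  have h8 := lN_nonneg hne
  have h9 := lN_nonneg hne1
  unfold ms
  rw [le_div_iff₀ fpos]
  linarith

end Pool.Agent.Lib.MPcb8a44.F4
end

section
/-!
# Module SIB: a second gap of the mean squares
-/
set_option autoImplicit false

open NumberField Module Pool.Agent.Lib.MPcb8a44.RD

namespace Pool.Agent.Lib.MPcb8a44.F4

/-- Module SIB. -/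
theorem specSIB (hFIB : SpecFIB) : SpecSIB := by
  intro K _ _ hK a h0 h1 h1' h2 h3
  have hA : a ^ 2 ≠ 0 := pow_ne_zero 2 h0
  have hB : a ^ 2 - 1 ≠ 0 := by
    rw [show a ^ 2 - 1 = (a - 1) * (a + 1) by ring]
    exact mul_ne_zero (sub_ne_zero.2 h1) fun h => h1' (eq_neg_of_add_eq_zero_left h)
  have hC : a ^ 4 - 3 * a ^ 2 + 1 ≠ 0 := by
    rw [show a ^ 4 - 3 * a ^ 2 + 1 = (a ^ 2 - a - 1) * (a ^ 2 + a - 1) by ring]
    exact mul_ne_zero h2 h3
  have key : ∀ φ : K →+* ℂ, 31 / 20 ≤ (φ (a : K)).re ^ 2 -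
      3 / 5 * (1 / 1 * Real.log |(φ ((a ^ 2 : 𝓞 K) : K)).re|) -
      9 / 10 * Real.log |(φ ((a ^ 2 - 1 : 𝓞 K) : K)).re| -
      3 / 10 * Real.log |(φ ((a ^ 4 - 3 * a ^ 2 + 1 : 𝓞 K) : K)).re| := by
    intro φ
    have ht : φ (a : K) = (((φ (a : K)).re : ℝ) : ℂ) := by
      apply Complex.ext
      · simp
      · simpa using hK φ (a : K)
    have nA := re_ne_zero hK φ hA
    have nB := re_ne_zero hK φ hB
    have nC := re_ne_zero hK φ hC
    have eA : (φ ((a ^ 2 : 𝓞 K) : K)).re = (φ (a : K)).re ^ 2 := by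
      have : φ ((a ^ 2 : 𝓞 K) : K) = (((φ (a : K)).re ^ 2 : ℝ) : ℂ) := by
        push_cast
        rw [map_pow, ← ht]
      rw [this, Complex.ofReal_re]
    have eB : (φ ((a ^ 2 - 1 : 𝓞 K) : K)).re = (φ (a : K)).re ^ 2 - 1 := by
      have : φ ((a ^ 2 - 1 : 𝓞 K) : K) = (((φ (a : K)).re ^ 2 - 1 : ℝ) : ℂ) := by
        push_cast
        rw [map_sub, map_pow, ← ht, map_one]
      rw [this, Complex.ofReal_re]
    have eC : (φ ((a ^ 4 - 3 * a ^ 2 + 1 : 𝓞 K) : K)).re =
        ((φ (a : K)).re ^ 2) ^ 2 - 3 * (φ (a : K)).re ^ 2 + 1 := by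
      have : φ ((a ^ 4 - 3 * a ^ 2 + 1 : 𝓞 K) : K) =
          ((((φ (a : K)).re ^ 2) ^ 2 - 3 * (φ (a : K)).re ^ 2 + 1 : ℝ) : ℂ) := by
        have e3 : φ ((3 : 𝓞 K) : K) = 3 := by
          rw [show ((3 : 𝓞 K) : K) = 3 from rfl, map_ofNat]
        push_cast
        rw [map_add, map_sub, map_mul, map_pow, map_pow, ← ht, map_one, e3]
        ring
      rw [this, Complex.ofReal_re]
    rw [eA] at nA
    rw [eB] at nB
    rw [eC] at nC
    have hpos : 0 < (φ (a : K)).re ^ 2 := lt_of_le_of_ne (sq_nonneg _) nA.symm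
    have h := hFIB ((φ (a : K)).re ^ 2) hpos (fun h => nB (by rw [h, sub_self])) nC
    rw [eA, eB, eC, abs_of_pos hpos]
    linarith
  have hsum := Finset.sum_le_sum fun φ (_ : φ ∈ Finset.univ) => key φ
  simp only [one_div, inv_one, one_mul] at hsum
  rw [Finset.sum_sub_distrib, Finset.sum_sub_distrib, Finset.sum_sub_distrib, ← Finset.mul_sum,
    ← Finset.mul_sum, ← Finset.mul_sum, ← lN_eq hK hA, ← lN_eq hK hB, ← lN_eq hK hC,
    Finset.sum_const, Finset.card_univ, nsmul_eq_mul, Embeddings.card K ℂ] at hsum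
  unfold ms
  rw [le_div_iff₀ fpos]
  linarith [lN_nonneg hA, lN_nonneg hB, lN_nonneg hC]

end Pool.Agent.Lib.MPcb8a44.F4
end

section
/-!
# SLG: the sum of `log N(q)` over the primes of norm at most `Q`
-/
set_option autoImplicit false

open NumberField Module Pool.Agent.Lib.MPcb8a44.RD

namespace Pool.Agent.Lib.MPcb8a44.F4

theorem specSLG : SpecSLG := by
  intro K _ _ Q S hS
  have hpos : ∀ q ∈ S, Ideal.absNorm q ≠ 0 := by
    intro q hq
    rw [Ne, Ideal.absNorm_eq_zero_iff]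
    exact (hS q hq).2.1
  have hdvd : ∀ q ∈ S, q ∣ Ideal.span {((Q.factorial : ℕ) : 𝓞 K)} := by
    intro q hq
    rw [Ideal.dvd_iff_le, Ideal.span_singleton_le_iff_mem]
    have h1 : Ideal.absNorm q ∣ Q.factorial :=
      Nat.dvd_factorial (Nat.pos_of_ne_zero (hpos q hq)) (hS q hq).2.2
    obtain ⟨k, hk⟩ := h1
    rw [hk, Nat.cast_mul]
    exact q.mul_mem_right _ (Ideal.absNorm_mem q)
  have hprod : ∏ q ∈ S, q ∣ Ideal.span {((Q.factorial : ℕ) : 𝓞 K)} := by
    refine Finset.prod_dvd_of_coprime ?_ hdvd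
    intro p hp q hq hpq
    change IsCoprime p q
    rw [Ideal.isCoprime_iff_sup_eq]
    exact (hS p hp).1.coprime_of_ne (hS q hq).1 hpq
  have h2 : ∏ q ∈ S, Ideal.absNorm q ∣ Q.factorial ^ finrank ℚ K := by
    have h3 := map_dvd Ideal.absNorm hprod
    rw [map_prod, Ideal.absNorm_span_singleton] at h3
    have h4 : Algebra.norm ℤ ((Q.factorial : ℕ) : 𝓞 K) = ((Q.factorial : ℕ) : ℤ) ^ finrank ℚ K := by
      have h5 := Algebra.norm_algebraMap (S := 𝓞 K) ((Q.factorial : ℕ) : ℤ)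
      rw [RingOfIntegers.rank] at h5
      rw [← h5]
      simp
    rw [h4, Int.natAbs_pow, Int.natAbs_natCast] at h3
    exact h3
  have h3 : ∏ q ∈ S, Ideal.absNorm q ≤ Q.factorial ^ finrank ℚ K :=
    Nat.le_of_dvd (pow_pos (Nat.factorial_pos Q) _) h2
  have h4 : (∏ q ∈ S, (Ideal.absNorm q : ℝ)) ≤ (Q.factorial : ℝ) ^ finrank ℚ K := by
    exact_mod_cast h3
  have h5 : 0 < ∏ q ∈ S, (Ideal.absNorm q : ℝ) := by
    refine Finset.prod_pos fun q hq => ?_
    exact_mod_cast Nat.pos_of_ne_zero (hpos q hq)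
  have h6 := Real.log_le_log h5 h4
  rw [Real.log_pow, Real.log_prod (fun q hq => by exact_mod_cast hpos q hq)] at h6
  exact h6

end Pool.Agent.Lib.MPcb8a44.F4
end

section
/-!
# STR: Stirling
-/
set_option autoImplicit false

open NumberField Module Pool.Agent.Lib.MPcb8a44.RD

namespace Pool.Agent.Lib.MPcb8a44.F4

namespace STRM

/-- `log (j + 1) - log j ≥ 1 / (j + 1)` -/
theorem log_step (j : ℝ) (hj : 0 < j) : 1 ≤ (j + 1) * (Real.log (j + 1) - Real.log j) := by
  have h1 := Real.log_le_sub_one_of_pos (div_pos hj (by linarith : (0 : ℝ) < j + 1))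
  rw [Real.log_div hj.ne' (by linarith)] at h1
  have h2 : j / (j + 1) - 1 = - (1 / (j + 1)) := by field_simp; ring
  rw [h2] at h1
  have h3 : (0 : ℝ) < j + 1 := by linarith
  have h4 : 1 / (j + 1) ≤ Real.log (j + 1) - Real.log j := by linarith
  calc (1 : ℝ) = (j + 1) * (1 / (j + 1)) := by field_simp
    _ ≤ _ := mul_le_mul_of_nonneg_left h4 h3.le

theorem log_fact (j : ℕ) (hj : 1 ≤ j) :
    Real.log (j.factorial : ℝ) ≤ j * Real.log j - j + 1 + Real.log j := by
  induction j, hj using Nat.le_induction with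
  | base => simp
  | succ j hj ih =>
    have hj' : (0 : ℝ) < j := by exact_mod_cast hj
    have h1 := log_step j hj'
    rw [Nat.factorial_succ]
    push_cast
    rw [Real.log_mul (by positivity) (by positivity)]
    nlinarith

theorem fact_le (j : ℕ) (hj : 1 ≤ j) :
    (j.factorial : ℝ) * (Real.exp 1 / j) ^ j ≤ Real.exp 1 * j := by
  have hj' : (0 : ℝ) < j := by exact_mod_cast hj
  have h0 : (0 : ℝ) < (j.factorial : ℝ) := by positivity
  have h1 := log_fact j hj
  have h2 : (0 : ℝ) < (j.factorial : ℝ) * (Real.exp 1 / j) ^ j := by positivity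
  rw [← Real.log_le_log_iff h2 (by positivity), Real.log_mul h0.ne' (by positivity), Real.log_pow,
    Real.log_div (Real.exp_pos _).ne' hj'.ne', Real.log_mul (Real.exp_pos _).ne' hj'.ne', Real.log_exp]
  linarith

theorem part1 (m : ℕ) (hm : 1 ≤ m) :
    ∑ j ∈ Finset.range m, Real.log (j.factorial : ℝ) ≤
    (m : ℝ) ^ 2 / 2 * Real.log m - 3 / 4 * (m : ℝ) ^ 2 + 4 * m * Real.log (m + 1) := by
  have hl2 : (0.6931471803 : ℝ) < Real.log 2 := Real.log_two_gt_d9
  induction m, hm using Nat.le_induction with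
  | base =>
    norm_num
    linarith
  | succ m hm ih =>
    have hm' : (1 : ℝ) ≤ m := by exact_mod_cast hm
    have h1 := log_step m (by linarith)
    have h2 := log_fact m hm
    rw [Finset.sum_range_succ]
    push_cast
    have e1 : (m : ℝ) + 1 + 1 = m + 2 := by ring
    rw [e1]
    have h3 : Real.log (m + 1) ≤ Real.log (m + 2) := Real.log_le_log (by linarith) (by linarith)
    have h4 : Real.log m ≤ Real.log (m + 1) := Real.log_le_log (by linarith) (by linarith)
    have h5 : Real.log 2 ≤ Real.log (m + 1) := Real.log_le_log (by norm_num) (by linarith)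
    have h6 : (m : ℝ) * Real.log (m + 1) ≤ m * Real.log (m + 2) :=
      mul_le_mul_of_nonneg_left h3 (by linarith)
    set L0 := Real.log (m : ℝ)
    set L1 := Real.log ((m : ℝ) + 1)
    set L2 := Real.log ((m : ℝ) + 2)
    have h7 : ((m : ℝ) + 1) / 2 ≤ ((m : ℝ) + 1) ^ 2 / 2 * (L1 - L0) := by
      have : ((m : ℝ) + 1) ^ 2 / 2 * (L1 - L0) = ((m : ℝ) + 1) / 2 * (((m : ℝ) + 1) * (L1 - L0)) := by
        ring
      rw [this]
      have h8 : (0 : ℝ) ≤ ((m : ℝ) + 1) / 2 := by linarith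
      nlinarith
    nlinarith

end STRM

open STRM in
theorem specSTR : SpecSTR := by
  refine ⟨4, by norm_num, fun m hm => ⟨part1 m hm, ?_⟩⟩
  have hm' : (1 : ℝ) ≤ m := by exact_mod_cast hm
  have h1 : ∀ j ∈ Finset.range m, (j.factorial : ℝ) * (Real.exp 1 / j) ^ j ≤
      (if j = 0 then 1 else 0) + Real.exp 1 * m := by
    intro j hj
    rcases Nat.eq_zero_or_pos j with rfl | hj0
    · have : (0 : ℝ) ≤ Real.exp 1 * m := by positivity
      simp only [Nat.factorial_zero, Nat.cast_one, pow_zero, mul_one, if_true]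
      linarith
    · rw [if_neg hj0.ne', zero_add]
      refine (fact_le j hj0).trans ?_
      refine mul_le_mul_of_nonneg_left ?_ (Real.exp_pos _).le
      exact_mod_cast (Finset.mem_range.1 hj).le
  have h2 := Finset.sum_le_sum h1
  rw [Finset.sum_add_distrib, Finset.sum_const, Finset.card_range, nsmul_eq_mul,
    Finset.sum_ite_eq' (Finset.range m) 0 (fun _ => (1 : ℝ)), if_pos (Finset.mem_range.2 hm)] at h2
  have he : Real.exp 1 ≤ 3 := by
    have := Real.exp_one_lt_d9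
    linarith
  have hpos : 0 < ∑ j ∈ Finset.range m, (j.factorial : ℝ) * (Real.exp 1 / j) ^ j := by
    refine Finset.sum_pos (fun j _ => ?_) ⟨0, Finset.mem_range.2 hm⟩
    rcases Nat.eq_zero_or_pos j with rfl | hj0
    · simp
    · have : (0 : ℝ) < j := by exact_mod_cast hj0
      positivity
  have h3 : (∑ j ∈ Finset.range m, (j.factorial : ℝ) * (Real.exp 1 / j) ^ j) ≤ ((m : ℝ) + 1) ^ 4 := by
    refine h2.trans ?_
    have h4 : (m : ℝ) * (Real.exp 1 * m) ≤ 3 * m ^ 2 := by nlinarith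
    nlinarith [pow_nonneg (by linarith : (0 : ℝ) ≤ m) 3, pow_nonneg (by linarith : (0 : ℝ) ≤ m) 4]
  have h5 := Real.log_le_log hpos h3
  rw [Real.log_pow] at h5
  push_cast at h5
  exact h5

end Pool.Agent.Lib.MPcb8a44.F4
end

section
/-!
# STT: the energy bound for all integers of bounded mean square
-/
set_option autoImplicit false

open NumberField Module Pool.Agent.Lib.MPcb8a44.RD

namespace Pool.Agent.Lib.MPcb8a44.F4

open EST_ in
/-- STT. -/
theorem specSTT (hEGY : SpecEGY) : SpecSTT := by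
  classical
  intro θ T hT hθ Q
  obtain ⟨k₀, δ, hδ, hk⟩ := consts hθ
  obtain ⟨M, hM⟩ := hEGY T δ hT hδ Q k₀
  refine ⟨M, ?_⟩
  intro K _ _ hK hHS
  obtain ⟨S, hS, hsum⟩ := hHS
  have hfin : (BB K T).Finite := BB_finite hK T
  rw [NN, Set.ncard_eq_toFinset_card _ hfin]
  refine hM K hK S (fun q hq => ⟨(hS q hq).1, ne_bot q (hS q hq).1, (hS q hq).2⟩)
    (fun q => Ideal.absNorm q) ?_ ?_ hfin.toFinset ?_ ?_
  · intro q hq
    have h2 := two_le q (hS q hq).1
    show 1 ≤ Ideal.absNorm q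
    omega
  · have hd : (0 : ℝ) < finrank ℚ K := fpos
    have h1 : (finrank ℚ K : ℝ) * (Real.log T / 2 - 1 / 4 + δ) ≤
        (1 - (1 / 2) ^ k₀) * (θ * finrank ℚ K / 2) := by
      have := mul_le_mul_of_nonneg_left hk hd.le
      linarith
    have h2 : (0 : ℝ) ≤ 1 - (1 / 2) ^ k₀ := by
      have : (1 / 2 : ℝ) ^ k₀ ≤ 1 := pow_le_one₀ (by norm_num) (by norm_num)
      linarith
    have hsum' : θ * finrank ℚ K / 2 ≤
        ∑ q ∈ S, Real.log (Ideal.absNorm q) / ((Ideal.absNorm q : ℝ) - 1) := by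
      have h3 : ∑ q ∈ S, (if (2 : 𝓞 K) ∈ q then (2 : ℝ) else 1) *
          (Real.log (Ideal.absNorm q) / ((Ideal.absNorm q : ℝ) - 1)) ≤
          ∑ q ∈ S, 2 * (Real.log (Ideal.absNorm q) / ((Ideal.absNorm q : ℝ) - 1)) := by
        refine Finset.sum_le_sum fun q hq => ?_
        have hN := two_le q (hS q hq).1
        have hN' : (2 : ℝ) ≤ (Ideal.absNorm q : ℝ) := by exact_mod_cast hN
        have hlog : 0 ≤ Real.log (Ideal.absNorm q) := Real.log_nonneg (by linarith)
        have h4 : 0 ≤ Real.log (Ideal.absNorm q) / ((Ideal.absNorm q : ℝ) - 1) :=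
          div_nonneg hlog (by linarith)
        refine mul_le_mul_of_nonneg_right ?_ h4
        split_ifs <;> norm_num
      rw [← Finset.mul_sum] at h3
      have h5 := hsum.trans h3
      linarith
    refine h1.trans ((mul_le_mul_of_nonneg_left hsum' h2).trans ?_)
    rw [Finset.mul_sum]
    refine Finset.sum_le_sum fun q hq => ?_
    have hN := two_le q (hS q hq).1
    have hN' : (2 : ℝ) ≤ (Ideal.absNorm q : ℝ) := by exact_mod_cast hN
    have hlog : 0 ≤ Real.log (Ideal.absNorm q) := Real.log_nonneg (by linarith)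
    have hg := geo (N := (Ideal.absNorm q : ℝ)) (c := (Ideal.absNorm q : ℝ)) (w := 1)
      (k₀ := k₀) hN' (by linarith) one_pos.le (by linarith)
    have := mul_le_mul_of_nonneg_left hg hlog
    refine le_trans (le_of_eq ?_) this
    ring
  · intro x hx
    rw [Set.Finite.mem_toFinset] at hx
    exact hx
  · intro q hq
    have := finite_quot q (hS q hq).1
    rw [Set.Finite.coe_toFinset]
    show ((Ideal.Quotient.mk q) '' (BB K T)).ncard ≤ Ideal.absNorm q
    have h2 : ((Ideal.Quotient.mk q) '' (BB K T)).ncard ≤ Nat.card (𝓞 K ⧸ q) := by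
      rw [← Set.ncard_univ]
      exact Set.ncard_le_ncard (Set.subset_univ _) (Set.toFinite _)
    rwa [Ideal.absNorm_apply, Submodule.cardQuot_apply]

end Pool.Agent.Lib.MPcb8a44.F4
end

section
/-!
# Module TRP: the golden ratio has trace `1 / 2`
-/
set_option autoImplicit false

open NumberField Module Pool.Agent.Lib.MPcb8a44.RD

namespace Pool.Agent.Lib.MPcb8a44.F4

namespace TRPM

/-- The logarithm of a conjugate of the golden ratio is a linear function of it. -/
lemma log_abs {t : ℝ} (ht : t ^ 2 = t + 1) :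
    Real.log |t| = Real.log Real.goldenRatio / Real.sqrt 5 * (2 * t - 1) := by
  have h5 : Real.sqrt 5 ^ 2 = 5 := Real.sq_sqrt (by norm_num)
  have hpos : 0 < Real.sqrt 5 := Real.sqrt_pos.2 (by norm_num)
  have hg : Real.goldenRatio = (1 + Real.sqrt 5) / 2 := rfl
  have hg2 : Real.goldenRatio * (Real.goldenRatio - 1) = 1 := by
    rw [hg]; linarith
  have hg0 : 0 < Real.goldenRatio := by rw [hg]; positivity
  have h1 : (2 * t - 1 - Real.sqrt 5) * (2 * t - 1 + Real.sqrt 5) = 0 := by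
    linarith
  rcases mul_eq_zero.1 h1 with h | h
  · have e : t = Real.goldenRatio := by rw [hg]; linarith
    have e2 : 2 * t - 1 = Real.sqrt 5 := by linarith
    rw [e2, div_mul_cancel₀ _ hpos.ne', e, abs_of_pos hg0]
  · have e : t = -(Real.goldenRatio - 1) := by rw [hg]; linarith
    have e2 : 2 * t - 1 = -Real.sqrt 5 := by linarith
    have e3 : Real.goldenRatio - 1 = Real.goldenRatio⁻¹ :=
      eq_inv_of_mul_eq_one_right hg2
    rw [e2, mul_neg, div_mul_cancel₀ _ hpos.ne', e, abs_neg, e3, abs_of_pos (inv_pos.2 hg0),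
      Real.log_inv]

end TRPM

open TRPM in
/-- Module TRP. -/
theorem specTRP : SpecTRP := by
  intro K _ _ hK f hf
  have hf0 : f ≠ 0 := by
    rintro rfl
    simp at hf
  have hf1 : f - 1 ≠ 0 := by
    intro h
    rw [sub_eq_zero] at h
    rw [h] at hf
    simp at hf
  have hre : ∀ φ : K →+* ℂ, (φ (f : K)).re ^ 2 = (φ (f : K)).re + 1 := by
    intro φ
    have h1 : (φ ((f ^ 2 : 𝓞 K) : K)).re = (φ ((f + 1 : 𝓞 K) : K)).re := by rw [hf]
    have h2 := hK φ (f : K)
    push_cast at h1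
    rw [map_pow, map_add, map_one, pow_two, Complex.mul_re, h2, Complex.add_re,
      Complex.one_re] at h1
    linarith
  have hL := lN_eq hK hf0
  have hL1 := lN_eq hK hf1
  have hneg : lN (f - 1) = -lN f := by
    rw [hL, hL1, ← Finset.sum_neg_distrib]
    refine Finset.sum_congr rfl fun φ _ => ?_
    have h1 : (φ ((f - 1 : 𝓞 K) : K)).re = (φ (f : K)).re - 1 := by
      push_cast
      rw [map_sub, map_one, Complex.sub_re, Complex.one_re]
    have h2 : |(φ (f : K)).re| * |(φ ((f - 1 : 𝓞 K) : K)).re| = 1 := by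
      rw [← abs_mul, h1]
      have := hre φ
      rw [show (φ (f : K)).re * ((φ (f : K)).re - 1) = 1 by linarith, abs_one]
    rw [eq_neg_iff_add_eq_zero, add_comm, ← Real.log_mul
      (abs_ne_zero.2 (re_ne_zero hK φ hf0)) (abs_ne_zero.2 (re_ne_zero hK φ hf1)), h2,
      Real.log_one]
  have hzero : lN f = 0 := by
    have h1 := lN_nonneg hf0
    have h2 := lN_nonneg hf1
    linarith
  rw [hL, Finset.sum_congr rfl fun φ _ => log_abs (hre φ), ← Finset.mul_sum,
    Finset.sum_sub_distrib, ← Finset.mul_sum] at hzero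
  simp only [Finset.sum_const, Finset.card_univ, nsmul_eq_mul, mul_one] at hzero
  rw [Embeddings.card K ℂ] at hzero
  have hne : Real.log Real.goldenRatio / Real.sqrt 5 ≠ 0 := by
    have h1 : 0 < Real.log Real.goldenRatio := Real.log_pos Real.one_lt_goldenRatio
    have h2 : 0 < Real.sqrt 5 := Real.sqrt_pos.2 (by norm_num)
    positivity
  have h3 := (mul_eq_zero.1 hzero).resolve_left hne
  unfold av
  rw [div_eq_iff fpos.ne']
  linarith

end Pool.Agent.Lib.MPcb8a44.F4
end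

section
/-!
# VAL: exponents of prime ideals and the norm
-/
set_option autoImplicit false

open NumberField Module Pool.Agent.Lib.MPcb8a44.RD

namespace Pool.Agent.Lib.MPcb8a44.F4

namespace VALM

variable {K : Type} [Field K] [NumberField K]

open Classical in
theorem mem_pow_card (q : Ideal (𝓞 K)) (z : 𝓞 K) (k₀ : ℕ) :
    z ∈ q ^ ((Finset.range k₀).filter fun k => z ∈ q ^ (k + 1)).card := by
  set s := (Finset.range k₀).filter fun k => z ∈ q ^ (k + 1) with hs
  rcases Nat.eq_zero_or_pos s.card with h | h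
  · rw [h, pow_zero, Ideal.one_eq_top]
    exact Submodule.mem_top
  · have hex : ∃ k ∈ s, s.card ≤ k + 1 := by
      by_contra hne
      push Not at hne
      have hsub : s ⊆ Finset.range (s.card - 1) := by
        intro k hk
        have := hne k hk
        rw [Finset.mem_range]
        omega
      have := Finset.card_le_card hsub
      rw [Finset.card_range] at this
      omega
    obtain ⟨k, hk, hk2⟩ := hex
    exact Ideal.pow_le_pow_right hk2 (Finset.mem_filter.1 hk).2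

end VALM

open VALM in
open Classical in
theorem specVAL : SpecVAL := by
  intro K _ _ S hS k₀ z hz
  set e : Ideal (𝓞 K) → ℕ := fun q =>
    ((Finset.range k₀).filter fun k => z ∈ q ^ (k + 1)).card with he
  have h1 : ∏ q ∈ S, q ^ e q ∣ Ideal.span {z} := by
    refine Finset.prod_dvd_of_coprime ?_ ?_
    · intro q hq q' hq' hne
      have := (hS q hq).1
      have := (hS q' hq').1
      exact (Ideal.isCoprime_of_isMaximal hne).pow
    · intro q _
      rw [Ideal.dvd_span_singleton]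
      exact mem_pow_card q z k₀
  have h2 := map_dvd Ideal.absNorm h1
  rw [map_prod, Ideal.absNorm_span_singleton] at h2
  have hn : (Algebra.norm ℤ z) ≠ 0 := by
    rwa [Ne, Algebra.norm_eq_zero_iff]
  have h3 := Nat.le_of_dvd (Int.natAbs_pos.2 hn) h2
  have hpos : ∀ q ∈ S, (0 : ℝ) < Ideal.absNorm q := by
    intro q hq
    have : Ideal.absNorm q ≠ 0 := by
      rw [Ne, Ideal.absNorm_eq_zero_iff]
      exact (hS q hq).2
    exact_mod_cast Nat.pos_of_ne_zero this
  have h4 : ∏ q ∈ S, (Ideal.absNorm q : ℝ) ^ e q ≤ |((Algebra.norm ℤ z : ℤ) : ℝ)| := by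
    have h5 : ((∏ q ∈ S, Ideal.absNorm (q ^ e q) : ℕ) : ℝ) ≤
        (((Algebra.norm ℤ z).natAbs : ℕ) : ℝ) := by exact_mod_cast h3
    rw [Nat.cast_prod, Nat.cast_natAbs, Int.cast_abs] at h5
    refine le_trans (le_of_eq ?_) h5
    refine Finset.prod_congr rfl fun q _ => ?_
    rw [map_pow, Nat.cast_pow]
  have h6 := Real.log_le_log (Finset.prod_pos fun q hq => pow_pos (hpos q hq) _) h4
  rw [Real.log_prod fun q hq => (pow_pos (hpos q hq) _).ne'] at h6
  refine le_trans (le_of_eq ?_) h6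
  refine Finset.sum_congr rfl fun q _ => ?_
  rw [Real.log_pow, mul_comm]

end Pool.Agent.Lib.MPcb8a44.F4
end
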