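import Pool.Agent.Lib.MP_cb8a44_nt.RD.Spec
import Pool.Agent.Lib.MP_cb8a44_nt.RC.SpecE
import Pool.Agent.Lib.MP_cb8a44_nt.RM.All
import Pool.Agent.Lib.MP_cb8a44_nt.RC.NEG
import Pool.Agent.Lib.MP_cb8a44_nt.RC.REL
import Pool.Agent.Lib.MP_cb8a44_nt.RC.XSP
import Pool.Agent.Lib.MP_cb8a44_nt.RC.ZIX
import Pool.Agent.Lib.MP_cb8a44_nt.RC.FIN
import Pool.Agent.Lib.MP_cb8a44_nt.RC.WIT
import Pool.Agent.Lib.MP_cb8a44_nt.RC.TQM
import Pool.Agent.Lib.MP_cb8a44_nt.RC.TWD
import Pool.Agent.Lib.MP_cb8a44_nt.F4.Spec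
import Pool.Agent.Lib.MP_cb8a44_nt.F4.VAL
import Pool.Agent.Lib.MP_cb8a44_nt.F4.CNA

section
/-!
# Theorem RD, module BTF: a small sum of three squares which is not a sum of two squares in `F`
-/
set_option autoImplicit false

open NumberField Module
open scoped Pointwise

namespace Pool.Agent.Lib.MPcb8a44.RD

namespace BTFM

variable {K : Type} [Field K] [NumberField K]

/-- every embedding of `F` extends to `K` -/
theorem extend (F : IntermediateField ℚ K) (φ : F →+* ℂ) :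
    ∃ ψ : K →+* ℂ, ∀ x : F, ψ (x : K) = φ x := by
  let : Algebra F ℂ := φ.toAlgebra
  have : Algebra.IsAlgebraic F K := inferInstance
  let ψ : K →ₐ[F] ℂ := IsAlgClosed.lift
  exact ⟨ψ.toRingHom, fun x => ψ.commutes x⟩

theorem numberField (F : IntermediateField ℚ K) : NumberField F :=
  NumberField.of_module_finite ℚ F

theorem tr (hK : TR K) (F : IntermediateField ℚ K) : TR F := by
  intro φ x
  obtain ⟨ψ, hψ⟩ := extend F φ
  rw [← hψ]
  exact hK ψ _

theorem hs_coe (F : IntermediateField ℚ K) [NumberField F] (x : F) : hs (x : K) = hs x := by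
  apply le_antisymm
  · rw [hs_le_iff (hs_nonneg _)]
    intro ψ
    exact norm_le_hs (ψ.comp (algebraMap F K)) x
  · rw [hs_le_iff (hs_nonneg _)]
    intro φ
    obtain ⟨ψ, hψ⟩ := extend F φ
    rw [← hψ]
    exact norm_le_hs ψ _

theorem int_coe (F : IntermediateField ℚ K) (x : F) : IsIntegral ℤ (x : K) ↔ IsIntegral ℤ x :=
  isIntegral_algebraMap_iff (algebraMap F K).injective

theorem span_coe (F : IntermediateField ℚ K) [NumberField F] {Φ : ℝ} (h : Spn F Φ) (x : F) :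
    x ∈ Submodule.span ℚ {y : F | IsIntegral ℤ y ∧ hs y ≤ Φ} := by
  have h1 := h (x : K) x.2
  have h2 : {y : K | y ∈ F ∧ IsIntegral ℤ y ∧ hs y ≤ Φ} =
      F.val.toLinearMap '' {y : F | IsIntegral ℤ y ∧ hs y ≤ Φ} := by
    ext y
    constructor
    · rintro ⟨hy, hi, hh⟩
      exact ⟨⟨y, hy⟩, ⟨(int_coe F ⟨y, hy⟩).1 hi, by rw [← hs_coe]; exact hh⟩, rfl⟩
    · rintro ⟨z, ⟨hi, hh⟩, rfl⟩
      exact ⟨z.2, (int_coe F z).2 hi, by
        have := hs_coe F z
        exact this.le.trans hh⟩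
  rw [h2, Submodule.span_image] at h1
  obtain ⟨z, hz, hzx⟩ := h1
  have : z = x := Subtype.ext hzx
  rwa [← this]

theorem finrank_le (F : IntermediateField ℚ K) : finrank ℚ F ≤ finrank ℚ K :=
  Submodule.finrank_le (Subalgebra.toSubmodule F.toSubalgebra)

end BTFM

open BTFM in
theorem specBTF (hBET : SpecBET) : SpecBTF := by
  intro K _ _ hK F Φ hΦ hS
  have := numberField F
  obtain ⟨a, b, c, ⟨ha, hb, hc⟩, hn⟩ := hBET F Φ (tr hK F) hΦ (span_coe F hS)
  have hd : (finrank ℚ F : ℝ) ≤ finrank ℚ K := by exact_mod_cast finrank_le F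
  have hle : 100 * (finrank ℚ F : ℝ) ^ 3 * Φ ^ 3 ≤ 100 * (finrank ℚ K : ℝ) ^ 3 * Φ ^ 3 := by
    have : (0 : ℝ) ≤ finrank ℚ F := Nat.cast_nonneg _
    gcongr
  have key : ∀ x : 𝓞 F, hs (x : F) ≤ 100 * finrank ℚ F ^ 3 * Φ ^ 3 →
      ((x : F) : K) ∈ F ∧ IsIntegral ℤ ((x : F) : K) ∧
        hs ((x : F) : K) ≤ 100 * finrank ℚ K ^ 3 * Φ ^ 3 := by
    intro x hx
    refine ⟨(x : F).2, (int_coe F _).2 x.2, ?_⟩
    rw [hs_coe]
    exact hx.trans hle
  refine ⟨((a : F) : K), ((b : F) : K), ((c : F) : K), key a ha, key b hb, key c hc, ?_⟩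
  intro y z hy hz hyi hzi h
  apply hn
  refine ⟨⟨⟨y, hy⟩, (int_coe F ⟨y, hy⟩).1 hyi⟩, ⟨⟨z, hz⟩, (int_coe F ⟨z, hz⟩).1 hzi⟩, ?_⟩
  apply RingOfIntegers.ext
  apply Subtype.ext
  exact h

end Pool.Agent.Lib.MPcb8a44.RD
end

section
/-!
# Theorem RC, block E, module WTF: the witness and the covering radius of a subfield, inside `K`
-/
set_option autoImplicit false

open NumberField Module

namespace Pool.Agent.Lib.MPcb8a44.RC

namespace WTFM

lemma Ms_tr {K : Type} [Field K] [NumberField K] (hK : RD.TR K) (x : K) :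
    finrank ℚ K * RD.Ms x = ((Algebra.trace ℚ K (x * x) : ℚ) : ℝ) := by
  rw [← norm_ev_sq hK, ← inner_ev hK, real_inner_self_eq_norm_sq]

lemma Ms_coe {K : Type} [Field K] [NumberField K] (hK : RD.TR K) (F : IntermediateField ℚ K)
    [NumberField F] (x : F) : RD.Ms (x : K) = RD.Ms x := by
  have hF : RD.TR F := RD.BTFM.tr hK F
  have h1 := Ms_tr hK (x : K)
  have h2 := Ms_tr hF x
  have h3 : Algebra.trace ℚ K ((x : K) * (x : K)) =
      (finrank F K : ℚ) * Algebra.trace ℚ F (x * x) := by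
    have e : (x : K) * (x : K) = algebraMap F K (x * x) := by rw [map_mul]; rfl
    rw [e, ← Algebra.trace_trace (S := F), Algebra.trace_algebraMap, map_nsmul, nsmul_eq_mul]
  have h4 : (finrank ℚ K : ℝ) = finrank ℚ F * finrank F K := by
    exact_mod_cast (finrank_mul_finrank ℚ F K).symm
  rw [h3] at h1
  push_cast at h1
  rw [← h2, h4] at h1
  have hn : (0 : ℝ) < finrank ℚ F := by exact_mod_cast RD.d_pos (K := F)
  have hk : (0 : ℝ) < finrank F K := by
    have : 0 < finrank F K := finrank_pos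
    exact_mod_cast this
  have h5 : ((finrank ℚ F : ℝ) * finrank F K) * RD.Ms (x : K) =
      ((finrank ℚ F : ℝ) * finrank F K) * RD.Ms x := by
    rw [h1]; ring
  exact mul_left_cancel₀ (mul_pos hn hk).ne' h5

end WTFM

open WTFM in
theorem specWTF (hCVR : SpecCVR) (hWIT : SpecWIT) : SpecWTF := by
  obtain ⟨B, hB0, hB⟩ := hWIT
  refine ⟨B, hB0, ?_⟩
  intro K _ _ hK F
  have hF : RD.TR F := RD.BTFM.tr hK F
  constructor
  · obtain ⟨a, b, c, hs, hn⟩ := hB F hF
    have key : ∀ x : 𝓞 F, ((x : F) : K) ∈ F ∧ IsIntegral ℤ ((x : F) : K) :=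
      fun x => ⟨(x : F).2, (RD.BTFM.int_coe F _).2 x.2⟩
    refine ⟨((a : F) : K), ((b : F) : K), ((c : F) : K), key a, key b, key c, ?_, ?_⟩
    · rw [Ms_coe hK, Ms_coe hK, Ms_coe hK]
      exact hs
    · intro y z hy hz hyi hzi h
      apply hn
      refine ⟨⟨⟨y, hy⟩, (RD.BTFM.int_coe F ⟨y, hy⟩).1 hyi⟩,
        ⟨⟨z, hz⟩, (RD.BTFM.int_coe F ⟨z, hz⟩).1 hzi⟩, ?_⟩
      apply RingOfIntegers.ext
      apply Subtype.ext
      exact h
  · intro z hz
    obtain ⟨f, -, hf⟩ := hCVR F hF ⊤ ⟨z, hz⟩ top_ne_bot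
    refine ⟨((f : F) : K), (f : F).2, (RD.BTFM.int_coe F _).2 f.2, ?_⟩
    have e : z - ((f : F) : K) = (((⟨z, hz⟩ : F) - (f : F) : F) : K) := rfl
    rw [e, Ms_coe hK]
    refine hf.trans (le_of_eq ?_)
    rw [Ideal.absNorm_top, Nat.cast_one, Real.one_rpow, mul_one]

end Pool.Agent.Lib.MPcb8a44.RC
end

section
/-!
# Theorem RC: all modules together
-/
set_option autoImplicit false

open NumberField Module

namespace Pool.Agent.Lib.MPcb8a44.RC.All

theorem hADP : SpecADP := specADP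
theorem hEVB : SpecEVB := specEVB
theorem hGRA : SpecGRA := specGRA
theorem hZIX : SpecZIX := specZIX hGRA
theorem hLTB : SpecLTB := specLTB hGRA hZIX hEVB
theorem hDUB : SpecDUB := specDUB hGRA
theorem hPJE : SpecPJE := specPJE hGRA
theorem hCOB : SpecCOB := specCOB hEVB hLTB hDUB hPJE
theorem hGSM : SpecGSM := specGSM
theorem hRHB : SpecRHB := specRHB hEVB hGSM
theorem hGFT : SpecGFT := specGFT
theorem hPOI : SpecPOI := specPOI hGSM hGFT
theorem hGTH : SpecGTH := specGTH hGSM hPOI hDUB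
theorem hCDM : SpecCDM := specCDM hCOB hRHB hGTH hEVB hGRA
theorem hCLS : SpecCLS := specCLS
theorem hMAA : SpecMAA := specMAA hRHB hGTH hLTB hEVB
theorem hCN3 : SpecCN3 := specCN3 hMAA
theorem hCON : SpecCON := specCON hGRA
theorem hCUB : SpecCUB := specCUB
theorem hCVR : SpecCVR := specCVR hGSM hEVB hRHB hCUB hPOI
theorem hDEQ : SpecDEQ := specDEQ hEVB hLTB
theorem hDGL : SpecDGL := specDGL
theorem hMKW : SpecMKW := specMKW
theorem hDMN : SpecDMN := specDMN hGRA hPJE hZIX hDUB hADP hMKW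
theorem hDTF : SpecDTF := specDTF hLTB
theorem hGSP : SpecGSP := specGSP hGSM hPJE hGTH
theorem hGDM : SpecGDM := specGDM hGRA hPJE hCON
theorem hSBM : SpecSBM := specSBM hLTB hGDM
theorem hHUL : SpecHUL := specHUL hSBM hLTB
theorem hQDS : SpecQDS := specQDS hGRA hPJE hZIX hDUB hADP
theorem hRMC : SpecRMC := specRMC
theorem hTQM : SpecTQM := specTQM hCOB hRHB hEVB hPJE hGSP hGTH hGSM hLTB hDEQ hHUL hDUB hQDS hRMC
theorem hMAB : SpecMAB := specMAB hMAA hRHB hGTH hDUB hDEQ hQDS hRMC hHUL hLTB hEVB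
theorem hFPS : SpecFPS := specFPS hTQM hCDM hMAB hCUB hLTB
theorem hHMO : SpecHMO := specHMO hHUL hLTB
theorem hQDE : SpecQDE := specQDE hEVB hLTB hADP hPJE hZIX
theorem hQDM : SpecQDM := specQDM hGRA hGDM hADP hZIX
theorem hHMU : SpecHMU := specHMU hEVB hLTB hDEQ hQDE hQDM hHUL
theorem hFPK : SpecFPK := specFPK hFPS hHUL hHMO hHMU
theorem hRES : SpecRES := specRES hMAA hMAB hCUB hRHB hGTH hLTB hEVB hGSM
theorem hSPL : SpecSPL := specSPL
theorem hPRD : SpecPRD := specPRD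
theorem hLOW : SpecLOW := specLOW hRES hDGL hCLS hSPL hPRD hCUB hMAA hLTB hCN3
theorem hRUY : SpecRUY := specRUY hCN3
theorem hMAC : SpecMAC := specMAC hEVB hLTB hMAB hRHB hGSP hPJE hRMC hHUL hGRA
theorem hUPB : SpecUPB := specUPB hCN3 hRUY hMAC hHMO
theorem hINF : SpecINF := specINF hFPK hLOW hUPB hHMO
theorem hGRS : SpecGRS := specGRS hHMO
theorem hXSP : SpecXSP := specXSP hLTB hMAA hMAB hCUB
theorem hPRF : SpecPRF := specPRF
theorem hPFU : SpecPFU := specPFU hXSP hPRF hHMU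
theorem hTWD : SpecTWD := specTWD hEVB hDUB hDMN hQDE
theorem hTOP : SpecTOP := specTOP hTWD hDTF hHUL
theorem hNZ0 : SpecNZ0 := specNZ0 hINF hGRS hHMO hPFU hTOP
theorem hLMX : SpecLMX := specLMX
theorem hSBF : SpecSBF := specSBF hLMX hXSP hHMU hHMO hHUL
theorem hGMN : SpecGMN := specGMN
theorem hSM2 : SpecSM2 := specSM2 hTWD hGMN hHUL
theorem hNEG : SpecNEG := specNEG hGSM hEVB hRHB hCUB hPOI hGTH
theorem hWIT : SpecWIT := specWIT hCVR hNEG
theorem hWTF : SpecWTF := specWTF hCVR hWIT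
theorem hFS2 : SpecFS2 := specFS2
theorem hHSX : SpecHSX := specHSX hINF
theorem hRX3 : SpecRX3 := specRX3 hHSX hTWD hGMN hXSP hTOP hHUL hHMO
theorem hRX2 : SpecRX2 := specRX2 hTWD hTOP hHUL
theorem hREL : SpecREL := specREL hSM2 hTOP hWTF hFS2 hRX3 hRX2
theorem hFRC : SpecFRC := specFRC hHUL hHMO hNZ0 hSBF hDTF hTOP hREL

/-- **Theorem RC.**  There is an absolute constant `C` such that every totally real number field `K` in
whose ring of integers every sum of squares is a sum of three squares has `|disc K| ≤ C ^ [K:ℚ]`. -/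
theorem result : ∃ C : ℕ, ∀ (K : Type) [Field K] [NumberField K],
    (∀ φ : K →+* ℂ, ∀ x : K, (φ x).im = 0) →
    (∀ x : 𝓞 K, (∃ (m : ℕ) (f : Fin m → 𝓞 K), x = ∑ i, f i ^ 2) →
      ∃ f : Fin 3 → 𝓞 K, x = ∑ i, f i ^ 2) →
    |discr K| ≤ C ^ finrank ℚ K :=
  fin Pool.Agent.Lib.MP_cb8a44_nt.RM.All.rmi hFRC

end Pool.Agent.Lib.MPcb8a44.RC.All
end

section
/-!
# The final deduction: Minkowski, bounded root discriminant and Hermite's theorem
-/
set_option autoImplicit false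

open NumberField Module Pool.Agent.Lib.MPcb8a44.RD

namespace Pool.Agent.Lib.MPcb8a44.F4

/-- the set of fields of the theorem -/
def FF (Q : ℕ) : Set (IntermediateField ℚ ℂ) :=
  {K | FiniteDimensional ℚ K ∧
    (∀ φ : K →+* ℂ, ∀ x : K, (φ x).im = 0) ∧
    (∀ x : 𝓞 K, (∃ (m : ℕ) (f : Fin m → 𝓞 K), x = ∑ i, f i ^ 2) →
      ∃ f : Fin 3 → 𝓞 K, x = ∑ i, f i ^ 2) ∧
    (∀ y : 𝓞 K, 2 ∣ y ^ 2 → 2 ∣ y) ∧
    ((∃ y : K, y ^ 2 = 5) → ∀ q : Ideal (𝓞 K), q.IsMaximal → (2 : 𝓞 K) ∈ q →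
      Nat.card (𝓞 K ⧸ q) % 5 = 4) ∧
    (∃ S : Finset (Ideal (𝓞 K)), (∀ q ∈ S, q.IsMaximal ∧ Nat.card (𝓞 K ⧸ q) ≤ Q) ∧
      (open Classical in if ∃ y : K, y ^ 2 = 5 then (19 / 50 : ℝ) else 3 / 10) * finrank ℚ K ≤
        ∑ q ∈ S, (open Classical in if (2 : 𝓞 K) ∈ q then (2 : ℝ) else 1) *
          (Real.log (Nat.card (𝓞 K ⧸ q)) / ((Nat.card (𝓞 K ⧸ q) : ℝ) - 1)))}

theorem fin (hBDA : SpecBDA) (hBDB : SpecBDB) (hMNK : SpecMNK) (Q : ℕ) : (FF Q).Finite := by
  classical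
  obtain ⟨C, hC⟩ := Pool.Agent.Lib.MPcb8a44.RC.All.result
  obtain ⟨T, hT⟩ := hMNK C
  obtain ⟨G₁, hG₁⟩ := hBDA Q T
  obtain ⟨G₂, hG₂⟩ := hBDB Q T
  obtain ⟨d₀, hd₀⟩ := hT (max G₁ G₂)
  have hfin := NumberField.finite_of_discr_bdd ℂ ((max C 1) ^ d₀)
  refine (hfin.image Subtype.val).subset ?_
  rintro K ⟨hK, hreal, hP, hU, h5, S, hS, hsum⟩
  have hNF : NumberField K := { to_charZero := inferInstance, to_finiteDimensional := hK }
  have hnorm : ∀ q : Ideal (𝓞 K), Nat.card (𝓞 K ⧸ q) = Ideal.absNorm q := fun q => by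
    rw [Ideal.absNorm_apply, Submodule.cardQuot_apply]
  simp only [hnorm] at h5 hS hsum
  have hdisc := hC K hreal hP
  have hN : NN K T ≤ max G₁ G₂ := by
    by_cases h : ∃ y : K, y ^ 2 = 5
    · refine (hG₂ K hreal hU hP h (h5 h) ⟨S, hS, ?_⟩).trans (le_max_right _ _)
      simpa [h] using hsum
    · refine (hG₁ K hreal hU hP (fun y hy => h ⟨y, hy⟩) ⟨S, hS, ?_⟩).trans (le_max_left _ _)
      simpa [h] using hsum
  have hd : finrank ℚ K < d₀ := by
    by_contra hcon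
    have := hd₀ K hreal hdisc (not_lt.1 hcon)
    omega
  refine ⟨⟨K, hK⟩, ?_, rfl⟩
  change |discr K| ≤ (((max C 1) ^ d₀ : ℕ) : ℤ)
  refine hdisc.trans ?_
  have h1 : C ^ finrank ℚ K ≤ (max C 1) ^ d₀ :=
    (Nat.pow_le_pow_left (le_max_left C 1) _).trans (Nat.pow_le_pow_right (le_max_right C 1) hd.le)
  exact_mod_cast h1

end Pool.Agent.Lib.MPcb8a44.F4
end

section
/-!
# The special case of residue fields with at most four elements at `2`

If `2` is unramified in `K` and all residue fields at `2` have at most `4` elements, then `K` satisfies the hypotheses of the main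
theorem with `Q = 4`.
-/
set_option autoImplicit false

open NumberField Module Pool.Agent.Lib.MPcb8a44.RD

namespace Pool.Agent.Lib.MPcb8a44.F4

namespace CORM

section General

variable {R : Type} [CommRing R] [IsDedekindDomain R]

lemma squarefree_gen (a : R) (ha : a ≠ 0) (hU : ∀ y : R, a ∣ y ^ 2 → a ∣ y) :
    Squarefree (Ideal.span {a}) := by
  intro J hJ
  obtain ⟨L, hL⟩ := hJ
  have hI0 : Ideal.span {a} ≠ 0 := by
    rw [Ne, Ideal.zero_eq_bot, Ideal.span_singleton_eq_bot]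
    exact ha
  have h1 : J * L ≤ Ideal.span {a} := by
    intro y hy
    rw [Ideal.mem_span_singleton]
    apply hU
    rw [← Ideal.mem_span_singleton]
    have h2 : y ^ 2 ∈ (J * L) ^ 2 := Ideal.pow_mem_pow hy 2
    have h3 : (J * L) ^ 2 = L * Ideal.span {a} := by rw [hL]; ring
    rw [h3] at h2
    exact Ideal.mul_le_right h2
  have h2 : J * J * L ∣ J * L := by
    rw [← hL]
    exact Ideal.dvd_iff_le.2 h1
  obtain ⟨M, hM⟩ := h2
  have hJL : J * L ≠ 0 := by
    intro h0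
    apply hI0
    rw [hL, mul_assoc, h0, mul_zero]
  have h3 : J * L * (J * M) = J * L * 1 := by
    rw [mul_one]
    calc J * L * (J * M) = J * J * L * M := by ring
      _ = J * L := hM.symm
  have h4 : J * M = 1 := mul_left_cancel₀ hJL h3
  exact IsUnit.of_mul_eq_one M h4

open Classical in
/-- the primes above `a` -/
lemma exists_gen (a : R) (ha : a ≠ 0) (hU : ∀ y : R, a ∣ y ^ 2 → a ∣ y) :
    ∃ S : Finset (Ideal R), (∀ q ∈ S, q.IsMaximal ∧ a ∈ q) ∧ ∏ q ∈ S, q = Ideal.span {a} := by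
  set I : Ideal R := Ideal.span {a} with hI
  have hI0 : I ≠ 0 := by
    rw [Ne, hI, Ideal.zero_eq_bot, Ideal.span_singleton_eq_bot]
    exact ha
  have hsq : Squarefree I := squarefree_gen a ha hU
  have hnd := (UniqueFactorizationMonoid.squarefree_iff_nodup_normalizedFactors hI0).1 hsq
  refine ⟨(UniqueFactorizationMonoid.normalizedFactors I).toFinset, ?_, ?_⟩
  · intro q hq
    rw [Multiset.mem_toFinset] at hq
    have h1 := UniqueFactorizationMonoid.prime_of_normalized_factor q hq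
    have h2 : q.IsPrime := Ideal.isPrime_of_prime h1
    have h3 : q ≠ ⊥ := h1.ne_zero
    refine ⟨h2.isMaximal h3, ?_⟩
    have h4 := UniqueFactorizationMonoid.dvd_of_mem_normalizedFactors hq
    exact Ideal.dvd_iff_le.1 h4 (Ideal.mem_span_singleton_self a)
  · have h1 : (UniqueFactorizationMonoid.normalizedFactors I).prod = I :=
      associated_iff_eq.1 (UniqueFactorizationMonoid.prod_normalizedFactors hI0)
    conv_rhs => rw [← h1]
    rw [Finset.prod_eq_multiset_prod, Multiset.toFinset_val, Multiset.dedup_eq_self.2 hnd,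
      Multiset.map_id']

end General

variable {K : Type} [Field K] [NumberField K]

lemma exists_S (hU : U2 K) : ∃ S : Finset (Ideal (𝓞 K)),
    (∀ q ∈ S, q.IsMaximal ∧ (2 : 𝓞 K) ∈ q) ∧
    ∑ q ∈ S, Real.log (Ideal.absNorm q) = finrank ℚ K * Real.log 2 := by
  obtain ⟨S, hS, hprod⟩ := exists_gen (2 : 𝓞 K) two_ne_zero hU
  refine ⟨S, hS, ?_⟩
  have h1 : ∏ q ∈ S, (Ideal.absNorm q : ℝ) = 2 ^ finrank ℚ K := by
    have h2 := congrArg Ideal.absNorm hprod
    rw [map_prod, Ideal.absNorm_span_singleton] at h2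
    have h3 : Algebra.norm ℤ (2 : 𝓞 K) = 2 ^ finrank ℚ K := by
      have h4 : (2 : 𝓞 K) = algebraMap ℤ (𝓞 K) 2 := by simp
      rw [h4, Algebra.norm_algebraMap, RingOfIntegers.rank]
    rw [h3] at h2
    have h5 : ((∏ q ∈ S, Ideal.absNorm q : ℕ) : ℝ) = ((Int.natAbs ((2 : ℤ) ^ finrank ℚ K) : ℕ) : ℝ) := by
      rw [h2]
    rw [Int.natAbs_pow] at h5
    push_cast at h5
    simpa using h5
  have h0 : ∀ q ∈ S, (Ideal.absNorm q : ℝ) ≠ 0 := by
    intro q hq h
    have h2 : (∏ q ∈ S, (Ideal.absNorm q : ℝ)) = 0 := Finset.prod_eq_zero hq h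
    rw [h1] at h2
    exact pow_ne_zero _ two_ne_zero h2
  rw [← Real.log_prod h0, h1, Real.log_pow]

end CORM

/-- The special case of residue fields with at most four elements: if `2` is unramified in `K` and every residue field at `2` has at
most `4` elements, then `K` belongs to `FF 4` as soon as it is totally real with `P(O_K) ≤ 3`. -/
theorem mem_FF_four (K : IntermediateField ℚ ℂ) (hK : FiniteDimensional ℚ K)
    (hreal : ∀ φ : K →+* ℂ, ∀ x : K, (φ x).im = 0)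
    (hP : ∀ x : 𝓞 K, (∃ (m : ℕ) (f : Fin m → 𝓞 K), x = ∑ i, f i ^ 2) →
      ∃ f : Fin 3 → 𝓞 K, x = ∑ i, f i ^ 2)
    (hU : ∀ y : 𝓞 K, 2 ∣ y ^ 2 → 2 ∣ y)
    (h4 : ∀ q : Ideal (𝓞 K), q.IsMaximal → (2 : 𝓞 K) ∈ q → Nat.card (𝓞 K ⧸ q) ≤ 4) : K ∈ FF 4 := by
  classical
  have hNF : NumberField K := { to_charZero := inferInstance, to_finiteDimensional := hK }
  have hnorm : ∀ q : Ideal (𝓞 K), Nat.card (𝓞 K ⧸ q) = Ideal.absNorm q := fun q => by
    rw [Ideal.absNorm_apply, Submodule.cardQuot_apply]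
  obtain ⟨S, hS, hsum⟩ := CORM.exists_S (K := K) hU
  have hcard : ∀ q : Ideal (𝓞 K), q.IsMaximal → (2 : 𝓞 K) ∈ q →
      Ideal.absNorm q = 2 ∨ Ideal.absNorm q = 4 := by
    intro q hq h2
    have h1 : Ideal.absNorm q ∣ 2 ^ finrank ℚ K := by
      have h := Ideal.absNorm_dvd_absNorm_of_le ((Ideal.span_singleton_le_iff_mem q).2 h2)
      rw [Ideal.absNorm_span_singleton] at h
      have h3 : Algebra.norm ℤ (2 : 𝓞 K) = 2 ^ finrank ℚ K := by
        have h4 : (2 : 𝓞 K) = algebraMap ℤ (𝓞 K) 2 := by simp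
        rw [h4, Algebra.norm_algebraMap, RingOfIntegers.rank]
      rw [h3, Int.natAbs_pow] at h
      exact h
    obtain ⟨k, -, hk⟩ := (Nat.dvd_prime_pow Nat.prime_two).1 h1
    have h5 := h4 q hq h2
    rw [hnorm, hk] at h5
    have h6 : Ideal.absNorm q ≠ 1 := by
      rw [Ne, Ideal.absNorm_eq_one_iff]
      exact hq.ne_top
    rw [hk] at h6 ⊢
    have h7 : k ≤ 2 := by
      by_contra hcon
      have : 2 ^ 3 ≤ 2 ^ k := Nat.pow_le_pow_right (by norm_num) (by omega)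
      omega
    interval_cases k
    · simp at h6
    · left; norm_num
    · right; norm_num
  refine ⟨hK, hreal, hP, hU, ?_, S, ?_, ?_⟩
  · rintro ⟨y, hy⟩ q hq h2
    rw [hnorm]
    rcases hcard q hq h2 with h | h
    · exfalso
      have hint : IsIntegral ℤ ((1 + y) / 2) := by
        refine ⟨Polynomial.X ^ 2 - Polynomial.X - 1, by monicity!, ?_⟩
        simp only [Polynomial.eval₂_sub, Polynomial.eval₂_pow, Polynomial.eval₂_X, Polynomial.eval₂_one]
        linear_combination hy / 4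
      set f : 𝓞 K := ⟨(1 + y) / 2, hint⟩ with hf
      have hff : f ^ 2 = f + 1 := by
        apply RingOfIntegers.ext
        change ((1 + y) / 2) ^ 2 = (1 + y) / 2 + 1
        linear_combination hy / 4
      have hfin : Finite (𝓞 K ⧸ q) := by
        refine Nat.finite_of_card_ne_zero ?_
        rw [hnorm, h]
        norm_num
      have h9 : (Ideal.Quotient.mk q f) ^ 2 = Ideal.Quotient.mk q f := by
        let hft : Fintype (𝓞 K ⧸ q) := Fintype.ofFinite _
        let hfd : Field (𝓞 K ⧸ q) := Ideal.Quotient.field q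
        have hc : Fintype.card (𝓞 K ⧸ q) = 2 := by
          rw [← Nat.card_eq_fintype_card, hnorm, h]
        have h8 := FiniteField.pow_card (Ideal.Quotient.mk q f)
        rwa [hc] at h8
      have h11 := congrArg (Ideal.Quotient.mk q) hff
      rw [map_pow, map_add, map_one, h9] at h11
      have h12 : (1 : 𝓞 K ⧸ q) = 0 := by
        have := sub_eq_zero.2 h11
        linear_combination -this
      have hnt : Nontrivial (𝓞 K ⧸ q) := Ideal.Quotient.nontrivial_iff.2 hq.ne_top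
      exact one_ne_zero h12
    · rw [h]
  · intro q hq
    refine ⟨(hS q hq).1, ?_⟩
    rw [hnorm]
    rcases hcard q (hS q hq).1 (hS q hq).2 with h | h <;> omega
  · have h1 : ∀ q ∈ S, (2 / 3 : ℝ) * Real.log (Ideal.absNorm q) ≤
        (if (2 : 𝓞 K) ∈ q then (2 : ℝ) else 1) *
          (Real.log (Nat.card (𝓞 K ⧸ q)) / ((Nat.card (𝓞 K ⧸ q) : ℝ) - 1)) := by
      intro q hq
      rw [if_pos (hS q hq).2, hnorm]
      rcases hcard q (hS q hq).1 (hS q hq).2 with h | h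
      · rw [h]
        have := Real.log_nonneg (x := 2) (by norm_num)
        push_cast
        norm_num
        linarith
      · rw [h]
        push_cast
        norm_num
        linarith
    refine le_trans ?_ (Finset.sum_le_sum h1)
    rw [← Finset.mul_sum, hsum]
    have h2 : (if ∃ y : K, y ^ 2 = 5 then (19 / 50 : ℝ) else 3 / 10) ≤ 19 / 50 := by
      split_ifs <;> norm_num
    have h3 : (0 : ℝ) ≤ finrank ℚ K := Nat.cast_nonneg _
    have h4 := Real.log_two_gt_d9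
    nlinarith [mul_le_mul_of_nonneg_right h2 h3, mul_le_mul_of_nonneg_left h4.le h3]

end Pool.Agent.Lib.MPcb8a44.F4
end

section
/-!
# All modules together
-/
set_option autoImplicit false

open NumberField Module

namespace Pool.Agent.Lib.MPcb8a44.F4

theorem all (Q : ℕ) : (FF Q).Finite := by
  have hENG : SpecENG := specENG specHRB specHAD specSTR
  have hNRM : SpecNRM := specNRM hENG
  have hCOL : SpecCOL := specCOL specPGH specCLS specVAL
  have hEGY : SpecEGY := specEGY hNRM hCOL specSLG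
  have hEST : SpecEST := specEST hEGY specEQC
  have hSTT : SpecSTT := specSTT hEGY
  have hSIA : SpecSIA := specSIA specFIA
  have hSIB : SpecSIB := specSIB specFIB
  have hMDA : SpecMDA := specMDA
  have hEMA : SpecEMA := specEMA hMDA
  have hEMB : SpecEMB := specEMB specMDB
  have hN3S : SpecN3S := specN3S hSIB
  have hCNA : SpecCNA := specCNA specPAR hMDA hSIB hN3S
  have hCNB : SpecCNB := specCNB specMDB specPAR
  have hSGA : SpecSGA := specSGA hEMA hCNA
  have hSGB : SpecSGB := specSGB specTRP hSIA hEMB hCNB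
  have hBDA : SpecBDA := specBDA hSTT hEST hSGA specITR
  have hBDB : SpecBDB := specBDB specLOC hSTT hEST hSGB specITR
  exact fin hBDA hBDB specMNK Q

/-- Special case: `2` unramified with residue fields of at most four elements. -/
theorem four : {K : IntermediateField ℚ ℂ |
    FiniteDimensional ℚ K ∧
    (∀ φ : K →+* ℂ, ∀ x : K, (φ x).im = 0) ∧
    (∀ x : 𝓞 K, (∃ (m : ℕ) (f : Fin m → 𝓞 K), x = ∑ i, f i ^ 2) →
      ∃ f : Fin 3 → 𝓞 K, x = ∑ i, f i ^ 2) ∧
    (∀ y : 𝓞 K, 2 ∣ y ^ 2 → 2 ∣ y) ∧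
    (∀ q : Ideal (𝓞 K), q.IsMaximal → (2 : 𝓞 K) ∈ q → Nat.card (𝓞 K ⧸ q) ≤ 4)}.Finite :=
  (all 4).subset fun K hK => mem_FF_four K hK.1 hK.2.1 hK.2.2.1 hK.2.2.2.1 hK.2.2.2.2

end Pool.Agent.Lib.MPcb8a44.F4
end
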