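import Mathlib
import Pool.Agent.Lib.MP_cb8a44_nt.RD.Defs

/-!
# Fields with `P(O_K) ≤ 3` in which `2` is unramified and which have many small primes: definitions

`K` is a number field, `d = finrank ℚ K`, everything below is for totally real `K` (`RD.TR K`).
`av y` is the mean of the conjugates of `y`, `ms x` the mean square, `BB K T` the set of integers
`x` with `ms x ≤ T` and `NN K T` its cardinality.
-/

set_option autoImplicit false

open NumberField Module Pool.Agent.Lib.MPcb8a44.RD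

namespace Pool.Agent.Lib.MPcb8a44.F4

section Defs

variable {K : Type} [Field K] [NumberField K]

/-- The mean of the (real parts of the) conjugates of `y`. -/
noncomputable def av (y : 𝓞 K) : ℝ := (∑ φ : K →+* ℂ, (φ (y : K)).re) / finrank ℚ K

/-- The mean square of the (real parts of the) conjugates of `x`. -/
noncomputable def ms (x : 𝓞 K) : ℝ := (∑ φ : K →+* ℂ, (φ (x : K)).re ^ 2) / finrank ℚ K

/-- `log |N z|`. -/
noncomputable def lN (z : 𝓞 K) : ℝ := Real.log |((Algebra.norm ℤ z : ℤ) : ℝ)|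

variable (K)

/-- The integers of mean square at most `T`. -/
def BB (T : ℝ) : Set (𝓞 K) := {x | ms x ≤ T}

/-- The number of integers of mean square at most `T`. -/
noncomputable def NN (T : ℝ) : ℕ := (BB K T).ncard

/-- Every sum of squares of integers is a sum of three squares of integers. -/
def P3 : Prop := ∀ x : 𝓞 K, (∃ (m : ℕ) (f : Fin m → 𝓞 K), x = ∑ i, f i ^ 2) →
  ∃ f : Fin 3 → 𝓞 K, x = ∑ i, f i ^ 2

/-- `2` is unramified in `K`. -/
def U2 : Prop := ∀ y : 𝓞 K, 2 ∣ y ^ 2 → 2 ∣ y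

/-- `K` has many prime ideals of norm at most `Q`; the ones above `2` count twice. -/
def HS (θ : ℝ) (Q : ℕ) : Prop := ∃ S : Finset (Ideal (𝓞 K)),
  (∀ q ∈ S, q.IsMaximal ∧ Ideal.absNorm q ≤ Q) ∧
  θ * finrank ℚ K ≤ ∑ q ∈ S, (open Classical in if (2 : 𝓞 K) ∈ q then (2 : ℝ) else 1) *
    (Real.log (Ideal.absNorm q) / ((Ideal.absNorm q : ℝ) - 1))

/-- The set of `x` with `x ≡ s + τ (B + 1/B)` modulo `2` for some `B` invertible modulo `2`. -/
def ES {K : Type} [Field K] [NumberField K] (s τ : 𝓞 K) : Set (𝓞 K) :=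
  {x | ∃ B B' : 𝓞 K, 2 ∣ B * B' - 1 ∧ 2 ∣ x - s - τ * (B + B')}

end Defs

section Basic

variable {K : Type} [Field K] [NumberField K]

lemma fpos : (0 : ℝ) < finrank ℚ K := by exact_mod_cast finrank_pos

lemma av_add (x y : 𝓞 K) : av (x + y) = av x + av y := by
  simp [av, Finset.sum_add_distrib, add_div]

lemma av_neg (x : 𝓞 K) : av (-x) = -av x := by
  simp [av, neg_div]

lemma av_sub (x y : 𝓞 K) : av (x - y) = av x - av y := by
  rw [sub_eq_add_neg, av_add, av_neg, sub_eq_add_neg]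

lemma av_zero : av (0 : 𝓞 K) = 0 := by simp [av]

lemma av_one : av (1 : 𝓞 K) = 1 := by
  have h : (finrank ℚ K : ℝ) ≠ 0 := fpos.ne'
  simp only [av, map_one, Complex.one_re, Finset.sum_const, Finset.card_univ, nsmul_eq_mul, mul_one]
  rw [Embeddings.card K ℂ, div_self h]

lemma av_natCast (n : ℕ) : av ((n : ℕ) : 𝓞 K) = n := by
  induction n with
  | zero => simpa using av_zero
  | succ k ih => rw [Nat.cast_succ, av_add, ih, av_one]; push_cast; ring

lemma av_ofNat (n : ℕ) [n.AtLeastTwo] : av (OfNat.ofNat n : 𝓞 K) = OfNat.ofNat n := by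
  have := av_natCast (K := K) (OfNat.ofNat n)
  simpa using this

lemma av_sum {ι : Type*} (s : Finset ι) (f : ι → 𝓞 K) : av (∑ i ∈ s, f i) = ∑ i ∈ s, av (f i) := by
  classical
  induction s using Finset.induction_on with
  | empty => simp [av_zero]
  | insert a s ha ih => rw [Finset.sum_insert ha, Finset.sum_insert ha, av_add, ih]

lemma ms_nonneg (x : 𝓞 K) : 0 ≤ ms x :=
  div_nonneg (Finset.sum_nonneg fun _ _ => sq_nonneg _) fpos.le

lemma ms_zero : ms (0 : 𝓞 K) = 0 := by simp [ms]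

lemma ms_one : ms (1 : 𝓞 K) = 1 := by
  have h : (finrank ℚ K : ℝ) ≠ 0 := fpos.ne'
  simp only [ms, map_one, Complex.one_re, Finset.sum_const, Finset.card_univ, nsmul_eq_mul,
    one_pow, mul_one]
  rw [Embeddings.card K ℂ, div_self h]

lemma ms_neg (x : 𝓞 K) : ms (-x) = ms x := by simp [ms]

/-- parallelogram law -/
lemma ms_par (x y : 𝓞 K) : ms (x + y) + ms (x - y) = 2 * ms x + 2 * ms y := by
  simp only [ms, ← add_div, ← Finset.sum_add_distrib, ← mul_div_assoc, Finset.mul_sum]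
  congr 1
  refine Finset.sum_congr rfl fun φ _ => ?_
  simp only [map_add, map_sub, Complex.add_re, Complex.sub_re]
  ring

lemma ms_two_mul (x : 𝓞 K) : ms (2 * x) = 4 * ms x := by
  have h := ms_par x x
  rw [sub_self, ms_zero, ← two_mul x] at h
  linarith

/-- in a totally real field `ms x` is the mean of the conjugates of `x ^ 2` -/
lemma ms_eq_av (hK : TR K) (x : 𝓞 K) : ms x = av (x ^ 2) := by
  unfold ms av
  congr 1
  refine Finset.sum_congr rfl fun φ _ => ?_
  have h := hK φ (x : K)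
  simp only [map_pow, pow_two, map_mul, Complex.mul_re, h, mul_zero, sub_zero]

lemma re_ne_zero (hK : TR K) (φ : K →+* ℂ) {z : 𝓞 K} (hz : z ≠ 0) : (φ (z : K)).re ≠ 0 := by
  intro h
  have h1 : φ (z : K) = 0 := Complex.ext h (hK φ _)
  rw [map_eq_zero] at h1
  exact hz (RingOfIntegers.ext h1)

/-- the conjugates are injective -/
lemma re_inj (hK : TR K) (φ : K →+* ℂ) {x y : 𝓞 K} (h : (φ (x : K)).re = (φ (y : K)).re) : x = y := by
  by_contra hne
  refine re_ne_zero hK φ (z := x - y) (sub_ne_zero.2 hne) ?_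
  simp [h]

/-- `log |N z|` is the sum of the logarithms of the conjugates -/
lemma lN_eq (hK : TR K) {z : 𝓞 K} (hz : z ≠ 0) : lN z = ∑ φ : K →+* ℂ, Real.log |(φ (z : K)).re| := by
  have h1 := norm_eq_prod hK (z : K)
  rw [← Real.log_prod (fun φ _ => abs_ne_zero.2 (re_ne_zero hK φ hz)), ← Finset.abs_prod]
  unfold lN
  congr 2
  have h2 : ((Algebra.norm ℤ z : ℤ) : ℝ) = ((Algebra.norm ℚ (z : K) : ℚ) : ℝ) := by
    rw [← Algebra.coe_norm_int]
    push_cast
    rfl
  rw [h2, h1]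
  rfl

lemma lN_nonneg {z : 𝓞 K} (hz : z ≠ 0) : 0 ≤ lN z := by
  refine Real.log_nonneg ?_
  have h1 : Algebra.norm ℤ z ≠ 0 := by
    rwa [Ne, Algebra.norm_eq_zero_iff]
  have h2 : (1 : ℤ) ≤ |Algebra.norm ℤ z| := Int.one_le_abs h1
  exact_mod_cast h2

/-- AM-GM: a nonzero integer has mean square at least `1` -/
lemma one_le_ms (hK : TR K) {z : 𝓞 K} (hz : z ≠ 0) : 1 ≤ ms z := by
  have h1 : ∀ φ : K →+* ℂ, 1 + 2 * Real.log |(φ (z : K)).re| ≤ (φ (z : K)).re ^ 2 := by
    intro φ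
    have h2 : 0 < |(φ (z : K)).re| := abs_pos.2 (re_ne_zero hK φ hz)
    have h3 := Real.log_le_sub_one_of_pos (pow_pos h2 2)
    rw [Real.log_pow, sq_abs] at h3
    push_cast at h3
    linarith
  have h4 := Finset.sum_le_sum fun φ (_ : φ ∈ Finset.univ) => h1 φ
  rw [Finset.sum_add_distrib, ← Finset.mul_sum, ← lN_eq hK hz] at h4
  simp only [Finset.sum_const, Finset.card_univ, nsmul_eq_mul, mul_one] at h4
  rw [Embeddings.card K ℂ] at h4
  unfold ms
  rw [le_div_iff₀ fpos]
  linarith [lN_nonneg hz]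

/-- finitely many integers of bounded mean square -/
lemma BB_finite (hK : TR K) (T : ℝ) : (BB K T).Finite := by
  have h1 := Embeddings.finite_of_norm_le K ℂ (Real.sqrt (finrank ℚ K * T))
  refine Set.Finite.of_finite_image (f := fun x : 𝓞 K => (x : K)) (h1.subset ?_)
    (fun x _ y _ h => RingOfIntegers.ext h)
  rintro _ ⟨x, hx, rfl⟩
  refine ⟨x.2, fun φ => ?_⟩
  have h2 : ‖φ (x : K)‖ = |(φ (x : K)).re| := by
    rw [← norm_realEmb hK φ (x : K)]
    rfl
  rw [h2]
  refine Real.abs_le_sqrt ?_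
  have h3 : ms x ≤ T := hx
  unfold ms at h3
  rw [div_le_iff₀ fpos] at h3
  have h4 := Finset.single_le_sum (f := fun φ : K →+* ℂ => (φ (x : K)).re ^ 2)
    (fun _ _ => sq_nonneg _) (Finset.mem_univ φ)
  linarith [mul_comm T (finrank ℚ K : ℝ)]

lemma NN_mono (hK : TR K) {T T' : ℝ} (h : T ≤ T') : NN K T ≤ NN K T' :=
  Set.ncard_le_ncard (fun _ hx => le_trans hx h) (BB_finite hK T')

lemma one_le_NN (hK : TR K) {T : ℝ} (h : 0 ≤ T) : 1 ≤ NN K T := by
  rw [Nat.one_le_iff_ne_zero, Ne, NN, Set.ncard_eq_zero (BB_finite hK T)]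
  intro h0
  have : (0 : 𝓞 K) ∈ BB K T := by
    change ms (0 : 𝓞 K) ≤ T
    rwa [ms_zero]
  rw [h0] at this
  exact this

end Basic

end Pool.Agent.Lib.MPcb8a44.F4
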