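import Pool.Agent.Lib.MP_cb8a44_nt.F4.Defs

/-!
# Finitely many totally real `K` with `P(O_K) ≤ 3`, `2` unramified and many small primes: modules

Theorem.  Let `Q ∈ ℕ`.  There are only finitely many totally real `K` with `P(O_K) ≤ 3`, `2` unramified in `K`,
(if `√5 ∈ K`: all residue degrees at `2` are `≡ 2` mod `4`), and `∑ w(q) log N(q)/(N(q) - 1) ≥ θ [K:ℚ]`, the sum over some
primes `q` of norm `≤ Q`, `w(q) = 2` for `q ∣ 2`, `w(q) = 1` otherwise, `θ = 3/10` (`19/50` if `√5 ∈ K`).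

Idea.  `N(T) = #{x ∈ O : Tr x² ≤ T d}`.  (I) An energy inequality (Vandermonde determinant with Hermite polynomials, Hadamard,
and collisions modulo small primes) bounds `N(T₀)` by an absolute constant, `T₀ = 2.2` (`2.3`), and also the number of `x` with
`Tr x² ≤ (3 + 2ε)d` in a set having at most `N(q)/2` classes modulo every prime `q ∣ 2`.  (II) `P(O) ≤ 3`:
`x² + 3 = a² + b² + c²`, `M(a) + M(b) + M(c) = M(x) + 3` (`M` = mean square); if `a, b` are small then `x` is determined by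
them up to `N(T)` choices (congruences modulo `2`), and if only `a` is small then `a = 0`, `x - 1 ≡ B + 1/B` mod `2`, so `x` is in
one of the sets of (I).  Hence `N(T + ε) ≤ M N(T)³` for all `T ≥ T₀`, so `N(T) ≤ F(T)` absolute.  (III) `|disc K| ≤ C^d`
(`RC.All.result`) and Minkowski: `N(T₁) → ∞` for `d → ∞`.  If `√5 ∈ K` one uses `x² + 3 + φ = x² + 1 + 1 + φ²`.

Every `SpecXXX` below may be assumed in the proof of any other module.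
-/

set_option autoImplicit false

open NumberField Module Pool.Agent.Lib.MPcb8a44.RD

namespace Pool.Agent.Lib.MPcb8a44.F4

/-! ## Analysis -/

/-- HRB (80 lines).  Bound for the (probabilists') Hermite polynomials.
Proof.  `f(z) = exp(-z²/2)` on `ℂ`: `iteratedDeriv n f z = (-1)^n He_n(z) f(z)` (induction as in Mathlib's
`Polynomial.deriv_gaussian_eq_hermite_mul_gaussian`, with `Polynomial.hermite_succ`; or first the real statement and restriction).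
Cauchy (`Complex.norm_iteratedDeriv_le_of_forall_mem_sphere_norm_le`) on the circle `|z - x| = r`, `z = x + r e^{iθ}`:
`Re(-z²/2) = -x²/2 - x r cos θ - r² cos² θ + r²/2 ≤ -x²/4 + r²/2` (since `-x t - t² ≤ x²/4`, `t = r cos θ`), so
`|He_n(x)| e^{-x²/2} ≤ n! r^{-n} e^{-x²/4 + r²/2}`. -/
def SpecHRB : Prop := ∀ (n : ℕ) (x r : ℝ), 0 < r →
  |Polynomial.aeval x (Polynomial.hermite n)| ≤
    n.factorial * (r ^ n)⁻¹ * Real.exp (x ^ 2 / 4 + r ^ 2 / 2)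

/-- HAD (150 lines).  Vandermonde = Hermite determinant, and Hadamard's inequality.
Proof.  `|∏_{i<j} (w_j - w_i)| = |det vandermonde w|` (`Matrix.det_vandermonde`) `= |det (He_j(w_i))|`
(`Matrix.det_eval_matrixOfPolynomials_eq_det_vandermonde`, `Polynomial.hermite_monic`, `Polynomial.natDegree_hermite`, mapped to
`ℝ`).  Take the factor `√(j!)` out of column `j` (`Matrix.det_mul_column` / `det_mul_row`) and apply Hadamard's inequality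
`|det A| ≤ ∏_i ‖row_i‖` (e.g. `Orientation.abs_volumeForm_apply_le` with the standard orthonormal basis of `EuclideanSpace`, or
the Gram determinant bound of the other blocks).  `m = 0` is trivial. -/
def SpecHAD : Prop := ∀ (m : ℕ) (w : Fin m → ℝ),
  ∏ i, ∏ j ∈ Finset.Ioi i, |w j - w i| ≤
    (∏ i, Real.sqrt (∑ j : Fin m, (Polynomial.aeval (w i) (Polynomial.hermite (j : ℕ))) ^ 2 /
      ((j : ℕ).factorial : ℝ))) * ∏ j : Fin m, Real.sqrt ((j : ℕ).factorial : ℝ)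

/-- STR (120 lines).  Stirling.
Proof.  `log j! ≤ j log j - j + 1 + log j` for `j ≥ 1` (induction: `(j+1) log(j+1) - j log j ≥ log j + 1`, as
`log(1 + 1/j) ≥ 1/(j+1)`).  The second bound: `j! (e/j)^j ≤ e j`, the sum is at most `1 + e m²`; `log(1 + e m²) ≤ K₁ log(m+1)`.
The first: `∑_{1 ≤ j < m} (j log j - j + 1 + log j)`, and `∑_{1 ≤ j<m} j log j ≤ (m²/2) log m - m²/4 + 1/4`
(induction on `m`: `((m+1)²/2) log(m+1) - (m²/2) log m ≥ m log m + (2m+1)/4`, using `log(m+1) ≥ log m + 1/(m+1)` carefully, or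
simply prove the whole inequality with a large `K₁` by induction on `m`). -/
def SpecSTR : Prop := ∃ K₁ : ℝ, 0 ≤ K₁ ∧ ∀ m : ℕ, 1 ≤ m →
  (∑ j ∈ Finset.range m, Real.log (j.factorial : ℝ) ≤
    (m : ℝ) ^ 2 / 2 * Real.log m - 3 / 4 * (m : ℝ) ^ 2 + K₁ * m * Real.log (m + 1)) ∧
  Real.log (∑ j ∈ Finset.range m, (j.factorial : ℝ) * (Real.exp 1 / j) ^ j) ≤ K₁ * Real.log (m + 1)

/-- ENG (150 lines).  The energy inequality at one place.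
Proof.  `λ = √(m/T)`; apply HAD to `λ w`.  By HRB with `r = √j` (`j ≥ 1`; `He_0 = 1`):
`He_j(y)²/j! ≤ j! (e/j)^j e^{y²/2}`, so with `A = ∑_{j<m} j! (e/j)^j`: `∑_j He_j(y)²/j! ≤ A e^{y²/2}`.  Logarithm of HAD:
`∑_{i<j} log|w_j - w_i| + (m(m-1)/2) log λ ≤ (m/2) log A + (λ²/4) ∑ w_i² + (1/2) ∑_{j<m} log j!`.  With STR and
`log λ = (log m - log T)/2`, `log T ≥ 0`, `log m ≤ log(m+1)`: the claim with `K₀ = K₁ + 1/4`. -/
def SpecENG : Prop := ∃ K₀ : ℝ, 0 ≤ K₀ ∧ ∀ m : ℕ, 1 ≤ m → ∀ T : ℝ, 1 ≤ T →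
  ∀ w : Fin m → ℝ, Function.Injective w →
  ∑ i, ∑ j ∈ Finset.Ioi i, Real.log |w j - w i| ≤
    m / (4 * T) * ∑ i, w i ^ 2 + (m : ℝ) ^ 2 * (Real.log T / 4 - 3 / 8) + K₀ * m * Real.log (m + 1)

/-- NRM (50 lines).  Sum of ENG over the embeddings.
Proof.  For each `φ` apply ENG to `w_i = (φ x_i).re` (injective by `re_inj`); `lN z = ∑_φ log |(φ z).re|` (`lN_eq`),
`∑_φ ∑_i w_i² = d ∑_i ms (x_i) ≤ d m T`. -/
def SpecNRM : Prop := ∃ K₀ : ℝ, 0 ≤ K₀ ∧ ∀ (K : Type) [Field K] [NumberField K], TR K →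
  ∀ m : ℕ, 1 ≤ m → ∀ T : ℝ, 1 ≤ T → ∀ x : Fin m → 𝓞 K, Function.Injective x → (∀ i, ms (x i) ≤ T) →
  ∑ i, ∑ j ∈ Finset.Ioi i, lN (x j - x i) ≤
    finrank ℚ K * ((m : ℝ) ^ 2 * (Real.log T / 4 - 1 / 8) + K₀ * m * Real.log (m + 1))

/-! ## Collisions modulo prime ideals -/

/-- PGH (60 lines).  Pigeonhole.
Proof.  With the fibre sizes `n_a`: `∑ n_a = m`, `m² ≤ k ∑ n_a²` (Cauchy-Schwarz, `sq_sum_le_card_mul_sum_sq`), and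
`#{i < j : f j = f i} = ∑_a n_a(n_a - 1)/2` (ordered pairs `(i,j)` with `f i = f j`: `∑ n_a²`; remove the diagonal; symmetry). -/
def SpecPGH : Prop := ∀ (ι : Type) (m k : ℕ) (f : Fin m → ι), 1 ≤ k → (Set.range f).ncard ≤ k →
  (m : ℝ) ^ 2 / (2 * k) - m / 2 ≤
    ∑ i, (open Classical in ((Finset.Ioi i).filter fun j => f j = f i).card : ℝ)

/-- CLS (80 lines).  Classes modulo `q^(k+1)`.
Proof.  The natural map `O/q^(k+1) → O/q` is surjective, all its fibres have the same size `N(q^(k+1))/N(q) = N(q)^k`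
(`Ideal.absNorm` is multiplicative; `Ideal.absNorm_apply`, `Submodule.cardQuot_apply`; the fibres are cosets of the kernel), and the
image of `X` in `O/q^(k+1)` is contained in the union of the `≤ c` fibres over the image of `X` in `O/q`. -/
def SpecCLS : Prop := ∀ (K : Type) [Field K] [NumberField K] (q : Ideal (𝓞 K)), q.IsMaximal → q ≠ ⊥ →
  ∀ (X : Set (𝓞 K)) (c k : ℕ), ((Ideal.Quotient.mk q) '' X).ncard ≤ c →
  ((Ideal.Quotient.mk (q ^ (k + 1))) '' X).ncard ≤ c * Ideal.absNorm q ^ k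

/-- VAL (80 lines).
Proof.  `e(q) = #{k < k₀ : z ∈ q^(k+1)}`; since the powers decrease these are `k = 0, …, e(q) - 1`, so `z ∈ q^{e(q)}`.  Distinct
maximal ideals are coprime, so `∏_{q ∈ S} q^{e(q)} ∣ (z)` (`Finset.prod_dvd_of_coprime` / `Ideal.prod_le_inf`, `Ideal.dvd_iff_le`),
hence `∏ N(q)^{e(q)} ∣ |N z|` (`Ideal.absNorm_dvd_absNorm_of_le`, `Ideal.absNorm_span_singleton`), `≤` as `N z ≠ 0`; logarithms. -/
def SpecVAL : Prop := ∀ (K : Type) [Field K] [NumberField K] (S : Finset (Ideal (𝓞 K))),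
  (∀ q ∈ S, q.IsMaximal ∧ q ≠ ⊥) → ∀ (k₀ : ℕ) (z : 𝓞 K), z ≠ 0 →
  ∑ q ∈ S, Real.log (Ideal.absNorm q) *
    (open Classical in ((Finset.range k₀).filter fun k => z ∈ q ^ (k + 1)).card : ℝ) ≤ lN z

/-- COL (80 lines).  Many collisions make the product of the norms large.
Proof.  Sum VAL over the pairs `i < j`, `z = x_j - x_i ≠ 0`, exchange the sums: for every `q ∈ S`, `k < k₀` the number of pairs with
`x_j - x_i ∈ q^(k+1)` is, by PGH with `f i = mk (x_i)` in `O/q^(k+1)` and CLS (`X = Set.range x`), at least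
`m²/(2 c(q) N(q)^k) - m/2` (`Ideal.Quotient.mk_eq_mk_iff_sub_mem`; `N(q) ≥ 1`).  `log N(q) ≥ 0`. -/
def SpecCOL : Prop := ∀ (K : Type) [Field K] [NumberField K] (S : Finset (Ideal (𝓞 K))),
  (∀ q ∈ S, q.IsMaximal ∧ q ≠ ⊥) → ∀ (c : Ideal (𝓞 K) → ℕ), (∀ q ∈ S, 1 ≤ c q) →
  ∀ (k₀ m : ℕ) (x : Fin m → 𝓞 K), Function.Injective x →
  (∀ q ∈ S, ((Ideal.Quotient.mk q) '' Set.range x).ncard ≤ c q) →
  ∑ q ∈ S, Real.log (Ideal.absNorm q) *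
    ∑ k ∈ Finset.range k₀, ((m : ℝ) ^ 2 / (2 * (c q * (Ideal.absNorm q : ℝ) ^ k)) - m / 2) ≤
  ∑ i, ∑ j ∈ Finset.Ioi i, lN (x j - x i)

/-- SLG (80 lines).
Proof.  Every `q ∈ S` contains `N(q) ≤ Q` (`Ideal.absNorm_mem`), `N(q) ≠ 0`, so it contains `Q!`.  The `q ∈ S` are pairwise coprime,
so `∏_{q ∈ S} q ∣ (Q!)` and `∏ N(q) ∣ N((Q!)) = (Q!)^d` (`Ideal.absNorm_span_singleton`, `Algebra.norm_natCast` or
`Algebra.norm_algebraMap`, `RingOfIntegers.rank`). -/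
def SpecSLG : Prop := ∀ (K : Type) [Field K] [NumberField K] (Q : ℕ) (S : Finset (Ideal (𝓞 K))),
  (∀ q ∈ S, q.IsMaximal ∧ q ≠ ⊥ ∧ Ideal.absNorm q ≤ Q) →
  ∑ q ∈ S, Real.log (Ideal.absNorm q) ≤ finrank ℚ K * Real.log (Q.factorial : ℝ)

/-- EGY (100 lines).  The energy bound for finite sets with few classes modulo small primes; `M` is uniform in `K`.
Proof.  `m = #X ≥ 1`, `x` an enumeration of `X`.  NRM and COL (`(mk '' X).ncard`), and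
`∑_q log N(q) ∑_k (m²/(2cN^k) - m/2) = (m²/2) ∑_q log N(q) ∑_k 1/(cN^k) - (m/2) k₀ ∑_q log N(q)
 ≥ (m²/2) d (log T/2 - 1/4 + δ) - (m/2) k₀ d log Q!` (SLG).  Divide by `d m/2`:
`m δ ≤ 2 K₀ log(m+1) + k₀ log Q!`, which bounds `m` (`Real.isLittleO_log_id_atTop`, or `log(m+1) ≤ 2 √(m+1)`). -/
def SpecEGY : Prop := ∀ T δ : ℝ, 1 ≤ T → 0 < δ → ∀ Q k₀ : ℕ, ∃ M : ℕ,
  ∀ (K : Type) [Field K] [NumberField K], TR K → ∀ (S : Finset (Ideal (𝓞 K))),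
  (∀ q ∈ S, q.IsMaximal ∧ q ≠ ⊥ ∧ Ideal.absNorm q ≤ Q) → ∀ (c : Ideal (𝓞 K) → ℕ), (∀ q ∈ S, 1 ≤ c q) →
  finrank ℚ K * (Real.log T / 2 - 1 / 4 + δ) ≤
    ∑ q ∈ S, Real.log (Ideal.absNorm q) * ∑ k ∈ Finset.range k₀, 1 / (c q * (Ideal.absNorm q : ℝ) ^ k) →
  ∀ X : Finset (𝓞 K), (∀ x ∈ X, ms x ≤ T) →
  (∀ q ∈ S, ((Ideal.Quotient.mk q) '' (X : Set (𝓞 K))).ncard ≤ c q) → X.card ≤ M

/-- EQC (120 lines).  At most half of the classes.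
Proof.  `k = O/q`, finite field with `N(q)` elements of characteristic `2`.  In `k`: `B B' = 1`, so the image is contained in
`{s + τ g(u) : u ∈ kˣ}`, `g(u) = u + u⁻¹`, and has at most as many elements as the image `A` of `g` on `kˣ`.  `g(u) = g(v)` iff `v = u` or
`v = u⁻¹`; `u = u⁻¹` only for `u = 1` (char 2).  `N(q) - 1 = ∑_{a ∈ A} #g⁻¹(a)`, the fibre of `0 = g(1)` has one element, all others have
two, so `N(q) - 1 = 2 #A - 1`. -/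
def SpecEQC : Prop := ∀ (K : Type) [Field K] [NumberField K] (q : Ideal (𝓞 K)), q.IsMaximal → (2 : 𝓞 K) ∈ q →
  ∀ s τ : 𝓞 K, 2 * ((Ideal.Quotient.mk q) '' (ES s τ)).ncard ≤ Ideal.absNorm q

/-- EST (120 lines).
Proof.  `γ = log T/2 - 1/4 < θ`; choose `k₀`, `δ > 0` with `(1 - 2^{-k₀}) θ ≥ γ + δ` (if `θ ≤ 0` take `k₀ = 0`).  Let `M` be from EGY
for `(T, δ, Q, k₀)`.  `K`, `S` from `HS K θ Q` (a maximal ideal of `𝓞 K` is `≠ ⊥`: `Ring.ne_bot_of_isMaximal_of_not_isField`,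
`RingOfIntegers.not_isField`).  `c(q) = N(q)/2` if `2 ∈ q` (`N(q)` is even: `q ∣ 2` so `N(q) ∣ 2^d`, `N(q) ≠ 1`), `c(q) = N(q)` otherwise; the number of classes
of `ES s τ` is `≤ c(q)` by EQC.  With `N = N(q) ≥ 2`: `∑_{k<k₀} 1/(c N^k) = w/N · (1 - N^{-k₀})/(1 - 1/N) ≥ w (1 - 2^{-k₀})/(N - 1)`.
So the hypothesis of EGY holds, for every finite subset `X` of `ES s τ ∩ BB K T` (finite by `BB_finite`). -/
def SpecEST : Prop := ∀ θ T : ℝ, 1 ≤ T → Real.log T / 2 - 1 / 4 < θ → ∀ Q : ℕ, ∃ M : ℕ,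
  ∀ (K : Type) [Field K] [NumberField K], TR K → HS K θ Q → ∀ s τ : 𝓞 K,
  (ES s τ ∩ BB K T).ncard ≤ M

/-- STT (100 lines).  As EST, with `c(q) = N(q)` for all `q ∈ S`, `X = BB K T`, and
`∑_{q ∈ S} log N(q)/(N(q) - 1) ≥ (1/2) ∑_{q ∈ S} w(q) log N(q)/(N(q) - 1) ≥ (θ/2) d`. -/
def SpecSTT : Prop := ∀ θ T : ℝ, 1 ≤ T → Real.log T / 2 - 1 / 4 < θ / 2 → ∀ Q : ℕ, ∃ M : ℕ,
  ∀ (K : Type) [Field K] [NumberField K], TR K → HS K θ Q → NN K T ≤ M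

/-! ## Elements of small mean square -/

/-- FIA (60 lines).
Proof.  On each of `(0,1)`, `(1,∞)` the left side minus `13/10` is convex; tangent lines: `log t ≤ log t₀ + (t - t₀)/t₀`.
Near minima `0.543` (value `1.3275`) and `1.657` (value `1.3285`): take rational `t₀`, bound the logarithms of rationals. -/
def SpecFIA : Prop := ∀ u : ℝ, 0 < u → u ≠ 1 →
  13 / 10 ≤ u - 9 / 10 * Real.log u - 3 / 10 * Real.log |u - 1|

/-- FIB (150 lines).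
Proof.  `u² - 3u + 1 = (u - r₁)(u - r₂)`, `r₁ = (3 - √5)/2 = .38197`, `r₂ = (3 + √5)/2 = 2.61803`.  On each of `(0,r₁)`, `(r₁,1)`, `(1,r₂)`,
`(r₂,∞)` the function is convex; minima `1.5975` at `.1668`, `1.9424` at `.5351`, `1.5815` at `1.9486`, `1.6194` at `3.4495`.  Use
`log t ≤ log t₀ + (t - t₀)/t₀` for `t = u, |u - 1|, |u - r₁|, |u - r₂|` at rational `u₀` near the minimum (the margin is `.03`). -/
def SpecFIB : Prop := ∀ u : ℝ, 0 < u → u ≠ 1 → u ^ 2 - 3 * u + 1 ≠ 0 →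
  31 / 20 ≤ u - 3 / 5 * Real.log u - 9 / 10 * Real.log |u - 1| - 3 / 10 * Real.log |u ^ 2 - 3 * u + 1|

/-- SIA (60 lines).
Proof.  `u_φ = (φ a).re²`: FIA summed over `φ`: `d ms a - (9/10) lN(a²) - (3/10) lN(a² - 1) ≥ (13/10) d`, and `lN ≥ 0` for nonzero
elements (`lN_nonneg`, `lN_eq`); `a² ≠ 1`. -/
def SpecSIA : Prop := ∀ (K : Type) [Field K] [NumberField K], TR K → ∀ a : 𝓞 K,
  a ≠ 0 → a ≠ 1 → a ≠ -1 → 13 / 10 ≤ ms a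

/-- SIB (60 lines).  The same with FIB; `a⁴ - 3a² + 1 = (a² - a - 1)(a² + a - 1) ≠ 0`. -/
def SpecSIB : Prop := ∀ (K : Type) [Field K] [NumberField K], TR K → ∀ a : 𝓞 K,
  a ≠ 0 → a ≠ 1 → a ≠ -1 → a ^ 2 - a - 1 ≠ 0 → a ^ 2 + a - 1 ≠ 0 → 31 / 20 ≤ ms a

/-! ## Congruences modulo `2` -/

/-- MDA (60 lines).
Proof.  `(a+b+c-x-1)² = (a²+b²+c²) + (x+1)² + 2(…) = 2x² + 2x + 4 + 2(…)` is divisible by `2`, so `2 ∣ a+b+c-x-1` (`U2`).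
Write `a+b+c = x+1+2t`, `c = g + 2t`, `g = x+1-a-b`; substituting in `x²+3 = a²+b²+c²` and dividing by `2`:
`1 - x - (a²+ab+b²) + (x+1)(a+b) = 2(gt + t²)`, and `(x+1)(a+b+1) - (x+1)(a+b) - (1-x) = 2x`. -/
def SpecMDA : Prop := ∀ (K : Type) [Field K] [NumberField K], U2 K → ∀ x a b c : 𝓞 K,
  x ^ 2 + 3 = a ^ 2 + b ^ 2 + c ^ 2 →
  2 ∣ a + b + c - x - 1 ∧ 2 ∣ (x + 1) * (a + b + 1) - (a ^ 2 + a * b + b ^ 2)

/-- EMA (40 lines).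
Proof.  MDA with `a = 0`: `2 ∣ b+c-x-1`, `2 ∣ (x+1)(b+1) - b²`.  `B = b+1`, `B' = c+1`: modulo `2`, `(b+c)(b+1) ≡ b²`, i.e.
`b + c + bc ≡ 0`, so `BB' ≡ 1`; and `x - 1 - B - B' ≡ x - 1 - (x+1) - 2 ≡ 0`. -/
def SpecEMA : Prop := ∀ (K : Type) [Field K] [NumberField K], U2 K → ∀ x b c : 𝓞 K,
  x ^ 2 + 3 = b ^ 2 + c ^ 2 → x ∈ ES (1 : 𝓞 K) 1

/-- MDB (60 lines).
Proof.  `φ² = φ + 1`.  `(a+b+c-x-φ)² = (a²+b²+c²) + (x+φ)² + 2(…) = 2x² + 3 + φ + φ² + 2(…) = 2x² + 4 + 2φ + 2(…)`, so `2 ∣ a+b+c-x-φ`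
(`U2`).  Write `a+b+c = x+φ+2t`, square and use `a²+b²+c² = x²+3+φ`: `e₂ := ab+ac+bc` satisfies `2 + 2e₂ = 2φx + 4(…)`, so
`e₂ ≡ φx + 1` mod `2`; with `c ≡ x+φ+a+b`: `e₂ ≡ ab + (a+b)(x+φ) + (a+b)²`. -/
def SpecMDB : Prop := ∀ (K : Type) [Field K] [NumberField K], U2 K → ∀ f x a b c : 𝓞 K,
  f ^ 2 = f + 1 → x ^ 2 + 3 + f = a ^ 2 + b ^ 2 + c ^ 2 →
  2 ∣ a + b + c - x - f ∧ 2 ∣ (a + b + f) * x - (a ^ 2 + a * b + b ^ 2 + f * (a + b) + 1)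

/-- EMB (60 lines).
Proof.  (i) `a = 0`: `B = b+φ`, `B' = c+φ`: from MDB with `a = 0`, `b+c ≡ x+φ` and `(b+φ)x ≡ b²+φb+1`, which gives `bc ≡ φx+1`
(`bc ≡ b(x+φ+b)`); `BB' = bc + φ(b+c) + φ² ≡ φx + 1 + φ(x+φ) + φ² ≡ 1`; `x - φ - B - B' ≡ x - φ - (x+φ) - 2φ ≡ 0`.
(ii) `a² = 1`, i.e. `a = 1` (`a = -1` is the same equation): `b+c ≡ x+φ+1`, `bc ≡ φx + 1 + (b+c) ≡ (φ+1)x + φ`.  `B = φb+1`, `B' = φc+1`:
`BB' = φ²bc + φ(b+c) + 1 ≡ 1` (`φ³ ≡ 1`, `φ⁴ ≡ φ` mod `2`), `(φ+1)(B+B') = φ³(b+c) + 2(φ+1) ≡ b+c ≡ x+φ+1`. -/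
def SpecEMB : Prop := ∀ (K : Type) [Field K] [NumberField K], U2 K → ∀ f x b c : 𝓞 K, f ^ 2 = f + 1 →
  (x ^ 2 + 3 + f = b ^ 2 + c ^ 2 → x ∈ ES f 1) ∧
  (x ^ 2 + 3 + f = 1 ^ 2 + b ^ 2 + c ^ 2 → x ∈ ES (f + 1) (f + 1))

/-- LOC (100 lines).
Proof.  `k = O/q`, a finite field with `N(q) = 2^n` elements, `2^n ≡ 4` mod `5` means `n ≡ 2` mod `4`, `n = 2h`, `h` odd.  Suppose
`a² + φa + 1 = 0` in `k` (`φ² = φ + 1`, `φ³ = 1`, characteristic `2`).  Then `a² = φa + 1`, `a⁴ = φ²a² + 1 = φ³a + φ² + 1 = a + φ`, and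
by induction `a^(4^i) = a + iφ` (`φ⁴ = φ`, Frobenius is additive).  For `i = h` odd: `a = a^(N(q)) = a + φ` (`FiniteField.pow_card`),
so `φ = 0`, but `φ(φ - 1) = 1`. -/
def SpecLOC : Prop := ∀ (K : Type) [Field K] [NumberField K] (q : Ideal (𝓞 K)), q.IsMaximal →
  (2 : 𝓞 K) ∈ q → Ideal.absNorm q % 5 = 4 → ∀ f a : 𝓞 K, f ^ 2 = f + 1 → a ^ 2 + f * a + 1 ∉ q

/-- N3S (80 lines).  `3` is not a sum of two squares.
Proof.  `a² + b² = 3`: `(a+b+1)² = 4 + 2(…)`, so `2 ∣ a+b+1` (`U2`), `b = -1-a+2t`, and `a²+b² = 3` becomes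
`a² + a - 1 = 2t(1+a) - 2t²`.  So `2 ∣ a²+a-1`, hence `a ≠ 0, 1, -1` (`2 ∤ 1` in `𝓞 K`: norms, or `1/2` is not integral).  `a² - a - 1 ≠ 0`: else
`(2a-1)² = 5`; `a² + a - 1 ≠ 0`: else `(2a+1)² = 5`.  So `ms a ≥ 31/20` (SIB), and by symmetry `ms b ≥ 31/20`; but
`ms a + ms b = av (a²+b²) = 3` (`ms_eq_av`, `av_ofNat`). -/
def SpecN3S : Prop := ∀ (K : Type) [Field K] [NumberField K], TR K → U2 K → (∀ y : K, y ^ 2 ≠ 5) →
  ∀ a b : 𝓞 K, a ^ 2 + b ^ 2 ≠ 3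

/-- TRP (60 lines).
Proof.  `φ(φ-1) = 1`, so `φ` is a unit, `lN φ = 0`.  Every conjugate `t = (σ φ).re` satisfies `t² = t + 1`, `t ∈ {ϕ, 1-ϕ}` (golden ratio),
`log|ϕ| = -log|1-ϕ| ≠ 0`, so `0 = lN φ = (n₁ - n₂) log ϕ` with the numbers `n₁, n₂` of embeddings of the two types: `n₁ = n₂`, and
`∑ t = n₁ ϕ + n₂ (1-ϕ) = n₁ = d/2`.  (Or `Algebra.trace` and `minpoly`.) -/
def SpecTRP : Prop := ∀ (K : Type) [Field K] [NumberField K], TR K → ∀ f : 𝓞 K, f ^ 2 = f + 1 → av f = 1 / 2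

/-! ## Counting -/

/-- PAR (80 lines).  A class modulo `2` contains few small elements.
Proof.  Let `U = {x : 2 ∣ x - α, ms x ≤ T}` (finite), `u₀ ∈ U` (if `U = ∅` nothing to do).  For `u ∈ U`, `u + u₀ = 2y`, `u - u₀ = 2z` with
`y, z ∈ O` (`2 ∣ u - u₀`), `ms y + ms z = (ms u + ms u₀)/2 ≤ T` (`ms_par`, `ms_two_mul`), so `ms y ≤ T/2` or `ms z ≤ T/2`: `U` is contained in the
union of the images of `BB K (T/2)` under `y ↦ 2y - u₀` and `z ↦ 2z + u₀`. -/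
def SpecPAR : Prop := ∀ (K : Type) [Field K] [NumberField K], TR K → ∀ (T : ℝ) (α : 𝓞 K),
  ({x : 𝓞 K | 2 ∣ x - α} ∩ BB K T).ncard ≤ 2 * NN K (T / 2)

/-- CNA (200 lines).  Two small squares: few `x` (case `√5 ∉ K`).
Proof.  The set is the union over `(a,b) ∈ (BB K T)²` of `S = S(a,b) = {x ∈ BB K T' : ∃ c, x²+3 = a²+b²+c²}`; show `#S ≤ 2 N(T)`.
Case 1: there is `w` with `2 ∣ (a+b+1)w - 1`.  By MDA, `x ≡ w(a²+ab+b²) - 1` mod `2` for all `x ∈ S`, so `#S ≤ 2 N(T'/2) ≤ 2 N(T)` (PAR, `T'/2 ≤ T`).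
Case 2: otherwise the ideal `(2, a+b+1)` is proper, contained in a maximal ideal `𝔭`.  If `S = ∅` fine.  If not, MDA gives
`a²+ab+b² ∈ 𝔭`, and with `b ≡ -a-1`: `a²+a+1 ∈ 𝔭`, similarly `b²+b+1 ∈ 𝔭`; so `a, b ∉ {0, 1, -1}` (`1 ∈ 𝔭` or `3 ∈ 𝔭`, `2 ∈ 𝔭`), and
`a²∓a-1 ≠ 0` since `(2a∓1)² ≠ 5`: `ms a, ms b ≥ 31/20` (SIB).  Put `D = a²+b²-3 ≠ 0` (N3S).  For `x ∈ S` with `c`:
`u = x-c`, `v = x+c`, `uv = D`, `ms x + ms c = 2 ms x + 3 - ms a - ms b ≤ 2T' - 1/10 ≤ 2T`, so `ms u + ms v ≤ 4T` (`ms_par`) and one of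
`u, v`, call it `z`, has `ms z ≤ 2T`; `z ≡ 1+a+b` mod `2` (MDA: `c ≡ x+1+a+b`).  The other is `z'` with `z z' = D`, and `2x = z + z'`.  So `x`
is determined by `z` (`z ≠ 0`), and there are `≤ 2 N(T)` such `z` (PAR with `2T`). -/
def SpecCNA : Prop := ∀ (K : Type) [Field K] [NumberField K], TR K → U2 K → (∀ y : K, y ^ 2 ≠ 5) →
  ∀ T T' : ℝ, 1 ≤ T → T' ≤ T + 1 / 20 →
  ({x : 𝓞 K | ∃ a b c : 𝓞 K, ms a ≤ T ∧ ms b ≤ T ∧ x ^ 2 + 3 = a ^ 2 + b ^ 2 + c ^ 2} ∩ BB K T').ncard ≤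
    2 * NN K T ^ 3

/-- CNB (120 lines).  Two small squares: few `x` (case `√5 ∈ K`).
Proof.  As CNA, only case 1 occurs: for `x ∈ S(a,b)`, `(a+b+φ)x ≡ a²+ab+b²+φ(a+b)+1` mod `2` (MDB).  If `S ≠ ∅` then `a+b+φ` is invertible
modulo `2`: otherwise there is a maximal `𝔭 ∋ 2, a+b+φ`, so the right side is in `𝔭`; with `b ≡ a+φ` (mod `𝔭`) it is
`a²+a(a+φ)+(a+φ)²+φ²+1 ≡ a²+φa+1 + 2(…)`: `a²+φa+1 ∈ 𝔭`, excluded by hypothesis.  So `x` is determined modulo `2`, `#S ≤ 2N(T'/2)`. -/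
def SpecCNB : Prop := ∀ (K : Type) [Field K] [NumberField K], TR K → U2 K → ∀ f : 𝓞 K, f ^ 2 = f + 1 →
  (∀ q : Ideal (𝓞 K), q.IsMaximal → (2 : 𝓞 K) ∈ q → ∀ a : 𝓞 K, a ^ 2 + f * a + 1 ∉ q) →
  ∀ T T' : ℝ, 1 ≤ T → T' ≤ 2 * T →
  ({x : 𝓞 K | ∃ a b c : 𝓞 K, ms a ≤ T ∧ ms b ≤ T ∧ x ^ 2 + 3 + f = a ^ 2 + b ^ 2 + c ^ 2} ∩ BB K T').ncard ≤
    2 * NN K T ^ 3

/-- SGA (100 lines).  The step, case `√5 ∉ K`.
Proof.  `ε = 1/2000`, `x ∈ BB K (T+ε)`.  `x²+3 = x²+1²+1²+1²` is a sum of four squares, so by `P3` `x²+3 = a²+b²+c²`; permute so that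
`ms a ≤ ms b ≤ ms c`; `ms a + ms b + ms c = ms x + 3` (`ms_eq_av`, `av_ofNat`).  If `ms b ≤ T`: the set of CNA (`T' = T+ε`).  If `ms b > T`:
`ms a < ms x + 3 - 2T ≤ 3+ε-T ≤ 0.8005 < 1`, so `a = 0` (`one_le_ms`), `x ∈ ES 1 1` (EMA), and `0 ≤ ms a` gives `T < 3+ε`, `ms x ≤ 3+2ε`.
Total `≤ 2N(T)³ + M ≤ (2+M)N(T)³`. -/
def SpecSGA : Prop := ∀ (K : Type) [Field K] [NumberField K], TR K → U2 K → P3 K → (∀ y : K, y ^ 2 ≠ 5) →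
  ∀ M : ℕ, (ES (1 : 𝓞 K) 1 ∩ BB K (3001 / 1000)).ncard ≤ M → ∀ T : ℝ, 11 / 5 ≤ T →
  NN K (T + 1 / 2000) ≤ (2 + M) * NN K T ^ 3

/-- SGB (120 lines).  The step, case `√5 ∈ K`.
Proof.  `ε = 1/2000`, `x ∈ BB K (T+ε)`.  `x²+3+φ = x²+1²+1²+φ²` is a sum of squares, so `= a²+b²+c²`, `ms a ≤ ms b ≤ ms c`, with
`ms a + ms b + ms c = ms x + 7/2` (TRP).  If `ms b ≤ T`: CNB.  If not: `ms a < 7/2+ε-T ≤ 1.2005 < 13/10`, so `a ∈ {0,1,-1}` (SIA), and by EMB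
`x ∈ ES φ 1` or `x ∈ ES (φ+1) (φ+1)`; `T < 7/2+ε`, `ms x ≤ 7/2+2ε`.  Total `≤ 2N(T)³ + 2M`. -/
def SpecSGB : Prop := ∀ (K : Type) [Field K] [NumberField K], TR K → U2 K → P3 K → ∀ f : 𝓞 K, f ^ 2 = f + 1 →
  (∀ q : Ideal (𝓞 K), q.IsMaximal → (2 : 𝓞 K) ∈ q → ∀ a : 𝓞 K, a ^ 2 + f * a + 1 ∉ q) →
  ∀ M : ℕ, (∀ s τ : 𝓞 K, (ES s τ ∩ BB K (3501 / 1000)).ncard ≤ M) → ∀ T : ℝ, 23 / 10 ≤ T →
  NN K (T + 1 / 2000) ≤ (2 + 2 * M) * NN K T ^ 3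

/-- ITR (40 lines).  Iteration.
Proof.  `F₀ = F`, `F_{k+1} = M F_k³`: `NN K (T₀ + kε) ≤ F_k` by induction; `NN_mono`. -/
def SpecITR : Prop := ∀ (T₀ ε : ℝ) (F M : ℕ), 0 < ε → ∀ T : ℝ, ∃ G : ℕ,
  ∀ (K : Type) [Field K] [NumberField K], TR K → NN K T₀ ≤ F →
  (∀ T : ℝ, T₀ ≤ T → NN K (T + ε) ≤ M * NN K T ^ 3) → NN K T ≤ G

/-- BDA (60 lines).  Case `√5 ∉ K`: uniform bound for all `T`.
Proof.  STT with `θ = 3/10`, `T = 11/5` (`log(11/5)/2 - 1/4 < 3/20`, i.e. `11/5 < exp(4/5) = 2.2255`); EST with `T = 3001/1000`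
(`log(3.001)/2 - 1/4 < 3/10`, i.e. `3.001 < exp(1.1) = 3.0042`); SGA, ITR. -/
def SpecBDA : Prop := ∀ (Q : ℕ) (T : ℝ), ∃ G : ℕ, ∀ (K : Type) [Field K] [NumberField K], TR K → U2 K → P3 K →
  (∀ y : K, y ^ 2 ≠ 5) → HS K (3 / 10) Q → NN K T ≤ G

/-- BDB (80 lines).  Case `√5 ∈ K`: uniform bound for all `T`.
Proof.  `y² = 5`: `φ = (1+y)/2` is integral, `φ² = φ+1`.  LOC gives the hypothesis on `a²+φa+1`.  STT with `θ = 19/50`, `T = 23/10`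
(`23/10 < exp(.88) = 2.4109`); EST with `T = 3501/1000` (`3.501 < exp(1.26) = 3.5254`); SGB, ITR. -/
def SpecBDB : Prop := ∀ (Q : ℕ) (T : ℝ), ∃ G : ℕ, ∀ (K : Type) [Field K] [NumberField K], TR K → U2 K → P3 K →
  (∃ y : K, y ^ 2 = 5) → (∀ q : Ideal (𝓞 K), q.IsMaximal → (2 : 𝓞 K) ∈ q → Ideal.absNorm q % 5 = 4) →
  HS K (19 / 50) Q → NN K T ≤ G

/-- MNK (250 lines).  Minkowski: many integers of bounded mean square if the root discriminant is bounded.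
Proof.  `d = finrank ℚ K`, `C ≥ 1` (as `|discr| ≥ 1`; `C = 0` is impossible), `T = 4C`.  Let `e_0, …, e_{d-1}` be an integral basis; the real matrix
`A = ((φ_i e_j).re)` has `(det A)² = |discr K|` (`NumberField.discr`, `Algebra.discr_eq_det_embeddingsMatrixReindex_pow_two`).
Suppose `NN K T ≤ F`.  Choose a prime `p` with `max(F d, T) < p < 2^d` (Bertrand, possible for `d ≥ d₀(C,F)`).  For `t ∈ ℤ/p` let
`h_t(∑ z_j e_j) = ∑ z_j t^j ∈ ℤ/p`.  A nonzero `z ∈ BB K T` is not in `pO` (else `ms z ≥ p² > T`), so its polynomial `∑ z_j X^j` over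
`ℤ/p` is nonzero and has at most `d-1` roots; `F(d-1) < p`, so there is `t` with `h_t(z) ≠ 0` for all nonzero `z ∈ BB K T`.
`e'_0 = p e_0`, `e'_j = e_j - t^j e_0` (`j ≥ 1`) is a basis of a lattice in `ker h_t`, of determinant `±p det A`, and
`p |det A| ≤ p C^(d/2) < (√T)^d`.  By Minkowski for the cube (`RC.MKWM.cube` in `RC/MKW.lean`, `μ = √T`) there is `0 ≠ z` in its `ℤ`-span
with all `|(φ z).re| < √T`, so `ms z < T`, `z ∈ BB K T`, `h_t(z) = 0`: contradiction. -/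
def SpecMNK : Prop := ∀ C : ℕ, ∃ T : ℝ, ∀ F : ℕ, ∃ d₀ : ℕ, ∀ (K : Type) [Field K] [NumberField K], TR K →
  |discr K| ≤ (C : ℤ) ^ finrank ℚ K → d₀ ≤ finrank ℚ K → F < NN K T

end Pool.Agent.Lib.MPcb8a44.F4
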